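import Pool.Agent.R939.HI.Asm2

/-!
# Almost all surfaces and almost all twists
-/

set_option autoImplicit false
set_option linter.all false

namespace Pool.Agent.R939.HI

open Polynomial NumberField Pool.Agent.R939.EI Pool.Agent.W275.UB Pool.Agent.TH115.GD

section main

variable {k k' K F : Type} [Field k] [Field k'] [Algebra k k'] [Field K] [Algebra k[X] K]
    [Field F] [Algebra k'[X] F] [IsFractionRing k'[X] F] [Algebra K F]

variable {J : Type} [Fintype J] {r s u : ℕ} {m : Fin s → ℕ} {n : Fin u → ℕ}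

/-- **Almost all surfaces**, in terms of the coordinates. -/
theorem main_allI [NumberField k] (hT : IsTower k k' K F) (B : Module.Basis J ℤ (𝓞 k)) (hr : 2 ≤ r)
    (hm : ∀ i, 1 ≤ m i) (hn : ∀ l, 1 ≤ n l) (i0 : Fin s) (hi0 : m i0 ≠ 2) :
    D0 {x : Ix r m n × J → ℤ | ¬ (InertIn (polA (aV (kv B x))) (polP (bV (kv B x)))
      (∏ l, polA (dV (kv B x) l)) ∧ ∀ D, InertIn (polA (aV (kv B x))) (polP (bV (kv B x))) D →
        TateTD k' K F (polA (aV (kv B x))) (polP (bV (kv B x))) D)} := by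
  classical
  obtain ⟨j0⟩ : Nonempty J := by
    rw [← Fintype.card_pos_iff, card_J B]
    exact Module.finrank_pos
  set T : Finset (Finset (Fin s)) := Finset.univ.filter fun S => S ≠ ∅ ∧ S ≠ Finset.univ with hTT
  have h2 : D0 (⋃ l ∈ (Finset.univ : Finset (Fin u)), {x : Ix r m n × J → ℤ |
      MvPolynomial.eval x (MvPolynomial.X (Sum.inr ⟨l, Fin.last (n l)⟩, j0)) = 0}) :=
    D0.biUnion _ _ fun l _ => zero _ (MvPolynomial.X_ne_zero _)
  have h3 := dens_bb (n := n) (r := r) B hm i0 hi0 j0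
  have h4 := dens_disc (n := n) B hr hm i0
  have h5 : D0 (⋃ l ∈ (Finset.univ : Finset (Fin u)),
      RootSq B (polA (dV (XX r m n) l)) (polP (bV (XX r m n))) (n l)) :=
    D0.biUnion _ _ fun l _ => dens_DP B l (hn l) i0 (hm i0)
  have h6 : D0 (⋃ l ∈ (Finset.univ : Finset (Fin u)),
      RootSq B (polA (dV (XX r m n) l)) (polE (aV (XX r m n)) (bV (XX r m n))) (n l)) :=
    D0.biUnion _ _ fun l _ => dens_DE B l (hn l) i0 (hm i0)
  have h7 : D0 (⋃ S ∈ T, NoObs B r m n S) :=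
    D0.biUnion _ _ fun S hS => by
      rw [hTT, Finset.mem_filter] at hS
      exact dens_S B hr hm hS.2.1 hS.2.2
  have hall := ((((h2.union h3).union h4).union h5).union h6).union h7
  intro ε hε
  refine (hall ε hε).mono ?_
  intro x hx
  by_contra hcon
  apply hx
  simp only [Set.mem_union, not_or, Set.mem_iUnion, exists_prop, not_exists, not_and,
    Finset.mem_univ, forall_true_left] at hcon
  obtain ⟨⟨⟨⟨⟨c2, c3⟩, c4⟩, c5⟩, c6⟩, c7⟩ := hcon
  obtain ⟨hq, hNb⟩ : (∀ i, Irreducible (polA (bV (kv B x) i))) ∧ NotNorm (polP (bV (kv B x))) := by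
    by_contra h
    exact c3 fun h1 h2 => h ⟨h1, h2⟩
  obtain ⟨hirr, hNd⟩ : Irreducible (polE (aV (kv B x)) (bV (kv B x))) ∧
      NotNorm (polE (aV (kv B x)) (bV (kv B x))) := by
    by_contra h
    exact c4 fun h1 h2 => h ⟨h1, h2⟩
  have hdl : ∀ l, IsUnit (dV (kv B x) l (Fin.last (n l))) := by
    intro l
    refine isUnit_iff_ne_zero.2 (kv_ne B (j := j0) ?_)
    intro h0
    apply c2 l
    show MvPolynomial.eval x (MvPolynomial.X _) = 0
    rw [MvPolynomial.eval_X]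
    exact h0
  have hDl : ∀ l, polA (dV (kv B x) l) ≠ 0 := by
    intro l h0
    have h8 := (lead_polA (hdl l)).2
    rw [h0, leadingCoeff_zero] at h8
    exact (hdl l).ne_zero h8.symm
  refine ⟨⟨Finset.prod_ne_zero_iff.2 fun l _ => hDl l, ?_⟩, fun D hD =>
    tateTD_of hT hq hirr hNb hNd ?_ hD⟩
  swap
  · -- the obstruction
    intro S h0 h1 ε' hε' hs
    have h8 := c7 S (by rw [hTT, Finset.mem_filter]; exact ⟨Finset.mem_univ _, h0, h1⟩)
    simp only [NoObs, Set.mem_setOf_eq, not_forall, not_not] at h8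
    obtain ⟨p, hp, h7', P, hP1, hP2, hP3, hO⟩ := h8
    haveI := hP1
    haveI : NeZero p := ⟨hp.ne_zero⟩
    have key : ∀ i : IdxG r m, Ideal.Quotient.mk P (elt B fun t =>
        ((((x (Sum.inl i, t) : ℤ) : ZMod p)).val : ℤ)) =
        Ideal.Quotient.mk P (elt B fun t => x (Sum.inl i, t)) := by
      intro i
      refine mk_elt B hP3 fun t => ?_
      rw [Int.cast_natCast, ZMod.natCast_val, ZMod.cast_id', id]
    have hO' : ObsG S (fun j => Ideal.Quotient.mk P (elt B fun t => x (Sum.inl (Sum.inl j), t)))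
        (fun i j => Ideal.Quotient.mk P (elt B fun t => x (Sum.inl (Sum.inr ⟨i, j⟩), t))) := by
      simp only [key] at hO
      exact hO
    exact ObsG.not_splits P hP2 hO' hε' hs
  · -- the primes of the twist
    intro π hπ hdv r'
    obtain ⟨l, -, hl⟩ := (hπ.prime.dvd_finsetProd_iff _).1 hdv
    have hdeg : π.natDegree ≤ n l :=
      (natDegree_le_of_dvd hl (hDl l)).trans (polA_natDegree _)
    constructor
    · have h8 := not_rootSq B (c5 l) hπ hdeg (by rw [map_d]; exact hl) r'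
      rw [map_P] at h8
      exact h8
    · have h8 := not_rootSq B (c6 l) hπ hdeg (by rw [map_d]; exact hl) r'
      rw [map_E] at h8
      exact h8

/-- **Almost all surfaces**, in terms of the coordinates. -/
theorem main_all [NumberField k] (hT : IsTower k k' K F) (B : Module.Basis J ℤ (𝓞 k)) (hr : 2 ≤ r)
    (hm : ∀ i, 1 ≤ m i) (hn : ∀ l, 1 ≤ n l) (i0 : Fin s) (hi0 : m i0 ≠ 2) :
    D0 {x : Ix r m n × J → ℤ | ¬ TateTD k' K F (polA (aV (kv B x))) (polP (bV (kv B x)))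
      (∏ l, polA (dV (kv B x) l))} := by
  intro ε hε
  refine (main_allI (n := n) hT B hr hm hn i0 hi0 ε hε).mono ?_
  intro x hx h
  exact hx (h.2 _ h.1)

/-- The number of the coefficients of `a`, the `b i` and the `D l`. -/
theorem card_Ix (r : ℕ) {s : ℕ} (m : Fin s → ℕ) {u : ℕ} (n : Fin u → ℕ) :
    Fintype.card (Ix r m n) = r + 1 + ∑ i, (m i + 1) + ∑ l, (n l + 1) := by
  simp [Ix, IdxG]

/-- **Almost all surfaces.** -/
theorem almost_all [NumberField k] (hT : IsTower k k' K F) (B : Module.Basis J ℤ (𝓞 k))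
    (hr : 2 ≤ r) (hm : ∀ i, 1 ≤ m i) (hn : ∀ l, 1 ≤ n l) (h2 : ∃ i, m i ≠ 2) {η : ℝ} (hη : 0 < η) :
    ∃ H0 : ℕ, ∀ H : ℕ, H0 ≤ H →
    (({x : (Fin (r + 1) → 𝓞 k) × ((i : Fin s) → Fin (m i + 1) → 𝓞 k) ×
        ((l : Fin u) → Fin (n l + 1) → 𝓞 k) |
      ((∀ j t, |B.repr (x.1 j) t| ≤ (H : ℤ)) ∧ (∀ i j t, |B.repr (x.2.1 i j) t| ≤ (H : ℤ)) ∧
        ∀ l j t, |B.repr (x.2.2 l j) t| ≤ (H : ℤ)) ∧
      ¬ TateTD k' K F (polA fun j => algebraMap (𝓞 k) k (x.1 j))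
        (polP fun i j => algebraMap (𝓞 k) k (x.2.1 i j))
        (∏ l, polA fun j => algebraMap (𝓞 k) k (x.2.2 l j))}.ncard : ℕ) : ℝ) ≤
      η * (2 * H + 1) ^ (Fintype.card J * (r + 1 + ∑ i, (m i + 1) + ∑ l, (n l + 1))) := by
  classical
  obtain ⟨i0, hi0⟩ := h2
  obtain ⟨H0, hH⟩ := main_all (n := n) (r := r) hT B hr hm hn i0 hi0 η hη
  refine ⟨H0, fun H hHH => ?_⟩
  have h1 := hH H hHH
  have hcard : Fintype.card (Ix r m n × J) =
      Fintype.card J * (r + 1 + ∑ i, (m i + 1) + ∑ l, (n l + 1)) := by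
    rw [Fintype.card_prod, card_Ix, Nat.mul_comm]
  rw [hcard] at h1
  refine le_trans ?_ h1
  let φ : ((Fin (r + 1) → 𝓞 k) × ((i : Fin s) → Fin (m i + 1) → 𝓞 k) ×
        ((l : Fin u) → Fin (n l + 1) → 𝓞 k)) → (Ix r m n × J → ℤ) := fun y o =>
    B.repr ((mk y.1 y.2.1 y.2.2 : Ix r m n → 𝓞 k) o.1) o.2
  have hkv : ∀ y (o : Ix r m n), kv B (φ y) o =
      algebraMap (𝓞 k) k ((mk y.1 y.2.1 y.2.2 : Ix r m n → 𝓞 k) o) := by
    intro y o
    show algebraMap (𝓞 k) k (elt B fun j => B.repr ((mk y.1 y.2.1 y.2.2 : Ix r m n → 𝓞 k) o) j) = _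
    rw [← basis_elt B]
  have hinj : Function.Injective φ := by
    intro y z hyz
    have h3 : ∀ o : Ix r m n, (mk y.1 y.2.1 y.2.2 : Ix r m n → 𝓞 k) o = mk z.1 z.2.1 z.2.2 o := by
      intro o
      apply FaithfulSMul.algebraMap_injective (𝓞 k) k
      rw [← hkv, ← hkv, hyz]
    refine Prod.ext ?_ (Prod.ext ?_ ?_)
    · funext j
      exact h3 (Sum.inl (Sum.inl j))
    · funext i j
      exact h3 (Sum.inl (Sum.inr ⟨i, j⟩))
    · funext l j
      exact h3 (Sum.inr ⟨l, j⟩)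
  have h4 : (Set.ncard {x : (Fin (r + 1) → 𝓞 k) × ((i : Fin s) → Fin (m i + 1) → 𝓞 k) ×
        ((l : Fin u) → Fin (n l + 1) → 𝓞 k) |
      ((∀ j t, |B.repr (x.1 j) t| ≤ (H : ℤ)) ∧ (∀ i j t, |B.repr (x.2.1 i j) t| ≤ (H : ℤ)) ∧
        ∀ l j t, |B.repr (x.2.2 l j) t| ≤ (H : ℤ)) ∧
      ¬ TateTD k' K F (polA fun j => algebraMap (𝓞 k) k (x.1 j))
        (polP fun i j => algebraMap (𝓞 k) k (x.2.1 i j))
        (∏ l, polA fun j => algebraMap (𝓞 k) k (x.2.2 l j))}) ≤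
      Set.ncard {v : Ix r m n × J → ℤ | v ∈ {x : Ix r m n × J → ℤ | ¬ TateTD k' K F
        (polA (aV (kv B x))) (polP (bV (kv B x))) (∏ l, polA (dV (kv B x) l))} ∧
        ∀ i, |v i| ≤ (H : ℤ)} := by
    rw [← Set.ncard_image_of_injective _ hinj]
    refine Set.ncard_le_ncard ?_ (box_fin _ H)
    rintro _ ⟨y, ⟨⟨b1, b2, b3⟩, hbad⟩, rfl⟩
    have ea : aV (kv B (φ y)) = fun j => algebraMap (𝓞 k) k (y.1 j) := by
      funext j
      exact hkv y (Sum.inl (Sum.inl j))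
    have eb : bV (kv B (φ y)) = fun i j => algebraMap (𝓞 k) k (y.2.1 i j) := by
      funext i j
      exact hkv y (Sum.inl (Sum.inr ⟨i, j⟩))
    have ed : dV (kv B (φ y)) = fun l j => algebraMap (𝓞 k) k (y.2.2 l j) := by
      funext l j
      exact hkv y (Sum.inr ⟨l, j⟩)
    refine ⟨?_, ?_⟩
    · rw [Set.mem_setOf_eq, ea, eb, ed]
      exact hbad
    · rintro ⟨(j | ⟨i, j⟩) | ⟨l, j⟩, t⟩
      · exact b1 j t
      · exact b2 i j t
      · exact b3 l j t
  exact_mod_cast h4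

/-- **Almost all surfaces**: all the twists by products of inert primes. -/
theorem almost_allI [NumberField k] (hT : IsTower k k' K F) (B : Module.Basis J ℤ (𝓞 k))
    (hr : 2 ≤ r) (hm : ∀ i, 1 ≤ m i) (h2 : ∃ i, m i ≠ 2) {η : ℝ} (hη : 0 < η) :
    ∃ H0 : ℕ, ∀ H : ℕ, H0 ≤ H →
    (({x : (Fin (r + 1) → 𝓞 k) × ((i : Fin s) → Fin (m i + 1) → 𝓞 k) |
      ((∀ j t, |B.repr (x.1 j) t| ≤ (H : ℤ)) ∧ ∀ i j t, |B.repr (x.2 i j) t| ≤ (H : ℤ)) ∧
      ¬ ∀ D : k[X], InertIn (polA fun j => algebraMap (𝓞 k) k (x.1 j))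
          (polP fun i j => algebraMap (𝓞 k) k (x.2 i j)) D →
        TateTD k' K F (polA fun j => algebraMap (𝓞 k) k (x.1 j))
          (polP fun i j => algebraMap (𝓞 k) k (x.2 i j)) D}.ncard : ℕ) : ℝ) ≤
      η * (2 * H + 1) ^ (Fintype.card J * (r + 1 + ∑ i, (m i + 1))) := by
  classical
  obtain ⟨i0, hi0⟩ := h2
  set n : Fin 0 → ℕ := fun _ => 0 with hn
  obtain ⟨H0, hH⟩ := main_allI (n := n) (r := r) hT B hr hm (fun l => l.elim0) i0 hi0 η hη
  refine ⟨H0, fun H hHH => ?_⟩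
  have h1 := hH H hHH
  have hcard : Fintype.card (Ix r m n × J) =
      Fintype.card J * (r + 1 + ∑ i, (m i + 1)) := by
    rw [Fintype.card_prod, card_Ix, Nat.mul_comm]
    simp
  rw [hcard] at h1
  refine le_trans ?_ h1
  let φ : ((Fin (r + 1) → 𝓞 k) × ((i : Fin s) → Fin (m i + 1) → 𝓞 k)) →
      (Ix r m n × J → ℤ) := fun y o =>
    B.repr ((mk y.1 y.2 (fun _ _ => 0) : Ix r m n → 𝓞 k) o.1) o.2
  have hkv : ∀ y (o : Ix r m n), kv B (φ y) o =
      algebraMap (𝓞 k) k ((mk y.1 y.2 (fun _ _ => 0) : Ix r m n → 𝓞 k) o) := by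
    intro y o
    show algebraMap (𝓞 k) k (elt B fun j =>
      B.repr ((mk y.1 y.2 (fun _ _ => 0) : Ix r m n → 𝓞 k) o) j) = _
    rw [← basis_elt B]
  have hinj : Function.Injective φ := by
    intro y z hyz
    have h3 : ∀ o : Ix r m n, (mk y.1 y.2 (fun _ _ => 0) : Ix r m n → 𝓞 k) o =
        mk z.1 z.2 (fun _ _ => 0) o := by
      intro o
      apply FaithfulSMul.algebraMap_injective (𝓞 k) k
      rw [← hkv, ← hkv, hyz]
    refine Prod.ext ?_ ?_
    · funext j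
      exact h3 (Sum.inl (Sum.inl j))
    · funext i j
      exact h3 (Sum.inl (Sum.inr ⟨i, j⟩))
  have h4 : (Set.ncard {x : (Fin (r + 1) → 𝓞 k) × ((i : Fin s) → Fin (m i + 1) → 𝓞 k) |
      ((∀ j t, |B.repr (x.1 j) t| ≤ (H : ℤ)) ∧ ∀ i j t, |B.repr (x.2 i j) t| ≤ (H : ℤ)) ∧
      ¬ ∀ D : k[X], InertIn (polA fun j => algebraMap (𝓞 k) k (x.1 j))
          (polP fun i j => algebraMap (𝓞 k) k (x.2 i j)) D →
        TateTD k' K F (polA fun j => algebraMap (𝓞 k) k (x.1 j))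
          (polP fun i j => algebraMap (𝓞 k) k (x.2 i j)) D}) ≤
      Set.ncard {v : Ix r m n × J → ℤ | v ∈ {x : Ix r m n × J → ℤ |
        ¬ (InertIn (polA (aV (kv B x))) (polP (bV (kv B x))) (∏ l, polA (dV (kv B x) l)) ∧
          ∀ D, InertIn (polA (aV (kv B x))) (polP (bV (kv B x))) D →
          TateTD k' K F (polA (aV (kv B x))) (polP (bV (kv B x))) D)} ∧
        ∀ i, |v i| ≤ (H : ℤ)} := by
    rw [← Set.ncard_image_of_injective _ hinj]
    refine Set.ncard_le_ncard ?_ (box_fin _ H)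
    rintro _ ⟨y, ⟨⟨b1, b2⟩, hbad⟩, rfl⟩
    have ea : aV (kv B (φ y)) = fun j => algebraMap (𝓞 k) k (y.1 j) := by
      funext j
      exact hkv y (Sum.inl (Sum.inl j))
    have eb : bV (kv B (φ y)) = fun i j => algebraMap (𝓞 k) k (y.2 i j) := by
      funext i j
      exact hkv y (Sum.inl (Sum.inr ⟨i, j⟩))
    refine ⟨?_, ?_⟩
    · rw [Set.mem_setOf_eq, ea, eb]
      exact fun h => hbad h.2
    · rintro ⟨(j | ⟨i, j⟩) | ⟨l, j⟩, t⟩
      · exact b1 j t
      · exact b2 i j t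
      · exact l.elim0
  exact_mod_cast h4

end main

end Pool.Agent.R939.HI
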