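import Pool.Agent.R939.HI.Padic
import Pool.Agent.R939.HI.Main

/-!
# Almost all quadratic twists of a fixed elliptic curve
-/

set_option autoImplicit false
set_option linter.all false

namespace Pool.Agent.R939.HI

open Polynomial NumberField Pool.Agent.R939.EI Pool.Agent.W275.UB Pool.Agent.TH115.GD

theorem polA_of {R : Type} [CommRing R] {g : R[X]} {n : ℕ} (h : g.natDegree ≤ n) :
    polA (fun j : Fin (n + 1) => g.coeff j) = g := by
  unfold polA
  rw [Fin.sum_univ_eq_sum_range (fun j => C (g.coeff j) * X ^ j) (n + 1)]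
  conv_rhs => rw [g.as_sum_range_C_mul_X_pow' (by omega : g.natDegree < n + 1)]

section dvr

variable {A : Type} [CommRing A] [IsDomain A] [IsDiscreteValuationRing A]
  {K : Type} [Field K] [Algebra A K] [IsFractionRing A K]

theorem no_sqrt_odd {π u : A} (hπ : Irreducible π) (hu : IsUnit u) {m : ℕ} {w : K}
    (h : w ^ 2 = algebraMap A K (u * π ^ (2 * m + 1))) : False := by
  have hint : IsIntegral A w := by
    have h1 : IsIntegral A (w ^ 2) := by rw [h]; exact isIntegral_algebraMap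
    exact h1.of_pow (by norm_num)
  obtain ⟨y, rfl⟩ := IsIntegrallyClosed.isIntegral_iff.1 hint
  rw [← map_pow] at h
  have h2 : y ^ 2 = u * π ^ (2 * m + 1) := IsFractionRing.injective A K h
  have hy : y ≠ 0 := by
    rintro rfl
    rw [zero_pow two_ne_zero] at h2
    exact mul_ne_zero hu.ne_zero (pow_ne_zero _ hπ.ne_zero) h2.symm
  obtain ⟨a, v, hv⟩ := IsDiscreteValuationRing.eq_unit_mul_pow_irreducible hy hπ
  have h3 : (v : A) ^ 2 * π ^ (a * 2) = u * π ^ (2 * m + 1) := by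
    rw [← h2, hv, mul_pow, ← pow_mul]
  have := exp_eq hπ (v.isUnit.pow 2) hu h3
  omega

theorem polA_near {n : ℕ} {b c : Fin (n + 1) → A} {q : A} (h : ∀ j, q ∣ b j - c j) (θ : A) :
    ∃ s, (polA b).eval θ = (polA c).eval θ + q * s := by
  choose s hs using h
  refine ⟨∑ j, s j * θ ^ (j : ℕ), ?_⟩
  rw [eval_polA, eval_polA, Finset.mul_sum, ← Finset.sum_add_distrib]
  refine Finset.sum_congr rfl fun j _ => ?_
  linear_combination (θ ^ (j : ℕ)) * hs j

end dvr

section dens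

variable {O J : Type} [CommRing O] [IsDomain O] [Fintype J] (ω : Module.Basis J ℤ O)
  {u : ℕ} {n : Fin u → ℕ}

/-- the parameters such that `Q` is a square at a root of `D l` of small degree -/
def FixSq (n : Fin u → ℕ) (l : Fin u) (Q : O[X]) : Set ((Σ l : Fin u, Fin (n l + 1)) × J → ℤ) :=
  {x | ∃ (K : Type) (_ : Field K) (_ : NumberField K) (σ : O →+* K) (θ w : K),
      Module.finrank ℚ K ≤ n l * Fintype.card J ∧
      (polA fun j => (MvPolynomial.X (⟨l, j⟩ : Σ l : Fin u, Fin (n l + 1)) :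
        MvPolynomial (Σ l : Fin u, Fin (n l + 1)) ℤ)).eval₂
        (av (cv (fun j => σ (ω j)) fun q => (x q : K))) θ = 0 ∧
      w ^ 2 = Q.eval₂ σ θ}

theorem dens_fix (l : Fin u) (hn : 1 ≤ n l) (Q : O[X]) (p : ℕ) [Fact p.Prime] (σ₀ : O →+* ℤ_[p])
    (ρ : ℤ_[p]) (m : ℕ) (G : ℤ_[p][X]) (hQ : Q.map σ₀ = (X - C ρ) ^ (2 * m + 1) * G)
    (hG : IsUnit (G.eval ρ)) : D0 (FixSq ω n l Q) := by
  have hP0 : (polA fun j => (MvPolynomial.X (⟨l, j⟩ : Σ l : Fin u, Fin (n l + 1)) :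
        MvPolynomial (Σ l : Fin u, Fin (n l + 1)) ℤ)) ≠ 0 := polA_X_ne _
  refine rootsQ ω _ Q hP0 (n l) p σ₀
    (fun i => ((X - C ρ) ^ (n i.1) + C (p : ℤ_[p])).coeff (i.2 : ℕ)) 2 ?_
  intro K' _ A _ _ _ _ _ π τ hπ hπp hπN b hb θ w hθ hw
  have hp0 : (p : A) ≠ 0 := p_ne hπN
  set g : ℤ_[p][X] := (X - C ρ) ^ (n l) + C (p : ℤ_[p]) with hg
  have hgd : g.natDegree ≤ n l := by
    refine (natDegree_add_le _ _).trans (max_le ?_ ?_)
    · rw [natDegree_pow, natDegree_X_sub_C, mul_one]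
    · rw [natDegree_C]
      exact Nat.zero_le _
  have hgl : g.coeff (n l) = 1 := by
    have h1 : ((X - C ρ) ^ (n l)).Monic := (monic_X_sub_C ρ).pow _
    have h2 : ((X - C ρ) ^ (n l)).natDegree = n l := by
      rw [natDegree_pow, natDegree_X_sub_C, mul_one]
    rw [hg, coeff_add, coeff_C, if_neg (by omega), add_zero]
    have h3 : ((X - C ρ) ^ (n l)).coeff ((X - C ρ) ^ (n l)).natDegree = 1 := h1
    rwa [h2] at h3
  have hbl : ∀ j : Fin (n l + 1), (p : A) ^ 2 ∣ b ⟨l, j⟩ - τ (g.coeff j) := fun j => hb ⟨l, j⟩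
  have hlead : IsUnit (b ⟨l, Fin.last (n l)⟩) := by
    have h1 := hbl (Fin.last (n l))
    rw [Fin.val_last, hgl, map_one] at h1
    have h2 := unit_add hπ isUnit_one ((hπp.trans (dvd_pow_self _ two_ne_zero)).trans h1)
    rwa [add_sub_cancel] at h2
  have hmap : (polA fun j => (MvPolynomial.X (⟨l, j⟩ : Σ l : Fin u, Fin (n l + 1)) :
        MvPolynomial (Σ l : Fin u, Fin (n l + 1)) ℤ)).map (av fun i => algebraMap A K' (b i)) =
      (polA fun j => b ⟨l, j⟩).map (algebraMap A K') := by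
    rw [polA_map, polA_map]
    simp only [av_X]
  rw [← eval_map, hmap] at hθ
  obtain ⟨θ₀, hθ₀, h0⟩ := int_root (f := polA fun j => b ⟨l, j⟩)
    (by rw [(lead_polA (c := fun j => b ⟨l, j⟩) hlead).2]; exact hlead) hθ
  obtain ⟨s, hs⟩ := polA_near (b := fun j => b ⟨l, j⟩) (c := fun j => τ (g.coeff j)) hbl θ₀
  have hgτ : polA (fun j : Fin (n l + 1) => τ (g.coeff j)) =
      (X - C (τ ρ)) ^ (n l) + C (p : A) := by
    rw [← polA_map, polA_of hgd, hg, Polynomial.map_add, Polynomial.map_pow, Polynomial.map_sub,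
      map_X, map_C, map_C, map_natCast]
  rw [h0, hgτ, eval_add, eval_pow, eval_sub, eval_X, eval_C, eval_C] at hs
  obtain ⟨e, c, u', v, hu, hv, hec, hc⟩ := val_root (k := 1) (x := 1) (y := 1) hπ hn le_rfl hp0 hπp
    isUnit_one isUnit_one (θ := θ₀ - τ ρ) (s := s) (by
      rw [pow_one, one_mul, mul_one]
      linear_combination -hs)
  have hc1 : c = 1 := by
    rw [hu, pow_dvd_unit hπ] at hπN
    by_contra hne
    have h1 : n l * 2 ≤ n l * c := Nat.mul_le_mul_left _ (by omega)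
    omega
  rw [hc1, pow_one] at hv
  -- the value of `Q`
  have hval : Q.eval₂ ((algebraMap A K').comp (τ.comp σ₀)) θ =
      algebraMap A K' ((v : A) ^ (2 * m + 1) * (G.map τ).eval θ₀ * π ^ (2 * m + 1)) := by
    rw [← hθ₀, ← Polynomial.eval₂_map, ← eval_map (p := Q.map (τ.comp σ₀)), eval_map,
      eval₂_at_apply, ← Polynomial.map_map, hQ, Polynomial.map_mul, Polynomial.map_pow,
      Polynomial.map_sub, map_X, map_C, eval_mul, eval_pow, eval_sub, eval_X, eval_C, hv]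
    congr 1
    ring
  have hU : IsUnit ((G.map τ).eval θ₀) := by
    have h1 : θ₀ - τ ρ ∣ (G.map τ).eval θ₀ - (G.map τ).eval (τ ρ) := sub_dvd_eval_sub _ _ _
    have h2 : (G.map τ).eval (τ ρ) = τ (G.eval ρ) := by
      rw [eval_map, eval₂_at_apply]
    have h3 : IsUnit (τ (G.eval ρ)) := hG.map τ
    have h4 : π ∣ (G.map τ).eval θ₀ - τ (G.eval ρ) := by
      rw [← h2]
      exact (Dvd.intro_left (v : A) hv.symm).trans h1
    have h5 := unit_add hπ h3 h4
    rwa [add_sub_cancel] at h5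
  rw [hval] at hw
  exact no_sqrt_odd hπ ((v.isUnit.pow _).mul hU) hw

end dens

section nf

variable {k : Type} [Field k] [NumberField k] {J : Type} [Fintype J] (ω : Module.Basis J ℤ (𝓞 k))
  {u : ℕ} {n : Fin u → ℕ}

theorem not_fixSq {l : Fin u} {Q : (𝓞 k)[X]} {c : k} {f : k[X]} (hc : c ≠ 0)
    (hQ : Q.map (algebraMap (𝓞 k) k) = C (c ^ 2) * f)
    {x : (Σ l : Fin u, Fin (n l + 1)) × J → ℤ} (hx : x ∉ FixSq ω n l Q) {π : k[X]}
    (hπ : Irreducible π) (hN : π.natDegree ≤ n l) (hP : π ∣ polA fun j => kv ω x ⟨l, j⟩)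
    (r : k[X]) : ¬ π ∣ f - r ^ 2 := by
  intro hd
  apply hx
  haveI : Fact (Irreducible π) := ⟨hπ⟩
  let K := AdjoinRoot π
  haveI : FiniteDimensional k K := (AdjoinRoot.powerBasis hπ.ne_zero).finite
  haveI : CharZero K := charZero_of_injective_algebraMap (algebraMap k K).injective
  haveI : IsScalarTower ℚ k K := IsScalarTower.of_algebraMap_eq fun q => by simp
  haveI : FiniteDimensional ℚ K := FiniteDimensional.trans ℚ k K
  haveI : NumberField K := { to_charZero := inferInstance, to_finiteDimensional := inferInstance }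
  refine ⟨K, inferInstance, inferInstance, (algebraMap k K).comp (algebraMap (𝓞 k) k),
    AdjoinRoot.root π, algebraMap k K c * AdjoinRoot.mk π r, ?_, ?_, ?_⟩
  · rw [← Module.finrank_mul_finrank ℚ k K, card_J ω, mul_comm]
    refine Nat.mul_le_mul_right _ ?_
    have : Module.finrank k K = π.natDegree := by
      rw [(AdjoinRoot.powerBasis hπ.ne_zero).finrank, AdjoinRoot.powerBasis_dim]
    rw [this]
    exact hN
  · rw [cv_kv, ← hom_av, ← eval₂_map, polA_map]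
    simp only [av_X]
    have h1 := AdjoinRoot.mk_eq_zero.2 hP
    rw [← AdjoinRoot.aeval_eq, aeval_def] at h1
    exact h1
  · rw [← eval₂_map, hQ, eval₂_mul, eval₂_C, mul_pow, map_pow]
    congr 1
    have h1 := AdjoinRoot.mk_eq_mk.2 hd
    rw [← map_pow, ← h1, ← AdjoinRoot.aeval_eq, aeval_def]

/-- **Almost all twists are by inert primes.** -/
theorem dens_inert {a b : k[X]} (hb : ∀ (c : k) (g : k[X]), b ≠ C c * g ^ 2)
    (hd : ∀ (c : k) (g : k[X]), a ^ 2 - 4 * b ≠ C c * g ^ 2) (hn : ∀ l, 1 ≤ n l) :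
    D0 {x : (Σ l : Fin u, Fin (n l + 1)) × J → ℤ |
      ¬ InertIn a b (∏ l, polA fun j => kv ω x ⟨l, j⟩)} := by
  classical
  have hb0 : b ≠ 0 := fun h => hb 0 0 (by rw [h]; simp)
  have hd0 : a ^ 2 - 4 * b ≠ 0 := fun h => hd 0 0 (by rw [h]; simp)
  obtain ⟨j0⟩ : Nonempty J := by
    rw [← Fintype.card_pos_iff, card_J ω]
    exact Module.finrank_pos
  obtain ⟨Q1, c1, hc1, hQ1, p1, i1, -, σ1, ρ1, m1, G1, e1, u1⟩ := padic_root ω hb0 hb
  obtain ⟨Q2, c2, hc2, hQ2, p2, i2, -, σ2, ρ2, m2, G2, e2, u2⟩ := padic_root ω hd0 hd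
  have h1 : D0 (⋃ l ∈ (Finset.univ : Finset (Fin u)), FixSq ω n l Q1) :=
    D0.biUnion _ _ fun l _ => dens_fix ω l (hn l) Q1 p1 σ1 ρ1 m1 G1 e1 u1
  have h2 : D0 (⋃ l ∈ (Finset.univ : Finset (Fin u)), FixSq ω n l Q2) :=
    D0.biUnion _ _ fun l _ => dens_fix ω l (hn l) Q2 p2 σ2 ρ2 m2 G2 e2 u2
  have h3 : D0 (⋃ l ∈ (Finset.univ : Finset (Fin u)),
      {x : (Σ l : Fin u, Fin (n l + 1)) × J → ℤ |
      MvPolynomial.eval x (MvPolynomial.X (⟨l, Fin.last (n l)⟩, j0)) = 0}) :=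
    D0.biUnion _ _ fun l _ => zero _ (MvPolynomial.X_ne_zero _)
  intro ε hε
  refine (((h1.union h2).union h3) ε hε).mono ?_
  intro x hx
  by_contra hcon
  apply hx
  simp only [Set.mem_union, not_or, Set.mem_iUnion, exists_prop, not_exists, not_and,
    Finset.mem_univ, forall_true_left] at hcon
  obtain ⟨⟨k1, k2⟩, k3⟩ := hcon
  have hdl : ∀ l, IsUnit (kv ω x ⟨l, Fin.last (n l)⟩) := by
    intro l
    refine isUnit_iff_ne_zero.2 (kv_ne ω (j := j0) ?_)
    intro h0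
    apply k3 l
    show MvPolynomial.eval x (MvPolynomial.X _) = 0
    rw [MvPolynomial.eval_X]
    exact h0
  have hDl : ∀ l, (polA fun j => kv ω x ⟨l, j⟩) ≠ 0 := by
    intro l h0
    have h8 := (lead_polA (c := fun j => kv ω x ⟨l, j⟩) (hdl l)).2
    rw [h0, leadingCoeff_zero] at h8
    exact (hdl l).ne_zero h8.symm
  refine ⟨Finset.prod_ne_zero_iff.2 fun l _ => hDl l, ?_⟩
  intro π hπ hdv r
  obtain ⟨l, -, hl⟩ := (hπ.prime.dvd_finsetProd_iff _).1 hdv
  have hdeg : π.natDegree ≤ n l :=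
    (natDegree_le_of_dvd hl (hDl l)).trans (polA_natDegree _)
  exact ⟨not_fixSq ω hc1 hQ1 (k1 l) hπ hdeg hl r, not_fixSq ω hc2 hQ2 (k2 l) hπ hdeg hl r⟩

end nf

section main

variable {k k' K F : Type} [Field k] [Field k'] [Algebra k k'] [Field K] [Algebra k[X] K]
    [Field F] [Algebra k'[X] F] [IsFractionRing k'[X] F] [Algebra K F]

/-- a polynomial which is not a constant times a square, from `NotNorm` -/
theorem ne_sq_of_notNorm {f : k[X]} (h : NotNorm f) (c : k) (g : k[X]) : f ≠ C c * g ^ 2 := by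
  intro e
  exact (h c 1 g 0 (by rw [e]; ring)).1 rfl

/-- **Almost all twists of a fixed elliptic curve.** -/
theorem fixed_twists [NumberField k] (hT : IsTower k k' K F) {J : Type} [Fintype J]
    (B : Module.Basis J ℤ (𝓞 k)) {a b : k[X]} (hNb : NotNorm b) (hNd : NotNorm (a ^ 2 - 4 * b))
    (hO : OnlyTrivial a b) (hO' : OnlyTrivial (-2 * a) (a ^ 2 - 4 * b)) {u : ℕ} {n : Fin u → ℕ}
    (hn : ∀ l, 1 ≤ n l) {η : ℝ} (hη : 0 < η) :
    ∃ H0 : ℕ, ∀ H : ℕ, H0 ≤ H →
      (({x : (l : Fin u) → Fin (n l + 1) → 𝓞 k | (∀ l j t, |B.repr (x l j) t| ≤ (H : ℤ)) ∧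
        ¬ TateTD k' K F a b (∏ l, polA fun j => algebraMap (𝓞 k) k (x l j))}.ncard : ℕ) : ℝ) ≤
        η * (2 * H + 1) ^ (Fintype.card J * ∑ l, (n l + 1)) := by
  classical
  have hb := ne_sq_of_notNorm hNb
  have hd := ne_sq_of_notNorm hNd
  have hb0 : b ≠ 0 := fun h => hb 0 0 (by rw [h]; simp)
  have hd0 : a ^ 2 - 4 * b ≠ 0 := fun h => hd 0 0 (by rw [h]; simp)
  obtain ⟨H0, hH⟩ := dens_inert B hb hd hn η hη
  refine ⟨H0, fun H hHH => ?_⟩
  have h1 := hH H hHH
  have hcard : Fintype.card ((Σ l : Fin u, Fin (n l + 1)) × J) =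
      Fintype.card J * ∑ l, (n l + 1) := by
    rw [Fintype.card_prod, Fintype.card_sigma, Nat.mul_comm]
    simp
  rw [hcard] at h1
  refine le_trans ?_ h1
  let φ : ((l : Fin u) → Fin (n l + 1) → 𝓞 k) → ((Σ l : Fin u, Fin (n l + 1)) × J → ℤ) :=
    fun y o => B.repr (y o.1.1 o.1.2) o.2
  have hkv : ∀ y (o : Σ l : Fin u, Fin (n l + 1)), kv B (φ y) o =
      algebraMap (𝓞 k) k (y o.1 o.2) := by
    intro y o
    show algebraMap (𝓞 k) k (elt B fun j => B.repr (y o.1 o.2) j) = _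
    rw [← basis_elt B]
  have hinj : Function.Injective φ := by
    intro y z hyz
    funext l j
    apply FaithfulSMul.algebraMap_injective (𝓞 k) k
    have h3 := hkv y ⟨l, j⟩
    rw [hyz, hkv z ⟨l, j⟩] at h3
    exact h3.symm
  have h4 : (Set.ncard {x : (l : Fin u) → Fin (n l + 1) → 𝓞 k |
      (∀ l j t, |B.repr (x l j) t| ≤ (H : ℤ)) ∧
        ¬ TateTD k' K F a b (∏ l, polA fun j => algebraMap (𝓞 k) k (x l j))}) ≤
      Set.ncard {v : (Σ l : Fin u, Fin (n l + 1)) × J → ℤ |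
        v ∈ {x : (Σ l : Fin u, Fin (n l + 1)) × J → ℤ |
          ¬ InertIn a b (∏ l, polA fun j => kv B x ⟨l, j⟩)} ∧ ∀ i, |v i| ≤ (H : ℤ)} := by
    rw [← Set.ncard_image_of_injective _ hinj]
    refine Set.ncard_le_ncard ?_ (box_fin _ H)
    rintro _ ⟨y, ⟨b1, hbad⟩, rfl⟩
    refine ⟨?_, ?_⟩
    · rw [Set.mem_setOf_eq]
      intro hin
      apply hbad
      simp only [hkv] at hin
      intro c h hc hodd hi
      refine twist_main hT two_ne_zero hb0 hd0 hNb hNd hO hO' hin hc hodd ?_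
      intro π hπ hdv
      have h3 := hi π hπ hdv
      exact ⟨h3, h3.separable⟩
    · rintro ⟨⟨l, j⟩, t⟩
      exact b1 l j t
  exact_mod_cast h4

end main

end Pool.Agent.R939.HI
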