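import Pool.Agent.R939.HI.Base

/-!
# Hilbert irreducibility with densities, for roots in extensions of bounded degree

`O` is an order with the basis `ω`. For a polynomial `P` whose coefficients are integral polynomials in the
parameters `v : ι → O` the set of the parameters such that `P_v` has a root `θ` of small degree with
`Q_v(θ)` a square has density zero, if it is empty for suitable local models.
-/

set_option autoImplicit false
set_option linter.all false

namespace Pool.Agent.R939.HI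

open MvPolynomial Pool.Agent.W275.UB Pool.Agent.W275.ND Pool.Agent Pool.Agent.H927R2.RD

/-- evaluation of integral polynomials in the parameters -/
noncomputable def av {ι R : Type} [CommRing R] (v : ι → R) : MvPolynomial ι ℤ →+* R :=
  eval₂Hom (Int.castRingHom R) v

@[simp] theorem av_X {ι R : Type} [CommRing R] (v : ι → R) (i : ι) : av v (X i) = v i := by
  simp [av]

theorem av_aeval {ι R : Type} [CommRing R] (v : ι → R) (c : MvPolynomial ι ℤ) :
    av v c = aeval v c := by
  rw [av, aeval_eq_eval₂Hom]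
  rfl

theorem hom_av {ι R R' : Type} [CommRing R] [CommRing R'] (f : R →+* R') (v : ι → R) :
    f.comp (av v) = av fun i => f (v i) := by
  apply MvPolynomial.ringHom_ext'
  · exact RingHom.ext_int _ _
  · intro i
    simp

/-- an order embeds in the `p`-adic integers for some odd prime `p` -/
theorem spl2 (O J : Type) [CommRing O] [IsDomain O] [Fintype J] (ω : Module.Basis J ℤ O) :
    ∃ (p : ℕ) (_ : Fact p.Prime), p ≠ 2 ∧ Nonempty (O →+* ℤ_[p]) := by
  classical
  have hfree : Module.Free ℤ O := Module.Free.of_basis ω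
  have hfin : Module.Finite ℤ O := Module.Finite.of_basis ω
  have hint : Algebra.IsIntegral ℤ O := Algebra.IsIntegral.of_finite ℤ O
  let σ : O →ₐ[ℤ] ℂ := IsAlgClosed.lift
  set s : Finset ℂ := Finset.univ.image (fun j => σ (ω j)) with hs
  obtain ⟨K, hK, hK', S, h⟩ := exists_padic_embedding s
  obtain ⟨p, hpS', hp⟩ := W930.ND.exists_degOne K (insert 2 S)
  have hpS : p ∉ S := fun h => hpS' (Finset.mem_insert_of_mem h)
  have hp2 : p ≠ 2 := fun h => hpS' (by rw [h]; exact Finset.mem_insert_self _ _)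
  have hpp : Fact p.Prime := ⟨hp.1⟩
  obtain ⟨e⟩ := h p hpS hp
  refine ⟨p, hpp, hp2, ?_⟩
  have hmem : ∀ x : O, σ x ∈ Subfield.closure (s : Set ℂ) := by
    intro x
    rw [← ω.sum_repr x, map_sum]
    refine sum_mem fun j _ => ?_
    rw [map_zsmul]
    refine zsmul_mem (Subfield.subset_closure ?_) _
    rw [hs]
    simp
  let τ : O →+* Subfield.closure (s : Set ℂ) := (σ : O →+* ℂ).codRestrict _ hmem
  let g : O →+* ℚ_[p] := e.comp τ
  have hg : ∀ x : O, g x ∈ PadicInt.subring p := by
    intro x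
    have h1 : IsIntegral ℤ (g x) := (hint.isIntegral x).map g.toIntAlgHom
    have h2 : IsIntegral ℤ_[p] (g x) := h1.tower_top
    obtain ⟨y, hy⟩ := IsIntegrallyClosed.isIntegral_iff.1 h2
    rw [← hy]
    exact y.2
  exact ⟨g.codRestrict (PadicInt.subring p) hg⟩

section subst

variable {ι J : Type} [Fintype J]

/-- substitution of the coordinates for the parameters -/
noncomputable def sb (ι J : Type) [Fintype J] :
    MvPolynomial ι ℤ →+* MvPolynomial (J ⊕ Fin 2) (MvPolynomial (ι × J) ℤ) :=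
  av fun i => ∑ j, X (Sum.inl j) * C (X (i, j))

theorem eval_sb {R : Type} [CommRing R] (φ : MvPolynomial (ι × J) ℤ →+* R) (y : J ⊕ Fin 2 → R) :
    (eval₂Hom φ y).comp (sb ι J) =
      av (cv (fun j => y (Sum.inl j)) fun q => φ (X q)) := by
  rw [sb, hom_av]
  congr 1
  funext i
  simp [cv]

noncomputable def gP (J : Type) [Fintype J] (P : Polynomial (MvPolynomial ι ℤ)) :
    MvPolynomial (J ⊕ Fin 2) (MvPolynomial (ι × J) ℤ) :=
  P.eval₂ (sb ι J) (X (Sum.inr 0))

noncomputable def gQ (J : Type) [Fintype J] (Q : Polynomial (MvPolynomial ι ℤ)) :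
    MvPolynomial (J ⊕ Fin 2) (MvPolynomial (ι × J) ℤ) :=
  X (Sum.inr 1) ^ 2 - Q.eval₂ (sb ι J) (X (Sum.inr 0))

theorem eval_gP {R : Type} [CommRing R] (φ : MvPolynomial (ι × J) ℤ →+* R) (y : J ⊕ Fin 2 → R)
    (P : Polynomial (MvPolynomial ι ℤ)) :
    eval₂ φ y (gP J P) =
      P.eval₂ (av (cv (fun j => y (Sum.inl j)) fun q => φ (X q))) (y (Sum.inr 0)) := by
  rw [← eval_sb, ← coe_eval₂Hom, gP, Polynomial.hom_eval₂]
  congr 1
  simp

theorem eval_gQ {R : Type} [CommRing R] (φ : MvPolynomial (ι × J) ℤ →+* R) (y : J ⊕ Fin 2 → R)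
    (Q : Polynomial (MvPolynomial ι ℤ)) :
    eval₂ φ y (gQ J Q) = y (Sum.inr 1) ^ 2 -
      Q.eval₂ (av (cv (fun j => y (Sum.inl j)) fun q => φ (X q))) (y (Sum.inr 0)) := by
  rw [← eval_sb, ← coe_eval₂Hom, gQ, map_sub, map_pow, Polynomial.hom_eval₂]
  congr 1
  · simp
  · congr 1
    simp

variable {O : Type} [CommRing O] (ω : Module.Basis J ℤ O)

/-- the equations of the multiplication table -/
noncomputable def gT (ι : Type) : Set (MvPolynomial (J ⊕ Fin 2) (MvPolynomial (ι × J) ℤ)) :=
  (Set.range fun jl : J × J => X (Sum.inl jl.1) * X (Sum.inl jl.2) -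
    ∑ t, C (C (ω.repr (ω jl.1 * ω jl.2) t)) * X (Sum.inl t)) ∪
  {(∑ t, C (C (ω.repr 1 t)) * X (Sum.inl t)) - 1}

theorem eval_gT {R : Type} [CommRing R] (φ : MvPolynomial (ι × J) ℤ →+* R) (y : J ⊕ Fin 2 → R) :
    (∀ g ∈ gT ω ι, eval₂ φ y g = 0) ↔ Tab ω fun j => y (Sum.inl j) := by
  have hc : ∀ n : ℤ, φ (C n) = (n : R) := fun n => by
    have : (C n : MvPolynomial (ι × J) ℤ) = ((n : ℤ) : MvPolynomial (ι × J) ℤ) := by
      simp
    rw [this, map_intCast]
  constructor
  · intro h
    constructor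
    · intro j l
      have h1 := h _ (Or.inl ⟨(j, l), rfl⟩)
      simp only [eval₂_sub, eval₂_mul, eval₂_X, eval₂_sum, eval₂_C, hc] at h1
      exact sub_eq_zero.1 h1
    · have h1 := h _ (Or.inr rfl)
      simp only [eval₂_sub, eval₂_mul, eval₂_X, eval₂_sum, eval₂_C, hc, eval₂_one] at h1
      exact sub_eq_zero.1 h1
  · rintro ⟨h1, h2⟩ g hg
    rcases hg with ⟨⟨j, l⟩, rfl⟩ | rfl
    · simp only [eval₂_sub, eval₂_mul, eval₂_X, eval₂_sum, eval₂_C, hc]
      exact sub_eq_zero.2 (h1 j l)
    · simp only [eval₂_sub, eval₂_mul, eval₂_X, eval₂_sum, eval₂_C, hc, eval₂_one]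
      exact sub_eq_zero.2 h2

end subst

section alg

theorem isAlg_av {ι E Ω : Type} [Field E] [Field Ω] [Algebra E Ω] {v : ι → Ω}
    (hv : ∀ i, IsAlgebraic E (v i)) (c : MvPolynomial ι ℤ) : IsAlgebraic E (av v c) := by
  induction c using MvPolynomial.induction_on with
  | C a =>
    have : av v (C a) = ((a : ℤ) : Ω) := by simp [av]
    rw [this]
    have h2 : ((a : ℤ) : Ω) = algebraMap E Ω (a : E) := by simp
    rw [h2]
    exact isAlgebraic_algebraMap _
  | add p q hp hq =>
    rw [map_add]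
    exact hp.add hq
  | mul_X p i hp =>
    rw [map_mul, av_X]
    exact hp.mul (hv i)

theorem isAlg_root {E Ω : Type} [Field E] [Field Ω] [Algebra E Ω] {f : Polynomial Ω}
    (hf : f ≠ 0) (hc : ∀ n, IsAlgebraic E (f.coeff n)) {θ : Ω} (hθ : f.eval θ = 0) :
    IsAlgebraic E θ := by
  let E' := algebraicClosure E Ω
  have hl : f ∈ Polynomial.lifts (algebraMap E' Ω) := by
    rw [Polynomial.lifts_iff_coeff_lifts]
    intro n
    exact ⟨⟨f.coeff n, mem_algebraicClosure_iff.2 (hc n)⟩, rfl⟩
  obtain ⟨g, hg⟩ := (Polynomial.mem_lifts _).1 hl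
  have hg0 : g ≠ 0 := by
    rintro rfl
    rw [Polynomial.map_zero] at hg
    exact hf hg.symm
  have h1 : IsAlgebraic E' θ := ⟨g, hg0, by
    rw [Polynomial.aeval_def, ← Polynomial.eval_map, hg, hθ]⟩
  exact h1.restrictScalars E

theorem isAlg_eval {E Ω : Type} [Field E] [Field Ω] [Algebra E Ω] {f : Polynomial Ω}
    (hc : ∀ n, IsAlgebraic E (f.coeff n)) {θ : Ω} (hθ : IsAlgebraic E θ) :
    IsAlgebraic E (f.eval θ) := by
  rw [Polynomial.eval_eq_sum_range]
  induction f.natDegree + 1 with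
  | zero => simpa using isAlgebraic_zero
  | succ n ih =>
    rw [Finset.sum_range_succ]
    exact ih.add ((hc n).mul (hθ.pow n))

end alg

/-- **Roots of small degree at which `Q` is a square.** -/
theorem roots {O J ι : Type} [CommRing O] [IsDomain O] [Fintype J] [Fintype ι]
    (ω : Module.Basis J ℤ O) (P Q : Polynomial (MvPolynomial ι ℤ)) (hP : P ≠ 0) (N : ℕ)
    (hloc : ∀ p : ℕ, p.Prime → p ≠ 2 → ∃ (a : ι → ℤ) (M : ℕ), ∀ (K' : Type) [Field K'] (A : Type)
      [CommRing A] [IsDomain A] [IsDiscreteValuationRing A] [Algebra A K'] [IsFractionRing A K']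
      (π : A), Irreducible π → π ∣ (p : A) → ¬ π ^ (N + 1) ∣ (p : A) → ∀ b : ι → A,
      (∀ i, (p : A) ^ M ∣ b i - (a i : A)) → ∀ θ w : K',
      P.eval₂ (av fun i => algebraMap A K' (b i)) θ = 0 →
      w ^ 2 ≠ Q.eval₂ (av fun i => algebraMap A K' (b i)) θ) :
    D0 {x : ι × J → ℤ | ∃ (K : Type) (_ : Field K) (_ : NumberField K) (σ : O →+* K) (θ w : K),
      Module.finrank ℚ K ≤ N * Fintype.card J ∧
      P.eval₂ (av (cv (fun j => σ (ω j)) fun q => (x q : K))) θ = 0 ∧
      w ^ 2 = Q.eval₂ (av (cv (fun j => σ (ω j)) fun q => (x q : K))) θ} := by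
  classical
  by_contra hcon
  have hcon' : ¬ (∀ ε : ℝ, 0 < ε → UD ε {x : ι × J → ℤ |
      ∃ (K : Type) (_ : Field K) (_ : NumberField K) (y : J ⊕ Fin 2 → K),
        Module.finrank ℚ K ≤ N * Fintype.card J ∧
        (∀ g ∈ gT ω ι ∪ {gP J P, gQ J Q}, eval₂ ((Int.castRingHom K).comp (eval x)) y g = 0) ∧
        eval₂ ((Int.castRingHom K).comp (eval x)) y 1 ≠ 0}) := by
    intro h
    apply hcon
    intro ε hε
    refine (h ε hε).mono ?_
    rintro x ⟨K, _, _, σ, θ, w, hK, hθ, hw⟩
    refine ⟨K, inferInstance, inferInstance, Sum.elim (fun j => σ (ω j)) ![θ, w], hK, ?_, ?_⟩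
    · have hx : ∀ q : ι × J, ((Int.castRingHom K).comp (eval x)) (X q) = (x q : K) := by
        intro q
        simp
      rintro g (hg | rfl | rfl)
      · exact (eval_gT ω _ _).2 ((tab O J K ω _).2 ⟨σ, fun j => rfl⟩) g hg
      · rw [eval_gP]
        simp only [hx]
        simpa using hθ
      · rw [eval_gQ]
        simp only [hx]
        simpa using sub_eq_zero.2 hw
    · rw [eval₂_one]
      exact one_ne_zero
  obtain ⟨L, _, _, y, hfd, hdeg, hy, -⟩ := genT (ι × J) (J ⊕ Fin 2) (N * Fintype.card J)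
    (gT ω ι ∪ {gP J P, gQ J Q}) 1 (by
      intro Ω _ _ _ y hy
      obtain ⟨σ, hσ⟩ := (tab O J Ω ω _).1 ((eval_gT ω _ _).1 fun g hg => hy g (Or.inl hg))
      have h1 := hy _ (Or.inr (Or.inl rfl))
      have h2 := hy _ (Or.inr (Or.inr rfl))
      rw [eval_gP] at h1
      rw [eval_gQ] at h2
      set v : ι → Ω := cv (fun j => y (Sum.inl j)) fun q => gn (ι × J) Ω (X q) with hv
      have hint : ∀ x : O, IsIntegral ℤ (σ x) := by
        intro x
        haveI : Module.Finite ℤ O := Module.Finite.of_basis ω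
        have h1 : IsIntegral ℤ x := Algebra.IsIntegral.isIntegral x
        have h2 := h1.map (σ.toIntAlgHom)
        exact h2
      have hz : ∀ j, IsAlgebraic (EE (ι × J)) (y (Sum.inl j)) := by
        intro j
        rw [show y (Sum.inl j) = σ (ω j) from hσ j]
        obtain ⟨p, hp, hpx⟩ := hint (ω j)
        refine IsIntegral.isAlgebraic
          ⟨p.map (Int.castRingHom (EE (ι × J))), hp.map _, ?_⟩
        rw [Polynomial.eval₂_map]
        have h2 : (algebraMap (EE (ι × J)) Ω).comp
            (Int.castRingHom (EE (ι × J))) = algebraMap ℤ Ω := RingHom.ext_int _ _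
        rw [h2]
        exact hpx
      have hvalg : ∀ i, IsAlgebraic (EE (ι × J)) (v i) := by
        intro i
        rw [hv]
        simp only [cv]
        refine Finset.sum_induction _ (IsAlgebraic (EE (ι × J))) (fun _ _ => IsAlgebraic.add)
          isAlgebraic_zero ?_
        intro j _
        exact (hz j).mul (isAlgebraic_algebraMap _)
      have hne : ∀ c : MvPolynomial ι ℤ, c ≠ 0 → av v c ≠ 0 := by
        intro c hc
        obtain ⟨cn, hcn, hdiv⟩ := norm O J ι ω c hc
        have h3 := hdiv Ω σ fun q => gn (ι × J) Ω (X q)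
        rw [gn_aeval] at h3
        have h4 := ne_zero_of_dvd_ne_zero (gn_ne_zero cn hcn) h3
        rw [av_aeval]
        have h5 : (fun j => σ (ω j)) = fun j => y (Sum.inl j) := funext fun j => (hσ j).symm
        rwa [h5] at h4
      have hPv : P.map (av v) ≠ 0 := by
        obtain ⟨n, hn⟩ : ∃ n, P.coeff n ≠ 0 := by
          by_contra h
          push Not at h
          exact hP (Polynomial.ext h)
        intro h0
        have := congrArg (fun f => Polynomial.coeff f n) h0
        simp only [Polynomial.coeff_map, Polynomial.coeff_zero] at this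
        exact hne _ hn this
      have hθ : IsAlgebraic (EE (ι × J)) (y (Sum.inr 0)) := by
        refine isAlg_root hPv ?_ (by rw [Polynomial.eval_map]; exact h1)
        intro n
        rw [Polynomial.coeff_map]
        exact isAlg_av hvalg _
      have hw : IsAlgebraic (EE (ι × J)) (y (Sum.inr 1)) := by
        have h3 : IsAlgebraic (EE (ι × J)) (y (Sum.inr 1) ^ 2) := by
          rw [sub_eq_zero.1 h2, ← Polynomial.eval_map]
          refine isAlg_eval ?_ hθ
          intro n
          rw [Polynomial.coeff_map]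
          exact isAlg_av hvalg _
        exact h3.of_pow (by norm_num)
      intro t
      rcases t with j | t
      · exact hz j
      · fin_cases t
        · exact hθ
        · exact hw) hcon'
  haveI := hfd
  obtain ⟨σ, hσ⟩ := (tab O J L ω _).1 ((eval_gT ω _ _).1 fun g hg => hy g (Or.inl hg))
  have h1 := hy _ (Or.inr (Or.inl rfl))
  have h2 := hy _ (Or.inr (Or.inr rfl))
  rw [eval_gP] at h1
  rw [eval_gQ] at h2
  have hσ' : (fun j => y (Sum.inl j)) = fun j => σ (ω j) := funext hσ
  rw [hσ'] at h1 h2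
  obtain ⟨p, hp, hp2, ⟨σ₀⟩⟩ := spl2 O J ω
  obtain ⟨a, M, hno⟩ := hloc p hp.1 hp2
  have hJ : 0 < Fintype.card J := by
    rw [Fintype.card_pos_iff]
    by_contra hemp
    rw [not_nonempty_iff] at hemp
    have : Subsingleton O := ω.repr.toEquiv.subsingleton
    exact not_subsingleton O this
  obtain ⟨K', _, φ, A, _, _, _, _, _, π, b, hπ, hπp, hπN, hb, hba⟩ :=
    lmk O J ω p σ₀ ι a 0 M (N + 1) L σ
      (lt_of_le_of_lt hdeg (Nat.mul_lt_mul_of_pos_right (Nat.lt_succ_self N) hJ))
  refine hno K' A π hπ hπp hπN b hba (φ (y (Sum.inr 0))) (φ (y (Sum.inr 1))) ?_ ?_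
  · have h3 := congrArg φ h1
    rw [Polynomial.hom_eval₂, map_zero, hom_av] at h3
    simp only [hb, pow_zero, one_mul]
    exact h3
  · have h3 := congrArg φ (sub_eq_zero.1 h2)
    rw [Polynomial.hom_eval₂, map_pow, hom_av] at h3
    simp only [hb, pow_zero, one_mul]
    exact h3

end Pool.Agent.R939.HI
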