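import Pool.Agent.R939.HI.Nf

/-!
# Almost all surfaces: assembly
-/

set_option autoImplicit false
set_option linter.all false

namespace Pool.Agent.R939.HI

open Polynomial NumberField Pool.Agent.R939.EI Pool.Agent.W275.UB Pool.Agent.TH115.GD

section pull

theorem box_ncard (γ : Type) [Fintype γ] (H : ℕ) :
    ({z : γ → ℤ | ∀ i, |z i| ≤ (H : ℤ)}).ncard = (2 * H + 1) ^ Fintype.card γ := by
  classical
  have h1 : ({z : γ → ℤ | ∀ i, |z i| ≤ (H : ℤ)}) =
      ((Fintype.piFinset fun _ : γ => Finset.Icc (-(H : ℤ)) H : Finset (γ → ℤ)) : Set (γ → ℤ)) := by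
    ext z
    rw [Finset.mem_coe, Fintype.mem_piFinset]
    constructor
    · intro h i
      rw [Finset.mem_Icc]
      exact abs_le.1 (h i)
    · intro h i
      exact abs_le.2 (Finset.mem_Icc.1 (h i))
  rw [h1, Set.ncard_coe_finset, Fintype.card_piFinset, Finset.prod_const, Finset.card_univ,
    Int.card_Icc]
  congr 1
  omega

theorem D0_pull {α β : Type} [Fintype α] [Fintype β] {S : Set (α → ℤ)} (h : D0 S) (e : α → β)
    (he : Function.Injective e) : D0 {x : β → ℤ | (fun i => x (e i)) ∈ S} := by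
  classical
  intro ε hε
  obtain ⟨H0, hH⟩ := h ε hε
  refine ⟨H0, fun H hHH => ?_⟩
  have h1 := hH H hHH
  set bad := {v : β → ℤ | v ∈ {x : β → ℤ | (fun i => x (e i)) ∈ S} ∧ ∀ i, |v i| ≤ (H : ℤ)} with hbad
  set A := {v : α → ℤ | v ∈ S ∧ ∀ i, |v i| ≤ (H : ℤ)} with hA
  set B := {z : {b : β // ¬ b ∈ Set.range e} → ℤ | ∀ i, |z i| ≤ (H : ℤ)} with hB
  let φ : (β → ℤ) → (α → ℤ) × ({b : β // ¬ b ∈ Set.range e} → ℤ) :=
    fun x => (fun i => x (e i), fun b => x b)
  have hφ : Function.Injective φ := by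
    intro x y hxy
    funext b
    by_cases hb : b ∈ Set.range e
    · obtain ⟨a, rfl⟩ := hb
      exact congrFun (congrArg Prod.fst hxy) a
    · exact congrFun (congrArg Prod.snd hxy) ⟨b, hb⟩
  have hAf : A.Finite := box_fin S H
  have hBf : B.Finite := by
    refine (box_fin (ι := {b : β // ¬ b ∈ Set.range e}) Set.univ H).subset ?_
    intro z hz
    exact ⟨trivial, hz⟩
  have hsub : φ '' bad ⊆ A ×ˢ B := by
    rintro _ ⟨x, ⟨hx1, hx2⟩, rfl⟩
    exact ⟨⟨hx1, fun i => hx2 (e i)⟩, fun b => hx2 b⟩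
  have h2 : bad.ncard ≤ A.ncard * B.ncard := by
    rw [← Set.ncard_image_of_injective bad hφ, ← Set.ncard_prod]
    exact Set.ncard_le_ncard hsub (hAf.prod hBf)
  have hcard : Fintype.card β = Fintype.card α + Fintype.card {b : β // ¬ b ∈ Set.range e} := by
    rw [Fintype.card_subtype_compl]
    have h3 : Fintype.card {b : β // b ∈ Set.range e} = Fintype.card α :=
      Set.card_range_of_injective he
    have h4 : Fintype.card {b : β // b ∈ Set.range e} ≤ Fintype.card β :=
      Fintype.card_subtype_le _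
    omega
  have hBn : (B.ncard : ℝ) = (2 * H + 1 : ℝ) ^ Fintype.card {b : β // ¬ b ∈ Set.range e} := by
    rw [hB, box_ncard]
    push_cast
    rfl
  calc (bad.ncard : ℝ) ≤ ((A.ncard * B.ncard : ℕ) : ℝ) := by exact_mod_cast h2
    _ = (A.ncard : ℝ) * B.ncard := by push_cast; rfl
    _ ≤ (ε * (2 * H + 1 : ℝ) ^ Fintype.card α) * B.ncard :=
        mul_le_mul_of_nonneg_right h1 (by positivity)
    _ = ε * (2 * H + 1 : ℝ) ^ Fintype.card β := by
        rw [hBn, hcard, pow_add]
        ring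

end pull

/-- The Tate conjecture at 2 for the quadratic twist by `D` of `y² = x (x² + a x + b)`, for all its
quadratic twists by constants and all the base changes of odd degree with inert bad places: for every
`c ≠ 0` in `k` and every polynomial `h` over `k` of odd degree such that the irreducible divisors of
`b (a² - 4 b) D` remain irreducible after the substitution `t ↦ h(t)`, the Tate conjecture at 2 holds
for `y² = x (x² + c a(h(t)) D(h(t)) x + c² b(h(t)) D(h(t))²)`. -/
def TateTD (k' K F : Type) {k : Type} [Field k] [Field k'] [Field K] [Algebra k[X] K]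
    [Field F] [Algebra k'[X] F] [IsFractionRing k'[X] F] [Algebra K F] (a b D : k[X]) : Prop :=
  ∀ (c : k) (h : k[X]), c ≠ 0 → Odd h.natDegree →
    (∀ π : k[X], Irreducible π → π ∣ b * (a ^ 2 - 4 * b) * D → Irreducible (π.comp h)) →
    TateAtTwo (F := F) k' (crvT (algebraMap k[X] K ((C c * (a * D)).comp h))
      (algebraMap k[X] K ((C (c ^ 2) * (b * D ^ 2)).comp h)))

section main

variable {k k' K F : Type} [Field k] [Field k'] [Algebra k k'] [Field K] [Algebra k[X] K]
    [Field F] [Algebra k'[X] F] [IsFractionRing k'[X] F] [Algebra K F]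

theorem tateTD_of [NumberField k] (hT : IsTower k k' K F) {s : ℕ} {q : Fin s → k[X]}
    (hq : ∀ i, Irreducible (q i)) {a D : k[X]} (hirr : Irreducible (a ^ 2 - 4 * ∏ i, q i))
    (hNb : NotNorm (∏ i, q i)) (hNd : NotNorm (a ^ 2 - 4 * ∏ i, q i))
    (hS : ∀ S : Finset (Fin s), S ≠ ∅ → S ≠ Finset.univ → ∀ ε : k, ε ≠ 0 →
      ¬ Splits (a ^ 2 - 4 * ∏ i, q i) ε (∏ i ∈ S, q i)) (hD : InertIn a (∏ i, q i) D) :
    TateTD k' K F a (∏ i, q i) D := by
  intro c h hc hodd hi
  refine twist_main hT two_ne_zero (Finset.prod_ne_zero_iff.2 fun i _ => (hq i).ne_zero)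
    hirr.ne_zero hNb hNd (onlyTrivial_prod hq hS) (onlyTrivial_irr hirr) hD hc hodd ?_
  intro π hπ hdv
  have h3 := hi π hπ hdv
  exact ⟨h3, h3.separable⟩

variable {J : Type} [Fintype J] {r s u : ℕ} {m : Fin s → ℕ} {n : Fin u → ℕ}

/-- The parameters without an obstruction for `S`. -/
def NoObs [NumberField k] (B : Module.Basis J ℤ (𝓞 k)) (r : ℕ) {s : ℕ} (m : Fin s → ℕ) {u : ℕ}
    (n : Fin u → ℕ) (S : Finset (Fin s)) : Set (Ix r m n × J → ℤ) :=
  {x | ∀ p, p.Prime → 7 ≤ p →
    (fun q : IdxG r m × J => (x (Sum.inl q.1, q.2) : ZMod p)) ∉ omegaG B r m S p}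

theorem dens_S [NumberField k] (B : Module.Basis J ℤ (𝓞 k)) (hr : 2 ≤ r) (hm : ∀ i, 1 ≤ m i)
    {S : Finset (Fin s)} (h0 : S ≠ ∅) (h1 : S ≠ Finset.univ) : D0 (NoObs B r m n S) := by
  have hD : D0 {y : IdxG r m × J → ℤ | ∀ p, p.Prime → 7 ≤ p →
      (fun i => (y i : ZMod p)) ∉ omegaG B r m S p} := by
    intro ε hε
    have hM0 : (0 : ℝ) < ((2 * r + ∑ i, m i : ℕ) : ℝ) := by
      have : 0 < 2 * r + ∑ i, m i := by omega
      exact_mod_cast this
    have hδ0 : (0 : ℝ) < 1 / (4 * 9 ^ s * ((2 * r + ∑ i, m i : ℕ) : ℝ) ^ 2) := by positivity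
    have hδ1 : 1 / (4 * 9 ^ s * ((2 * r + ∑ i, m i : ℕ) : ℝ) ^ 2) ≤ 1 := by
      rw [div_le_one (by positivity)]
      have h3 : (1 : ℝ) ≤ 9 ^ s := one_le_pow₀ (by norm_num)
      have h5 : (1 : ℝ) ≤ ((2 * r + ∑ i, m i : ℕ) : ℝ) := by
        have : 1 ≤ 2 * r + ∑ i, m i := by omega
        exact_mod_cast this
      have h4 : (1 : ℝ) ≤ ((2 * r + ∑ i, m i : ℕ) : ℝ) ^ 2 := one_le_pow₀ h5
      nlinarith
    obtain ⟨H0, hH⟩ := sieve_small hδ0 hδ1 (omegaG B r m S) 7 (fun p hp h7 => by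
      obtain ⟨P, hP1, hP2, hP3⟩ := exists_prime_ideal B hp
      exact card_omegaG B r m hp h7 hr hm (fun x => ⟨_, basis_elt B x⟩) h0 h1 hP1 hP2 hP3
        (Ideal.finiteQuotientOfFreeOfNeBot P hP2)) hε
    refine ⟨H0, fun H hHH => ?_⟩
    have h6 := hH H hHH
    convert h6 using 4
    ext v
    exact and_comm
  exact D0_pull hD (fun q : IdxG r m × J => ((Sum.inl q.1, q.2) : Ix r m n × J)) (by
    rintro ⟨a, b⟩ ⟨c, d⟩ h
    simp only [Prod.mk.injEq, Sum.inl.injEq] at h
    exact Prod.ext h.1 h.2)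

/-- **Almost all surfaces**, in terms of the coordinates. -/
theorem main_D0 [NumberField k] (hT : IsTower k k' K F) (B : Module.Basis J ℤ (𝓞 k)) (hr : 2 ≤ r)
    (hm : ∀ i, 1 ≤ m i) (hn : ∀ l, 1 ≤ n l) (hodd : Odd (∑ i, m i)) (h2r : 2 * r < ∑ i, m i) :
    D0 {x : Ix r m n × J → ℤ | ¬ TateTD k' K F (polA (aV (kv B x))) (polP (bV (kv B x)))
      (∏ l, polA (dV (kv B x) l))} := by
  classical
  obtain ⟨i0⟩ : Nonempty (Fin s) := by
    by_contra hemp
    rw [not_nonempty_iff] at hemp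
    rw [Finset.univ_eq_empty, Finset.sum_empty] at hodd
    exact absurd hodd (by decide)
  obtain ⟨j0⟩ : Nonempty J := by
    rw [← Fintype.card_pos_iff, card_J B]
    exact Module.finrank_pos
  set T : Finset (Finset (Fin s)) := Finset.univ.filter fun S => S ≠ ∅ ∧ S ≠ Finset.univ with hTT
  have h1 : D0 (⋃ i ∈ (Finset.univ : Finset (Fin s)), {x : Ix r m n × J → ℤ |
      MvPolynomial.eval x (MvPolynomial.X (Sum.inl (Sum.inr ⟨i, Fin.last (m i)⟩), j0)) = 0}) :=
    D0.biUnion _ _ fun i _ => zero _ (MvPolynomial.X_ne_zero _)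
  have h2 : D0 (⋃ l ∈ (Finset.univ : Finset (Fin u)), {x : Ix r m n × J → ℤ |
      MvPolynomial.eval x (MvPolynomial.X (Sum.inr ⟨l, Fin.last (n l)⟩, j0)) = 0}) :=
    D0.biUnion _ _ fun l _ => zero _ (MvPolynomial.X_ne_zero _)
  have h3 : D0 (⋃ i ∈ (Finset.univ : Finset (Fin s)),
      RootSq B (polA (bV (XX r m n) i)) 0 (m i - 1)) :=
    D0.biUnion _ _ fun i _ => dens_b B i (hm i)
  have h4 : D0 (RootSq B (polE (aV (XX r m n)) (bV (XX r m n))) 0 (∑ i, m i - 1)) :=
    dens_E B hodd h2r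
  have h5 : D0 (⋃ l ∈ (Finset.univ : Finset (Fin u)),
      RootSq B (polA (dV (XX r m n) l)) (polP (bV (XX r m n))) (n l)) :=
    D0.biUnion _ _ fun l _ => dens_DP B l (hn l) i0 (hm i0)
  have h6 : D0 (⋃ l ∈ (Finset.univ : Finset (Fin u)),
      RootSq B (polA (dV (XX r m n) l)) (polE (aV (XX r m n)) (bV (XX r m n))) (n l)) :=
    D0.biUnion _ _ fun l _ => dens_DE B l (hn l) i0 (hm i0)
  have h7 : D0 (⋃ S ∈ T, NoObs B r m n S) :=
    D0.biUnion _ _ fun S hS => by
      rw [hTT, Finset.mem_filter] at hS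
      exact dens_S B hr hm hS.2.1 hS.2.2
  have hall := (((((h1.union h2).union h3).union h4).union h5).union h6).union h7
  intro ε hε
  refine (hall ε hε).mono ?_
  intro x hx
  by_contra hcon
  apply hx
  simp only [Set.mem_union, not_or, Set.mem_iUnion, exists_prop, not_exists, not_and,
    Finset.mem_univ, forall_true_left] at hcon
  obtain ⟨⟨⟨⟨⟨⟨c1, c2⟩, c3⟩, c4⟩, c5⟩, c6⟩, c7⟩ := hcon
  -- leading coefficients
  have hbl : ∀ i, IsUnit (bV (kv B x) i (Fin.last (m i))) := by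
    intro i
    refine isUnit_iff_ne_zero.2 (kv_ne B (j := j0) ?_)
    intro h0
    apply c1 i
    show MvPolynomial.eval x (MvPolynomial.X _) = 0
    rw [MvPolynomial.eval_X]
    exact h0
  have hdl : ∀ l, IsUnit (dV (kv B x) l (Fin.last (n l))) := by
    intro l
    refine isUnit_iff_ne_zero.2 (kv_ne B (j := j0) ?_)
    intro h0
    apply c2 l
    show MvPolynomial.eval x (MvPolynomial.X _) = 0
    rw [MvPolynomial.eval_X]
    exact h0
  -- the generic polynomials
  have mb : ∀ i, (polA (bV (XX r m n) i)).map (av (kv B x)) = polA (bV (kv B x) i) := by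
    intro i
    rw [polA_map]
    simp only [bV, av_X]
    rfl
  have md : ∀ l, (polA (dV (XX r m n) l)).map (av (kv B x)) = polA (dV (kv B x) l) := by
    intro l
    rw [polA_map]
    simp only [dV, av_X]
    rfl
  have mP : (polP (bV (XX r m n))).map (av (kv B x)) = polP (bV (kv B x)) := by
    rw [polP_map]
    simp only [bV, av_X]
    rfl
  have mE : (polE (aV (XX r m n)) (bV (XX r m n))).map (av (kv B x)) =
      polE (aV (kv B x)) (bV (kv B x)) := by
    rw [polE_map]
    simp only [aV, bV, av_X]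
    rfl
  have hq : ∀ i, Irreducible (polA (bV (kv B x) i)) := by
    intro i
    refine irr_of_no_small (N := m i - 1) ?_ ?_
    · rw [(lead_polA (hbl i)).1, Nat.sub_add_cancel (hm i)]
    · intro f hf hN hdv
      refine not_rootSq B (c3 i) hf hN (by rw [mb]; exact hdv) 0 ?_
      rw [Polynomial.map_zero, zero_pow two_ne_zero, sub_zero]
      exact dvd_zero _
  have hE := lead_polE (a := aV (kv B x)) (isUnit_iff_ne_zero.2 (two_ne_zero (α := k))) h2r hbl
  have hirr : Irreducible (polE (aV (kv B x)) (bV (kv B x))) := by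
    refine irr_of_no_small (N := ∑ i, m i - 1) ?_ ?_
    · rw [hE.2, Nat.sub_add_cancel hodd.pos]
    · intro f hf hN hdv
      refine not_rootSq B c4 hf hN (by rw [mE]; exact hdv) 0 ?_
      rw [Polynomial.map_zero, zero_pow two_ne_zero, sub_zero]
      exact dvd_zero _
  have hNd : NotNorm (polE (aV (kv B x)) (bV (kv B x))) := by
    apply notNorm_of_odd
    rw [hE.2]
    exact hodd
  have hNb : NotNorm (polP (bV (kv B x))) := by
    apply notNorm_of_odd
    unfold polP
    rw [natDegree_prod _ _ fun i _ => (hq i).ne_zero,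
      Finset.sum_congr rfl fun i _ => (lead_polA (hbl i)).1]
    exact hodd
  have hDl : ∀ l, polA (dV (kv B x) l) ≠ 0 := by
    intro l h0
    have h8 := (lead_polA (hdl l)).2
    rw [h0, leadingCoeff_zero] at h8
    exact (hdl l).ne_zero h8.symm
  refine tateTD_of hT hq hirr hNb hNd ?_ ⟨Finset.prod_ne_zero_iff.2 fun l _ => hDl l, ?_⟩
  · -- the obstruction
    intro S h0 h1 ε' hε' hs
    have h8 := c7 S (by rw [hTT, Finset.mem_filter]; exact ⟨Finset.mem_univ _, h0, h1⟩)
    simp only [NoObs, Set.mem_setOf_eq, not_forall, not_not] at h8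
    obtain ⟨p, hp, h7', P, hP1, hP2, hP3, hO⟩ := h8
    haveI := hP1
    haveI : NeZero p := ⟨hp.ne_zero⟩
    have key : ∀ i : IdxG r m, Ideal.Quotient.mk P (elt B fun t =>
        ((((x (Sum.inl i, t) : ℤ) : ZMod p)).val : ℤ)) =
        Ideal.Quotient.mk P (elt B fun t => x (Sum.inl i, t)) := by
      intro i
      refine mk_elt B hP3 fun t => ?_
      rw [Int.cast_natCast, ZMod.natCast_val, ZMod.cast_id', id]
    have hO' : ObsG S (fun j => Ideal.Quotient.mk P (elt B fun t => x (Sum.inl (Sum.inl j), t)))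
        (fun i j => Ideal.Quotient.mk P (elt B fun t => x (Sum.inl (Sum.inr ⟨i, j⟩), t))) := by
      simp only [key] at hO
      exact hO
    exact ObsG.not_splits P hP2 hO' hε' hs
  · -- the primes of the twist
    intro π hπ hdv r'
    obtain ⟨l, -, hl⟩ := (hπ.prime.dvd_finsetProd_iff _).1 hdv
    have hdeg : π.natDegree ≤ n l :=
      (natDegree_le_of_dvd hl (hDl l)).trans (polA_natDegree _)
    constructor
    · have h8 := not_rootSq B (c5 l) hπ hdeg (by rw [md]; exact hl) r'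
      rw [mP] at h8
      exact h8
    · have h8 := not_rootSq B (c6 l) hπ hdeg (by rw [md]; exact hl) r'
      rw [mE] at h8
      exact h8

end main

end Pool.Agent.R939.HI
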