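import Pool.Agent.R939.HI.Inst
import Pool.Agent.R939.EI.Gen6
import Pool.Agent.R939.EI.Tw1

/-!
# Number fields: irreducible polynomials and primes of the twist
-/

set_option autoImplicit false
set_option linter.all false

namespace Pool.Agent.R939.HI

open Polynomial NumberField Pool.Agent.R939.EI Pool.Agent.W275.UB Pool.Agent.TH115.GD

section nf

variable {k : Type} [Field k] [NumberField k] {J : Type} [Fintype J] (ω : Module.Basis J ℤ (𝓞 k))
  {ι : Type} [Fintype ι]

/-- the parameters in `k` with given coordinates -/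
noncomputable def kv (x : ι × J → ℤ) (i : ι) : k := algebraMap (𝓞 k) k (elt ω fun j => x (i, j))

include ω in
theorem card_J : Fintype.card J = Module.finrank ℚ k := by
  rw [← NumberField.RingOfIntegers.rank, Module.finrank_eq_card_basis ω]

theorem not_rootSq {P Q : (MvPolynomial ι ℤ)[X]} {N : ℕ} {x : ι × J → ℤ}
    (hx : x ∉ RootSq ω P Q N) {f : k[X]} (hf : Irreducible f) (hN : f.natDegree ≤ N)
    (hP : f ∣ P.map (av (kv ω x))) (r : k[X]) : ¬ f ∣ Q.map (av (kv ω x)) - r ^ 2 := by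
  intro hQ
  apply hx
  haveI : Fact (Irreducible f) := ⟨hf⟩
  let K := AdjoinRoot f
  haveI : FiniteDimensional k K := (AdjoinRoot.powerBasis hf.ne_zero).finite
  haveI : CharZero K := charZero_of_injective_algebraMap (algebraMap k K).injective
  haveI : IsScalarTower ℚ k K := IsScalarTower.of_algebraMap_eq fun q => by simp
  haveI : FiniteDimensional ℚ K := FiniteDimensional.trans ℚ k K
  haveI : NumberField K := { to_charZero := inferInstance, to_finiteDimensional := inferInstance }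
  have hv : (cv (fun j => ((algebraMap k K).comp (algebraMap (𝓞 k) k)) (ω j))
      fun q => (x q : K)) = fun i => algebraMap k K (kv ω x i) := by
    funext i
    simp only [cv, kv, elt, map_sum, map_mul, map_intCast, RingHom.comp_apply]
    exact Finset.sum_congr rfl fun j _ => mul_comm _ _
  have hev : ∀ G : (MvPolynomial ι ℤ)[X], G.eval₂ (av (cv (fun j =>
      ((algebraMap k K).comp (algebraMap (𝓞 k) k)) (ω j)) fun q => (x q : K)))
      (AdjoinRoot.root f) = AdjoinRoot.mk f (G.map (av (kv ω x))) := by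
    intro G
    rw [hv, ← hom_av, ← eval₂_map, ← AdjoinRoot.aeval_eq, aeval_def]
  refine ⟨K, inferInstance, inferInstance, (algebraMap k K).comp (algebraMap (𝓞 k) k),
    AdjoinRoot.root f, AdjoinRoot.mk f r, ?_, ?_, ?_⟩
  · rw [← Module.finrank_mul_finrank ℚ k K, card_J ω, mul_comm]
    refine Nat.mul_le_mul_right _ ?_
    have : Module.finrank k K = f.natDegree := by
      rw [(AdjoinRoot.powerBasis hf.ne_zero).finrank, AdjoinRoot.powerBasis_dim]
    rw [this]
    exact hN
  · rw [hev]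
    exact AdjoinRoot.mk_eq_zero.2 hP
  · rw [hev, ← map_pow]
    exact (AdjoinRoot.mk_eq_mk.2 hQ).symm

theorem kv_ne {x : ι × J → ℤ} {i : ι} {j : J} (h : x (i, j) ≠ 0) : kv ω x i ≠ 0 := by
  intro h0
  apply h
  have h1 : elt ω (fun j => x (i, j)) = 0 := by
    apply FaithfulSMul.algebraMap_injective (𝓞 k) k
    rw [map_zero]
    exact h0
  rw [← repr_elt ω (fun j => x (i, j)) j, h1, map_zero]
  rfl

end nf

section poly

variable {k : Type} [Field k]

theorem irr_of_no_small {P : k[X]} {N : ℕ} (hdeg : P.natDegree = N + 1)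
    (h : ∀ f : k[X], Irreducible f → f.natDegree ≤ N → ¬ f ∣ P) : Irreducible P := by
  have hP0 : P ≠ 0 := by
    rintro rfl
    simp at hdeg
  obtain ⟨f, hf, hfP⟩ := exists_irreducible_of_natDegree_pos (f := P) (by omega)
  have h1 : N + 1 ≤ f.natDegree := by
    by_contra hlt
    exact h f hf (by omega) hfP
  obtain ⟨g, rfl⟩ := hfP
  have hg0 : g ≠ 0 := right_ne_zero_of_mul hP0
  rw [natDegree_mul hf.ne_zero hg0] at hdeg
  have hg : g.natDegree = 0 := by omega
  have hu : IsUnit g := by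
    rw [eq_C_of_natDegree_eq_zero hg] at hg0 ⊢
    exact isUnit_C.2 (isUnit_iff_ne_zero.2 (C_ne_zero.1 hg0))
  exact (irreducible_mul_isUnit hu).2 hf

theorem onlyTrivial_prod {s : ℕ} {q : Fin s → k[X]} (hq : ∀ i, Irreducible (q i)) {a : k[X]}
    (hS : ∀ S : Finset (Fin s), S ≠ ∅ → S ≠ Finset.univ → ∀ ε : k, ε ≠ 0 →
      ¬ Splits (a ^ 2 - 4 * ∏ i, q i) ε (∏ i ∈ S, q i)) : OnlyTrivial a (∏ i, q i) := by
  rintro A hA hs hd ⟨ε, hε, ⟨x, y, z, hz, e⟩, -⟩
  obtain ⟨S, -, hS'⟩ := dvd_prod_irr hq Finset.univ A hd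
  obtain ⟨w, hw⟩ := hS'.symm
  obtain ⟨c, hc, hcw⟩ := Polynomial.isUnit_iff.1 w.isUnit
  have hc0 : c ≠ 0 := hc.ne_zero
  have hAe : A = C c * ∏ i ∈ S, q i := by rw [← hw, hcw]; ring
  by_cases h0 : S = ∅
  · left
    rw [h0, Finset.prod_empty, mul_one] at hAe
    have h3 := hA
    rw [hAe, Monic, leadingCoeff_C] at h3
    rw [hAe, h3, C_1]
  by_cases h1 : S = Finset.univ
  · right
    refine ⟨c, ∏ i, q i, hc0, ?_⟩
    rw [hAe, h1]
    ring
  · exfalso
    refine hS S h0 h1 (ε * c) (mul_ne_zero hε hc0) ⟨x, y, z, hz, ?_⟩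
    rw [hAe] at e
    rw [C_mul]
    linear_combination e

theorem onlyTrivial_irr {a b : k[X]} (hb : Irreducible b) : OnlyTrivial a b := by
  intro A hA hs hd _
  obtain ⟨g, hg⟩ := hd
  rcases hb.isUnit_or_isUnit hg with h | h
  · exact Or.inl (hA.eq_one_of_isUnit h)
  · right
    obtain ⟨c, hc, hcw⟩ := Polynomial.isUnit_iff.1 h
    refine ⟨c, A, hc.ne_zero, ?_⟩
    rw [hg, ← hcw]
    ring

end poly

end Pool.Agent.R939.HI
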