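import Pool.Agent.R939.HI.Tgt2
import Pool.Agent.R939.HI.Nf

/-!
# Number fields: norms from quadratic extensions of the constants
-/

set_option autoImplicit false
set_option linter.all false

namespace Pool.Agent.R939.HI

open Polynomial NumberField Pool.Agent.R939.EI Pool.Agent.W275.UB Pool.Agent.TH115.GD

section nf

variable {k : Type} [Field k] [NumberField k] {J : Type} [Fintype J] (ω : Module.Basis J ℤ (𝓞 k))
  {ι : Type} [Fintype ι]

theorem cv_kv {K : Type} [Field K] [Algebra k K] (x : ι × J → ℤ) :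
    (cv (fun j => ((algebraMap k K).comp (algebraMap (𝓞 k) k)) (ω j))
      fun q => (x q : K)) = fun i => algebraMap k K (kv ω x i) := by
  funext i
  simp only [cv, kv, elt, map_sum, map_mul, map_intCast, RingHom.comp_apply]
  exact Finset.sum_congr rfl fun j _ => mul_comm _ _

/-- no factor over an extension of degree at most two -/
theorem not_facSet {P : (MvPolynomial ι ℤ)[X]} {i : ℕ} {x : ι × J → ℤ} (hx : x ∉ FacSet ω P i)
    {K : Type} [Field K] [NumberField K] [Algebra k K] (hK : Module.finrank k K ≤ 2) (g h : K[X])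
    (hg : g.Monic) (hgd : g.natDegree = i) :
    g * h ≠ (P.map (av (kv ω x))).map (algebraMap k K) := by
  intro e
  apply hx
  haveI : IsScalarTower ℚ k K := IsScalarTower.of_algebraMap_eq fun q => by simp
  refine ⟨K, inferInstance, inferInstance, (algebraMap k K).comp (algebraMap (𝓞 k) k), g, h, ?_,
    hg, hgd, ?_⟩
  · rw [← Module.finrank_mul_finrank ℚ k K, card_J ω, mul_comm]
    exact Nat.mul_le_mul_right _ hK
  · rw [cv_kv, e, Polynomial.map_map, hom_av]

theorem natDegree_eq_of_coeff {R : Type} [CommRing R] {p q : R[X]}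
    (h : ∀ j, p.coeff j = 0 ↔ q.coeff j = 0) : p.natDegree = q.natDegree := by
  apply le_antisymm
  · rw [natDegree_le_iff_coeff_eq_zero]
    intro N hN
    exact (h N).2 (coeff_eq_zero_of_natDegree_lt hN)
  · rw [natDegree_le_iff_coeff_eq_zero]
    intro N hN
    exact (h N).1 (coeff_eq_zero_of_natDegree_lt hN)

/-- no norm from a quadratic extension of the constants -/
theorem not_norm_of_facSet {P : (MvPolynomial ι ℤ)[X]} {i : ℕ} {x : ι × J → ℤ}
    (hx : x ∉ FacSet ω P i) (hi : 1 ≤ i) (hdeg : (P.map (av (kv ω x))).natDegree = 2 * i) {D : k}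
    (hD : ¬ IsSquare D) (u : k) (U V : k[X]) :
    P.map (av (kv ω x)) ≠ C u * (U ^ 2 - C D * V ^ 2) := by
  intro e
  set f := P.map (av (kv ω x)) with hf
  have hf0 : f ≠ 0 := by
    intro h0
    rw [h0, natDegree_zero] at hdeg
    omega
  have hu : u ≠ 0 := by
    rintro rfl
    rw [C_0, zero_mul] at e
    exact hf0 e
  have hirr : Irreducible (X ^ 2 - C D : k[X]) := by
    refine X_pow_sub_C_irreducible_of_prime Nat.prime_two ?_
    intro b hb
    exact hD ⟨b, by rw [← hb]; ring⟩
  haveI : Fact (Irreducible (X ^ 2 - C D : k[X])) := ⟨hirr⟩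
  let K := AdjoinRoot (X ^ 2 - C D : k[X])
  haveI : FiniteDimensional k K := (AdjoinRoot.powerBasis hirr.ne_zero).finite
  haveI : CharZero K := charZero_of_injective_algebraMap (algebraMap k K).injective
  haveI : IsScalarTower ℚ k K := IsScalarTower.of_algebraMap_eq fun q => by simp
  haveI : FiniteDimensional ℚ K := FiniteDimensional.trans ℚ k K
  haveI : NumberField K := { to_charZero := inferInstance, to_finiteDimensional := inferInstance }
  have hK : Module.finrank k K ≤ 2 := by
    rw [(AdjoinRoot.powerBasis hirr.ne_zero).finrank, AdjoinRoot.powerBasis_dim,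
      natDegree_X_pow_sub_C]
  obtain ⟨t, ht⟩ : ∃ t : K, t ^ 2 = algebraMap k K D := by
    refine ⟨AdjoinRoot.root _, ?_⟩
    have h1 := AdjoinRoot.eval₂_root (X ^ 2 - C D : k[X])
    rw [eval₂_sub, eval₂_X_pow, eval₂_C] at h1
    exact sub_eq_zero.1 h1
  have hsep : ∀ (y z : k), algebraMap k K y = t * algebraMap k K z → y = 0 ∧ z = 0 := by
    intro y z h
    have hz : z = 0 := by
      by_contra hz
      apply hD
      refine ⟨y / z, ?_⟩
      have h1 : algebraMap k K (y ^ 2) = algebraMap k K (D * z ^ 2) := by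
        rw [map_pow, h, mul_pow, ht, map_mul, map_pow]
      have h2 := (algebraMap k K).injective h1
      field_simp
      rw [h2]
    rw [hz, map_zero, mul_zero] at h
    exact ⟨(_root_.map_eq_zero _).1 h, hz⟩
  set g0 : K[X] := U.map (algebraMap k K) - C t * V.map (algebraMap k K) with hg0
  set g1 : K[X] := U.map (algebraMap k K) + C t * V.map (algebraMap k K) with hg1
  have hc : ∀ j, g0.coeff j = 0 ↔ g1.coeff j = 0 := by
    intro j
    rw [hg0, hg1, coeff_sub, coeff_add, coeff_C_mul, coeff_map, coeff_map]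
    constructor
    · intro h
      obtain ⟨h1, h2⟩ := hsep _ _ (sub_eq_zero.1 h)
      rw [h1, h2, map_zero, mul_zero, add_zero]
    · intro h
      obtain ⟨h1, h2⟩ := hsep (U.coeff j) (-V.coeff j) (by
        rw [map_neg]
        linear_combination h)
      rw [neg_eq_zero] at h2
      rw [h1, h2, map_zero, mul_zero, sub_zero]
  have hfe : f.map (algebraMap k K) = C (algebraMap k K u) * (g0 * g1) := by
    rw [e, Polynomial.map_mul, map_C, Polynomial.map_sub, Polynomial.map_mul, Polynomial.map_pow,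
      Polynomial.map_pow, map_C, hg0, hg1, ← ht, C_pow]
    ring
  have hfm : f.map (algebraMap k K) ≠ 0 := by
    rw [Ne, Polynomial.map_eq_zero_iff (algebraMap k K).injective]
    exact hf0
  have hg00 : g0 ≠ 0 := by
    intro h0
    rw [hfe, h0, zero_mul, mul_zero] at hfm
    exact hfm rfl
  have hg10 : g1 ≠ 0 := by
    intro h0
    rw [hfe, h0, mul_zero, mul_zero] at hfm
    exact hfm rfl
  have huK : algebraMap k K u ≠ 0 := (_root_.map_ne_zero _).2 hu
  have hd : g0.natDegree = i := by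
    have h1 : (f.map (algebraMap k K)).natDegree = 2 * i := by
      rw [natDegree_map, hdeg]
    rw [hfe, natDegree_C_mul huK, natDegree_mul hg00 hg10, ← natDegree_eq_of_coeff hc] at h1
    omega
  have hlc : g0.leadingCoeff ≠ 0 := leadingCoeff_ne_zero.2 hg00
  refine not_facSet ω hx hK (C g0.leadingCoeff⁻¹ * g0)
    (C (g0.leadingCoeff * algebraMap k K u) * g1) ?_ ?_ ?_
  · rw [Monic, leadingCoeff_mul, leadingCoeff_C, inv_mul_cancel₀ hlc]
  · rw [natDegree_C_mul (inv_ne_zero hlc), hd]
  · have h1 : (C g0.leadingCoeff⁻¹ : K[X]) * C g0.leadingCoeff = 1 := by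
      rw [← C_mul, inv_mul_cancel₀ hlc, C_1]
    rw [← hf, hfe, C_mul]
    linear_combination (g0 * C (algebraMap k K u) * g1) * h1

theorem notNorm_of_irr {f : k[X]} (hf : Irreducible f)
    (h : ∀ D : k, ¬ IsSquare D → ∀ (u : k) (U V : k[X]), f ≠ C u * (U ^ 2 - C D * V ^ 2)) :
    NotNorm f := by
  intro u D U V e
  constructor
  · rintro rfl
    have h1 : U * U ∣ f := ⟨C u, by rw [e]; ring⟩
    have h2 := hf.squarefree U h1
    have h3 : IsUnit (C u : k[X]) := by
      rw [isUnit_C, isUnit_iff_ne_zero]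
      rintro rfl
      rw [C_0, zero_mul] at e
      exact hf.ne_zero e
    apply hf.not_isUnit
    rw [e]
    have : C u * (U ^ 2 - C D * 0 ^ 2) = C u * (U * U) := by ring
    rw [this]
    exact h3.mul (h2.mul h2)
  · by_contra hD
    exact h D hD u U V e

/-- a prime factor of multiplicity one -/
theorem notNorm_of_factor {ρ b' : k[X]} (hρ : Irreducible ρ) (hb' : ¬ ρ ∣ b') (hN : NotNorm ρ) :
    NotNorm (ρ * b') := by
  intro u D U V e
  have hb0 : b' ≠ 0 := by
    rintro rfl
    exact hb' (dvd_zero _)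
  have hu : u ≠ 0 := by
    rintro rfl
    rw [C_0, zero_mul] at e
    exact mul_ne_zero hρ.ne_zero hb0 e
  have hu1 : (C u⁻¹ : k[X]) * C u = 1 := by rw [← C_mul, inv_mul_cancel₀ hu, C_1]
  have hV : V ≠ 0 := by
    rintro rfl
    have e1 : ρ * b' = C u * U ^ 2 := by rw [e]; ring
    have h1 : ρ ∣ U ^ 2 := by
      have h2 : ρ ∣ C u * U ^ 2 := ⟨b', e1.symm⟩
      rwa [(isUnit_C.2 (isUnit_iff_ne_zero.2 hu)).dvd_mul_left] at h2
    obtain ⟨U', rfl⟩ := hρ.prime.dvd_of_dvd_pow h1
    apply hb'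
    refine ⟨C u * U' ^ 2, ?_⟩
    apply mul_left_cancel₀ hρ.ne_zero
    rw [e1]
    ring
  refine ⟨hV, ?_⟩
  by_contra hD
  have hD0 : D ≠ 0 := by
    rintro rfl
    exact hD ⟨0, by ring⟩
  have hsp : Splits (C u⁻¹ * (ρ * b')) D 1 := ⟨U, 1, V, hV, by
    rw [e]
    linear_combination (U ^ 2 - C D * V ^ 2) * hu1⟩
  obtain ⟨r, hr⟩ := hsp.sq_mod hD0 one_ne_zero hρ (m := 0) (δ := C u⁻¹ * b') (by ring) (by
    rw [(isUnit_C.2 (isUnit_iff_ne_zero.2 (inv_ne_zero hu))).dvd_mul_left]
    exact hb')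
  rw [mul_one] at hr
  obtain ⟨c, A, B, hc⟩ := norm_of_sq_mod hρ hD hr
  exact hD (hN c D A B hc).2

/-- leading coefficients -/
theorem dens_lead {P : (MvPolynomial ι ℤ)[X]} {N : ℕ} (h : P.coeff N ≠ 0) :
    D0 {x : ι × J → ℤ | (P.map (av (kv ω x))).coeff N = 0} := by
  obtain ⟨cn, hcn, hdiv⟩ := norm (𝓞 k) J ι ω (P.coeff N) h
  intro ε hε
  refine (zero cn hcn ε hε).mono ?_
  intro x hx
  have h1 := hdiv k (algebraMap (𝓞 k) k) fun q => (x q : k)
  have h2 : (cv (fun j => algebraMap (𝓞 k) k (ω j)) fun q => (x q : k)) = kv ω x := by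
    have := cv_kv (K := k) ω x
    funext i
    have h3 := congrFun this i
    simp only [Algebra.algebraMap_self, RingHom.id_apply] at h3
    exact h3
  rw [h2, ← av_aeval, ← coeff_map, show (P.map (av (kv ω x))).coeff N = 0 from hx, zero_dvd_iff] at h1
  have h3 : MvPolynomial.aeval (fun q => (x q : k)) cn = ((MvPolynomial.eval x cn : ℤ) : k) := by
    have h4 := MvPolynomial.eval₂_comp_left (Int.castRingHom k) (RingHom.id ℤ) x cn
    rw [MvPolynomial.aeval_def]
    rw [MvPolynomial.eval₂_id] at h4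
    rw [eq_intCast (Int.castRingHom k)] at h4
    rw [h4]
    congr 1
  rw [h3] at h1
  exact_mod_cast h1

theorem irr_of_half {P : k[X]} {N : ℕ} (hN : 1 ≤ N) (hdeg : P.natDegree = 2 * N)
    (h : ∀ f : k[X], Irreducible f → f.natDegree ≤ N - 1 → ¬ f ∣ P)
    (h' : ∀ f g : k[X], f.Monic → f.natDegree = N → f * g ≠ P) : Irreducible P := by
  have hP0 : P ≠ 0 := by
    rintro rfl
    rw [natDegree_zero] at hdeg
    omega
  obtain ⟨f, hf, g, rfl⟩ := exists_irreducible_of_natDegree_pos (f := P) (by omega)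
  have hg0 : g ≠ 0 := right_ne_zero_of_mul hP0
  by_cases hg : g.natDegree = 0
  · have hu : IsUnit g := by
      rw [eq_C_of_natDegree_eq_zero hg] at hg0 ⊢
      exact isUnit_C.2 (isUnit_iff_ne_zero.2 (C_ne_zero.1 hg0))
    exact (irreducible_mul_isUnit hu).2 hf
  · exfalso
    obtain ⟨f', hf', hf'g⟩ := exists_irreducible_of_natDegree_pos (f := g) (by omega)
    have h1 : N ≤ f.natDegree := by
      by_contra hlt
      exact h f hf (by omega) (dvd_mul_right _ _)
    have h2 : N ≤ f'.natDegree := by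
      by_contra hlt
      exact h f' hf' (by omega) (hf'g.mul_left _)
    have h3 : f'.natDegree ≤ g.natDegree := natDegree_le_of_dvd hf'g hg0
    rw [natDegree_mul hf.ne_zero hg0] at hdeg
    have hlc : f.leadingCoeff ≠ 0 := leadingCoeff_ne_zero.2 hf.ne_zero
    refine h' (C f.leadingCoeff⁻¹ * f) (C f.leadingCoeff * g) ?_ ?_ ?_
    · rw [Monic, leadingCoeff_mul, leadingCoeff_C, inv_mul_cancel₀ hlc]
    · rw [natDegree_C_mul (inv_ne_zero hlc)]
      omega
    · have h1 : (C f.leadingCoeff⁻¹ : k[X]) * C f.leadingCoeff = 1 := by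
        rw [← C_mul, inv_mul_cancel₀ hlc, C_1]
      linear_combination (f * g) * h1

end nf

end Pool.Agent.R939.HI
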