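import Pool.Agent.R939.HI.Asm
import Pool.Agent.R939.HI.Nf2

/-!
# Almost all surfaces: assembly for all degrees
-/

set_option autoImplicit false
set_option linter.all false

namespace Pool.Agent.R939.HI

open Polynomial NumberField Pool.Agent.R939.EI Pool.Agent.W275.UB Pool.Agent.TH115.GD

section main

variable {k : Type} [Field k] [NumberField k] {J : Type} [Fintype J] (B : Module.Basis J ℤ (𝓞 k))
  {r s u : ℕ} {m : Fin s → ℕ} {n : Fin u → ℕ}

theorem coeffE1 (hr : 1 ≤ r) (i0 : Fin s) :
    (polE (aV (XX r m n)) (bV (XX r m n))).coeff (2 * r) ≠ 0 := by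
  intro h0
  have e : polE (Pi.single (Fin.last r) (2 : ℤ)) (fun _ _ => 0 : (i : Fin s) → Fin (m i + 1) → ℤ) =
      C 4 * X ^ (2 * r) := by
    unfold polE
    have h1 : polP (fun _ _ => 0 : (i : Fin s) → Fin (m i + 1) → ℤ) = 0 := by
      unfold polP
      refine Finset.prod_eq_zero (Finset.mem_univ i0) ?_
      unfold polA
      exact Finset.sum_eq_zero fun j _ => by rw [C_0, zero_mul]
    rw [h1, mul_zero, sub_zero, polA_single, Fin.val_last, mul_pow, C22, ← pow_mul,
      Nat.mul_comm r 2]
  have h1 := mapE_mk (n := n) (Pi.single (Fin.last r) (2 : ℤ))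
    (fun _ _ => 0 : (i : Fin s) → Fin (m i + 1) → ℤ) (fun _ _ => 0)
  rw [e] at h1
  have h2 := congrArg (fun f => Polynomial.coeff f (2 * r)) h1
  simp only [coeff_map, h0, map_zero, coeff_C_mul, coeff_X_pow, if_true, mul_one] at h2
  norm_num at h2

theorem coeffE2 : (polE (aV (XX r m n)) (bV (XX r m n))).coeff (∑ i, m i) ≠ 0 := by
  intro h0
  have e : polE (fun _ => 0 : Fin (r + 1) → ℤ)
      (fun i : Fin s => (Pi.single (Fin.last (m i)) 1 : Fin (m i + 1) → ℤ)) =
      C (-4) * X ^ (∑ i, m i) := by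
    unfold polE polP
    have h1 : polA (fun _ => 0 : Fin (r + 1) → ℤ) = 0 := by
      unfold polA
      exact Finset.sum_eq_zero fun j _ => by rw [C_0, zero_mul]
    have h2 : ∀ i : Fin s, polA (Pi.single (Fin.last (m i)) (1 : ℤ)) = X ^ m i := by
      intro i
      rw [polA_single, Fin.val_last, C_1, one_mul]
    rw [h1, Finset.prod_congr rfl fun i _ => h2 i, Finset.prod_pow_eq_pow_sum, C_neg, C44]
    ring
  have h1 := mapE_mk (n := n) (fun _ => 0 : Fin (r + 1) → ℤ)
    (fun i : Fin s => (Pi.single (Fin.last (m i)) 1 : Fin (m i + 1) → ℤ)) (fun _ _ => 0)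
  rw [e] at h1
  have h2 := congrArg (fun f => Polynomial.coeff f (∑ i, m i)) h1
  simp only [coeff_map, h0, map_zero, coeff_C_mul, coeff_X_pow, if_true, mul_one] at h2
  norm_num at h2

/-- the discriminant is irreducible and not a norm -/
theorem dens_disc (hr : 2 ≤ r) (hm : ∀ i, 1 ≤ m i) (i0 : Fin s) :
    D0 {x : Ix r m n × J → ℤ | ¬ (Irreducible (polE (aV (kv B x)) (bV (kv B x))) ∧
      NotNorm (polE (aV (kv B x)) (bV (kv B x))))} := by
  have hdegE : ∀ (x : Ix r m n × J → ℤ) (N : ℕ), 2 * r ≤ N → ∑ i, m i ≤ N →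
      ((polE (aV (XX r m n)) (bV (XX r m n))).map (av (kv B x))).coeff N ≠ 0 →
      ((polE (aV (XX r m n)) (bV (XX r m n))).map (av (kv B x))).natDegree = N := by
    intro x N h1 h2 h3
    refine le_antisymm ?_ (le_natDegree_of_ne_zero h3)
    rw [map_E]
    exact polE_deg h1 h2 _ _
  rcases lt_or_ge (∑ i, m i) (2 * r) with hlt | hge
  · -- `a²` dominates
    have h1 : D0 {x : Ix r m n × J → ℤ |
        ((polE (aV (XX r m n)) (bV (XX r m n))).map (av (kv B x))).coeff (2 * r) = 0} :=
      dens_lead B (coeffE1 (by omega) i0)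
    have h2 : D0 (RootSq B (polE (aV (XX r m n)) (bV (XX r m n))) 0 (2 * r - 1)) :=
      dens_E1 B (by omega) hlt.le i0
    have h3 : D0 (FacSet B (polE (aV (XX r m n)) (bV (XX r m n))) r) :=
      dens_E1' B hr hlt.le i0 (hm i0)
    intro ε hε
    refine (((h1.union h2).union h3) ε hε).mono ?_
    intro x hx
    by_contra hcon
    apply hx
    simp only [Set.mem_union, not_or] at hcon
    obtain ⟨⟨c1, c2⟩, c3⟩ := hcon
    have hd := hdegE x (2 * r) le_rfl hlt.le c1
    rw [← map_E]
    have hirr : Irreducible ((polE (aV (XX r m n)) (bV (XX r m n))).map (av (kv B x))) := by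
      refine irr_of_no_small (N := 2 * r - 1) (by omega) ?_
      intro f hf hN hdv
      refine not_rootSq B c2 hf hN hdv 0 ?_
      rw [Polynomial.map_zero, zero_pow two_ne_zero, sub_zero]
      exact dvd_zero _
    exact ⟨hirr, notNorm_of_irr hirr fun D hD => not_norm_of_facSet B c3 (by omega) hd hD⟩
  · have h1 : D0 {x : Ix r m n × J → ℤ |
        ((polE (aV (XX r m n)) (bV (XX r m n))).map (av (kv B x))).coeff (∑ i, m i) = 0} :=
      dens_lead B coeffE2
    rcases Nat.even_or_odd (∑ i, m i) with hev | hodd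
    · -- `b` dominates, even degree
      obtain ⟨N, hN⟩ := hev
      have hN2 : (∑ i, m i) / 2 = N := by omega
      have h2 : D0 (RootSq B (polE (aV (XX r m n)) (bV (XX r m n))) 0 ((∑ i, m i) / 2 - 1)) :=
        dens_E2 B (by omega) hge
      have h3 : D0 (FacSet B (polE (aV (XX r m n)) (bV (XX r m n))) ((∑ i, m i) / 2)) :=
        dens_E2' B (by omega) ⟨N, hN⟩ hge i0 (hm i0)
      rw [hN2] at h2 h3
      intro ε hε
      refine (((h1.union h2).union h3) ε hε).mono ?_
      intro x hx
      by_contra hcon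
      apply hx
      simp only [Set.mem_union, not_or] at hcon
      obtain ⟨⟨c1, c2⟩, c3⟩ := hcon
      have hd := hdegE x (∑ i, m i) hge le_rfl c1
      have hd' : ((polE (aV (XX r m n)) (bV (XX r m n))).map (av (kv B x))).natDegree = 2 * N := by
        omega
      rw [← map_E]
      have hirr : Irreducible ((polE (aV (XX r m n)) (bV (XX r m n))).map (av (kv B x))) := by
        refine irr_of_half (N := N) (by omega) hd' ?_ ?_
        · intro f hf hN hdv
          refine not_rootSq B c2 hf hN hdv 0 ?_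
          rw [Polynomial.map_zero, zero_pow two_ne_zero, sub_zero]
          exact dvd_zero _
        · intro f g hf hfd
          have h5 := not_facSet B c3 (K := k) (by rw [Module.finrank_self]; norm_num) f g hf hfd
          rwa [Algebra.algebraMap_self, Polynomial.map_id] at h5
      exact ⟨hirr, notNorm_of_irr hirr fun D hD => not_norm_of_facSet B c3 (by omega) hd' hD⟩
    · -- `b` dominates, odd degree
      have hlt : 2 * r < ∑ i, m i := by
        obtain ⟨N, hN⟩ := hodd
        omega
      have h2 : D0 (RootSq B (polE (aV (XX r m n)) (bV (XX r m n))) 0 (∑ i, m i - 1)) :=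
        dens_E B hodd hlt
      intro ε hε
      refine ((h1.union h2) ε hε).mono ?_
      intro x hx
      by_contra hcon
      apply hx
      simp only [Set.mem_union, not_or] at hcon
      obtain ⟨c1, c2⟩ := hcon
      have hd := hdegE x (∑ i, m i) hge le_rfl c1
      rw [← map_E]
      refine ⟨?_, notNorm_of_odd (by rw [hd]; exact hodd)⟩
      refine irr_of_no_small (N := ∑ i, m i - 1) (by omega) ?_
      intro f hf hN hdv
      refine not_rootSq B c2 hf hN hdv 0 ?_
      rw [Polynomial.map_zero, zero_pow two_ne_zero, sub_zero]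
      exact dvd_zero _

/-- `b` is a product of irreducible polynomials and not a norm -/
theorem dens_bb (hm : ∀ i, 1 ≤ m i) (i0 : Fin s) (hi0 : m i0 ≠ 2) (j0 : J) :
    D0 {x : Ix r m n × J → ℤ | ¬ ((∀ i, Irreducible (polA (bV (kv B x) i))) ∧
      NotNorm (polP (bV (kv B x))))} := by
  classical
  have h1 : D0 (⋃ i ∈ (Finset.univ : Finset (Fin s)), {x : Ix r m n × J → ℤ |
      MvPolynomial.eval x (MvPolynomial.X (Sum.inl (Sum.inr ⟨i, Fin.last (m i)⟩), j0)) = 0}) :=
    D0.biUnion _ _ fun i _ => zero _ (MvPolynomial.X_ne_zero _)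
  have h3 : D0 (⋃ i ∈ (Finset.univ : Finset (Fin s)),
      RootSq B (polA (bV (XX r m n) i)) 0 (m i - 1)) :=
    D0.biUnion _ _ fun i _ => dens_b B i (hm i)
  have h4 : D0 (⋃ j ∈ (Finset.univ.erase i0 : Finset (Fin s)),
      RootSq B (polA (bV (XX r m n) i0)) (polA (bV (XX r m n) j)) (m i0)) :=
    D0.biUnion _ _ fun j hj => dens_cop B i0 j (Finset.mem_erase.1 hj).1 (hm i0) (hm j)
  have h5 : D0 {x : Ix r m n × J → ℤ | 4 ≤ m i0 ∧ Even (m i0) ∧
      x ∈ FacSet B (polA (bV (XX r m n) i0)) (m i0 / 2)} := by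
    by_cases h : 4 ≤ m i0 ∧ Even (m i0)
    · intro ε hε
      refine (dens_b' B i0 h.1 h.2 ε hε).mono ?_
      intro x hx
      exact hx.2.2
    · have : {x : Ix r m n × J → ℤ | 4 ≤ m i0 ∧ Even (m i0) ∧
          x ∈ FacSet B (polA (bV (XX r m n) i0)) (m i0 / 2)} = ∅ := by
        ext x
        simp only [Set.mem_setOf_eq, Set.mem_empty_iff_false, iff_false]
        rintro ⟨h6, h7, -⟩
        exact h ⟨h6, h7⟩
      rw [this]
      intro ε hε
      refine (dens_b B i0 (hm i0) ε hε).mono ?_
      exact Set.empty_subset _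
  have hall := ((h1.union h3).union h4).union h5
  intro ε hε
  refine (hall ε hε).mono ?_
  intro x hx
  by_contra hcon
  apply hx
  simp only [Set.mem_union, not_or, Set.mem_iUnion, exists_prop, not_exists, not_and,
    Finset.mem_univ, forall_true_left, Finset.mem_erase, Set.mem_setOf_eq] at hcon
  obtain ⟨⟨⟨c1, c3⟩, c4⟩, c5⟩ := hcon
  have hbl : ∀ i, IsUnit (bV (kv B x) i (Fin.last (m i))) := by
    intro i
    refine isUnit_iff_ne_zero.2 (kv_ne B (j := j0) ?_)
    intro h0
    apply c1 i
    rw [MvPolynomial.eval_X]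
    exact h0
  have hq : ∀ i, Irreducible (polA (bV (kv B x) i)) := by
    intro i
    refine irr_of_no_small (N := m i - 1) ?_ ?_
    · rw [(lead_polA (hbl i)).1, Nat.sub_add_cancel (hm i)]
    · intro f hf hN hdv
      refine not_rootSq B (c3 i) hf hN (by rw [map_b]; exact hdv) 0 ?_
      rw [Polynomial.map_zero, zero_pow two_ne_zero, sub_zero]
      exact dvd_zero _
  refine ⟨hq, ?_⟩
  have hd0 : (polA (bV (kv B x) i0)).natDegree = m i0 := (lead_polA (hbl i0)).1
  have hN0 : NotNorm (polA (bV (kv B x) i0)) := by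
    rcases Nat.even_or_odd (m i0) with hev | hodd
    · have h4' : 4 ≤ m i0 := by
        have := hm i0
        obtain ⟨t, ht⟩ := hev
        omega
      refine notNorm_of_irr (hq i0) fun D hD => ?_
      have h6 := not_norm_of_facSet B (c5 h4' hev) (by omega) (by
        rw [map_b, hd0]
        obtain ⟨t, ht⟩ := hev
        omega) hD
      rwa [map_b] at h6
    · exact notNorm_of_odd (by rw [hd0]; exact hodd)
  unfold polP
  rw [← Finset.mul_prod_erase _ _ (Finset.mem_univ i0)]
  refine notNorm_of_factor (hq i0) ?_ hN0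
  intro hdv
  obtain ⟨j, hj, hjd⟩ := ((hq i0).prime.dvd_finsetProd_iff _).1 hdv
  refine not_rootSq B (c4 j ⟨(Finset.mem_erase.1 hj).1, trivial⟩) (hq i0) (by rw [hd0])
    (by rw [map_b]) 0 ?_
  rw [map_b, zero_pow two_ne_zero, sub_zero]
  exact hjd

end main

end Pool.Agent.R939.HI
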