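import Pool.Agent.W131.ND.Lmk
import Pool.Agent.W930.ND.Spl
import Pool.Agent.W505.UB.GenT
import Pool.Agent.W177.UB.Gen
import Pool.Agent.W883.UB.Dens
import Pool.Agent.W125.UB.Exu
import Pool.Agent.W410.UB.Urel
import Pool.Agent.W591.UB.Hit
import Pool.Agent.W925.UB.Densp
import Pool.Agent.W439.UB.Rel
import Pool.Agent.W930.UB.Newton
import Pool.Agent.W883.UB.Interp
import Pool.Agent.W800.UB.Sz
import Pool.Agent.W918.UB.Win
import Pool.Agent.W616.UB.Root
import Pool.Agent.W688.UB.Theta2
import Pool.Agent.W125.UB.FinT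
import Pool.Agent.W21.UB.Nfp
import Pool.Agent.W305.UB.Norm
import Pool.Agent.W500.UB.Tab
import Pool.Agent.W275.UB.Fin4

/-!
# Hilbert irreducibility with densities: the statements which are used
-/

set_option autoImplicit false

namespace Pool.Agent.R939.HI

open MvPolynomial Pool.Agent.W275.UB Pool.Agent.W275.ND Pool.Agent

theorem hit : S_hit := W591.UB.main W925.UB.Densp.main (W439.UB.Rel.main W930.UB.main)
  W883.UB.Interp.main W800.UB.Sz.main W918.UB.Win.main W616.UB.Root.main

theorem gen : S_gen := W177.UB.main W883.UB.Dens.main W125.UB.Exu.main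
  (W410.UB.Urel.main W883.UB.Dens.main hit)

theorem genT : S_genT := W505.UB.GenT.main gen

theorem lmk : S_lmk := W131.ND.Lmk.main W688.UB.Theta2.main W125.UB.FinT.tensor_main
  W21.UB.main W305.UB.Norm.main

theorem norm : S_norm := W305.UB.Norm.main

theorem tab : S_tab := W500.UB.Tab.main

theorem spl : S_spl := W930.ND.main

theorem zero {ι : Type} [Fintype ι] (c : MvPolynomial ι ℤ) (hc : c ≠ 0) :
    D0 {v : ι → ℤ | eval v c = 0} := D0_zero W883.UB.Dens.main c hc

end Pool.Agent.R939.HI
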