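import Pool.Agent.R939.HI.Local
import Pool.Agent.R939.HI.Trans
import Pool.Agent.R939.EI.Gen5

/-!
# Density zero: reducible polynomials, squares at the roots
-/

set_option autoImplicit false
set_option linter.all false

namespace Pool.Agent.R939.HI

open Polynomial Pool.Agent.R939.EI Pool.Agent.W275.UB

section lead

variable {A : Type} [CommRing A] [IsDomain A]

theorem lead_polA {n : ℕ} {c : Fin (n + 1) → A} (h : IsUnit (c (Fin.last n))) :
    (polA c).natDegree = n ∧ (polA c).leadingCoeff = c (Fin.last n) := by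
  have hc : (polA c).coeff n = c (Fin.last n) := by
    unfold polA
    rw [finset_sum_coeff, Finset.sum_eq_single (Fin.last n)]
    · simp
    · intro j _ hj
      rw [coeff_C_mul, coeff_X_pow, if_neg, mul_zero]
      intro h
      exact hj (Fin.ext h.symm)
    · intro h
      exact absurd (Finset.mem_univ _) h
  have hd : (polA c).natDegree = n := by
    refine le_antisymm (polA_natDegree c) (le_natDegree_of_ne_zero ?_)
    rw [hc]
    exact h.ne_zero
  refine ⟨hd, ?_⟩
  rw [leadingCoeff, hd, hc]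

theorem lead_polE {r s : ℕ} {m : Fin s → ℕ} {a : Fin (r + 1) → A}
    {β : (i : Fin s) → Fin (m i + 1) → A} (h2 : IsUnit (2 : A)) (hr : 2 * r < ∑ i, m i)
    (h : ∀ i, IsUnit (β i (Fin.last (m i)))) : IsUnit (polE a β).leadingCoeff ∧
      (polE a β).natDegree = ∑ i, m i := by
  have h4 : IsUnit (4 : A) := by
    have : (4 : A) = 2 ^ 2 := by norm_num
    rw [this]
    exact h2.pow 2
  have hp0 : ∀ i, polA (β i) ≠ 0 := by
    intro i h0
    have h1 := (lead_polA (h i)).2
    rw [h0, leadingCoeff_zero] at h1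
    exact (h i).ne_zero h1.symm
  have hP : (polP β).natDegree = ∑ i, m i := by
    unfold polP
    rw [natDegree_prod _ _ fun i _ => hp0 i]
    exact Finset.sum_congr rfl fun i _ => (lead_polA (h i)).1
  have hPl : IsUnit (polP β).leadingCoeff := by
    unfold polP
    rw [leadingCoeff_prod, IsUnit.prod_univ_iff]
    intro i
    rw [(lead_polA (h i)).2]
    exact h i
  have e4 : (4 : A[X]) = C 4 := by rw [map_ofNat]
  have h4P : (4 * polP β).natDegree = ∑ i, m i := by
    rw [e4, natDegree_C_mul h4.ne_zero, hP]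
  have ha : (polA a ^ 2).natDegree < (4 * polP β).natDegree := by
    rw [h4P]
    refine lt_of_le_of_lt (natDegree_pow_le.trans ?_) hr
    exact Nat.mul_le_mul_left 2 (polA_natDegree a)
  unfold polE
  constructor
  · rw [leadingCoeff_sub_of_degree_lt' (degree_lt_degree ha), e4, leadingCoeff_mul, leadingCoeff_C]
    exact (h4.mul hPl).neg
  · rw [natDegree_sub_eq_right_of_natDegree_lt ha, h4P]

end lead

section idx

/-- the coefficients of `a`, the `b i` and the `D l` -/
abbrev Ix (r : ℕ) {s : ℕ} (m : Fin s → ℕ) {u : ℕ} (n : Fin u → ℕ) : Type :=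
  IdxG r m ⊕ (Σ l : Fin u, Fin (n l + 1))

variable {r s u : ℕ} {m : Fin s → ℕ} {n : Fin u → ℕ} {R : Type}

def aV (v : Ix r m n → R) : Fin (r + 1) → R := fun j => v (Sum.inl (Sum.inl j))

def bV (v : Ix r m n → R) : (i : Fin s) → Fin (m i + 1) → R :=
  fun i j => v (Sum.inl (Sum.inr ⟨i, j⟩))

def dV (v : Ix r m n → R) : (l : Fin u) → Fin (n l + 1) → R :=
  fun l j => v (Sum.inr ⟨l, j⟩)

/-- the vector with given coefficients -/
def mk (ta : Fin (r + 1) → R) (tb : (i : Fin s) → Fin (m i + 1) → R)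
    (td : (l : Fin u) → Fin (n l + 1) → R) : Ix r m n → R
  | Sum.inl (Sum.inl j) => ta j
  | Sum.inl (Sum.inr ⟨i, j⟩) => tb i j
  | Sum.inr ⟨l, j⟩ => td l j

variable [CommRing R]

noncomputable abbrev XX (r : ℕ) {s : ℕ} (m : Fin s → ℕ) {u : ℕ} (n : Fin u → ℕ) :
    Ix r m n → MvPolynomial (Ix r m n) ℤ := fun i => MvPolynomial.X i

theorem ev_b (v : Ix r m n → R) (i : Fin s) (θ : R) :
    (polA (bV (XX r m n) i)).eval₂ (av v) θ = (polA (bV v i)).eval θ := by
  rw [← eval_map, polA_map]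
  simp only [bV, av_X]
  rfl

theorem ev_d (v : Ix r m n → R) (l : Fin u) (θ : R) :
    (polA (dV (XX r m n) l)).eval₂ (av v) θ = (polA (dV v l)).eval θ := by
  rw [← eval_map, polA_map]
  simp only [dV, av_X]
  rfl

theorem ev_P (v : Ix r m n → R) (θ : R) :
    (polP (bV (XX r m n))).eval₂ (av v) θ = (polP (bV v)).eval θ := by
  rw [← eval_map, polP_map]
  simp only [bV, av_X]
  rfl

theorem ev_E (v : Ix r m n → R) (θ : R) :
    (polE (aV (XX r m n)) (bV (XX r m n))).eval₂ (av v) θ = (polE (aV v) (bV v)).eval θ := by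
  rw [← eval_map, polE_map]
  simp only [aV, bV, av_X]
  rfl

theorem polE_ne : (polE (aV (XX r m n)) (bV (XX r m n))) ≠ 0 := by
  intro h0
  let v0 : Ix r m n → ℤ := mk (fun _ => 0) (fun i => Pi.single 0 1) (fun _ _ => 0)
  have h1 := congrArg (fun f => eval₂ (av v0) 0 f) h0
  simp only [ev_E, eval₂_zero] at h1
  have h2 : (polE (aV v0) (bV v0)).eval 0 = -4 := by
    unfold polE polP
    have ha : (polA (aV v0)) = 0 := by
      unfold polA
      refine Finset.sum_eq_zero fun j _ => ?_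
      simp [aV, v0, mk]
    have hb : ∀ i, (polA (bV v0 i)).eval 0 = 1 := by
      intro i
      rw [eval_polA, Finset.sum_eq_single 0]
      · simp [bV, v0, mk]
      · intro j _ hj
        simp [bV, v0, mk, Pi.single_eq_of_ne hj]
      · intro h
        exact absurd (Finset.mem_univ _) h
    rw [ha, eval_sub, eval_mul, eval_prod, Finset.prod_eq_one fun i _ => hb i]
    simp
  rw [h2] at h1
  norm_num at h1

theorem polA_X_ne {ι : Type} {q : ℕ} (e : Fin (q + 1) → ι) :
    (polA fun j => (MvPolynomial.X (e j) : MvPolynomial ι ℤ)) ≠ 0 := by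
  classical
  intro h0
  have h1 := congrArg (fun f => eval₂ (av (fun _ : ι => (1 : ℤ))) 1 f) h0
  simp only [eval₂_zero] at h1
  rw [← eval_map, polA_map, eval_polA] at h1
  simp at h1
  omega

end idx

section dens

variable {r s u : ℕ} {m : Fin s → ℕ} {n : Fin u → ℕ} {O J : Type} [CommRing O] [IsDomain O]
  [Fintype J] (ω : Module.Basis J ℤ O)

/-- The set of the parameters such that `P` has a root of degree at most `N` at which `Q` is a
square. -/
def RootSq {ι : Type} [Fintype ι] (P Q : (MvPolynomial ι ℤ)[X]) (N : ℕ) : Set (ι × J → ℤ) :=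
  {x : ι × J → ℤ | ∃ (K : Type) (_ : Field K) (_ : NumberField K) (σ : O →+* K) (θ w : K),
      Module.finrank ℚ K ≤ N * Fintype.card J ∧
      P.eval₂ (av (cv (fun j => σ (ω j)) fun q => (x q : K))) θ = 0 ∧
      w ^ 2 = Q.eval₂ (av (cv (fun j => σ (ω j)) fun q => (x q : K))) θ}

theorem p_ne {A : Type} [CommRing A] {π : A} {p N : ℕ} (h : ¬ π ^ N ∣ (p : A)) : (p : A) ≠ 0 := by
  intro h0
  rw [h0] at h
  exact h (dvd_zero _)

theorem two_unit {A : Type} [CommRing A] [IsDomain A] [IsDiscreteValuationRing A] {π : A}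
    (hπ : Irreducible π) {p : ℕ} (hp : p.Prime) (hp2 : p ≠ 2) (hπp : π ∣ (p : A)) :
    IsUnit (2 : A) := by
  have hodd : Odd p := hp.odd_of_ne_two hp2
  obtain ⟨q, hq⟩ := hodd
  by_contra h
  have h1 : π ∣ 2 := by
    have : (2 : A) ∈ IsLocalRing.maximalIdeal A := (IsLocalRing.mem_maximalIdeal _).2 h
    rw [hπ.maximalIdeal_eq, Ideal.mem_span_singleton] at this
    exact this
  apply hπ.not_isUnit
  refine isUnit_of_dvd_one ?_
  have : (1 : A) = (p : A) - 2 * q := by
    rw [hq]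
    push_cast
    ring
  rw [this]
  exact dvd_sub hπp (h1.mul_right _)

/-- reducible factors -/
theorem dens_b (i : Fin s) (hm : 1 ≤ m i) :
    D0 (RootSq ω (polA (bV (XX r m n) i)) 0 (m i - 1)) := by
  refine roots ω _ _ (polA_X_ne _) _ ?_
  intro p hp hp2
  refine ⟨mk (fun _ => 0) (fun i' => Pi.single (Fin.last _) 1 + Pi.single 0 (p : ℤ))
    (fun _ _ => 0), 2, ?_⟩
  intro K' _ A _ _ _ _ _ π hπ hπp hπN b hb θ w hθ _
  rw [Nat.sub_add_cancel hm] at hπN
  have hp0 : (p : A) ≠ 0 := p_ne hπN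
  have hbi : ∀ j, (p : A) ^ 2 ∣ bV b i j -
      (((Pi.single (Fin.last _) 1 + Pi.single 0 (p : ℤ) : Fin (m i + 1) → ℤ) j : ℤ) : A) :=
    fun j => hb (Sum.inl (Sum.inr ⟨i, j⟩))
  have hl0 : Fin.last (m i) ≠ 0 := by
    intro h
    have := congrArg Fin.val h
    simp at this
    omega
  have hlead : IsUnit (bV b i (Fin.last (m i))) := by
    have h1 := hbi (Fin.last (m i))
    rw [Pi.add_apply, Pi.single_eq_same, Pi.single_eq_of_ne hl0, add_zero, Int.cast_one] at h1
    have h2 := unit_add hπ isUnit_one ((hπp.trans (dvd_pow_self _ two_ne_zero)).trans h1)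
    rwa [add_sub_cancel] at h2
  replace hθ := (ev_b _ i θ).symm.trans hθ
  have hmap : polA (bV (fun i => algebraMap A K' (b i)) i) =
      (polA (bV b i)).map (algebraMap A K') := (polA_map _ _).symm
  rw [hmap] at hθ
  obtain ⟨θ₀, -, h0⟩ := int_root (by rw [(lead_polA hlead).2]; exact hlead) hθ
  obtain ⟨sx, hs⟩ := eval_near hbi θ₀
  simp only [Pi.add_apply, Int.cast_add, add_mul, Finset.sum_add_distrib] at hs
  rw [sum_single, sum_single, h0] at hs
  obtain ⟨e, c, uu, v, hu, hv, hec, hc⟩ := eis_val hπ hm hp0 hπp (θ := θ₀) (s := sx) (by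
    rw [Fin.val_last, Fin.val_zero, pow_zero, mul_one, Int.cast_one, one_mul, Int.cast_natCast] at hs
    linear_combination -hs)
  apply hπN
  rw [hu, hec]
  exact (pow_dvd_pow π (Nat.le_mul_of_pos_right _ hc)).mul_left _

/-- the discriminant -/
theorem dens_E (hm : Odd (∑ i, m i)) (hr : 2 * r < ∑ i, m i) :
    D0 (RootSq ω (polE (aV (XX r m n)) (bV (XX r m n))) 0 (∑ i, m i - 1)) := by
  refine roots ω _ _ polE_ne _ ?_
  intro p hp hp2
  refine ⟨mk (Pi.single 0 (2 * (p : ℤ))) (fun i' => Pi.single (Fin.last _) 1)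
    (fun _ _ => 0), 3, ?_⟩
  intro K' _ A _ _ _ _ _ π hπ hπp hπN b hb θ w hθ _
  rw [Nat.sub_add_cancel hm.pos] at hπN
  have hp0 : (p : A) ≠ 0 := p_ne hπN
  have h2 := two_unit hπ hp hp2 hπp
  have ha : ∀ j, (p : A) ^ 3 ∣ aV b j -
      (((Pi.single 0 (2 * (p : ℤ)) : Fin (r + 1) → ℤ) j : ℤ) : A) :=
    fun j => hb (Sum.inl (Sum.inl j))
  have hbi : ∀ i j, (p : A) ^ 3 ∣ bV b i j -
      (((Pi.single (Fin.last _) 1 : Fin (m i + 1) → ℤ) j : ℤ) : A) :=
    fun i j => hb (Sum.inl (Sum.inr ⟨i, j⟩))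
  have hlead : ∀ i, IsUnit (bV b i (Fin.last (m i))) := by
    intro i
    have h1 := hbi i (Fin.last (m i))
    rw [Pi.single_eq_same, Int.cast_one] at h1
    have h2 := unit_add hπ isUnit_one ((hπp.trans (dvd_pow_self _ three_ne_zero)).trans h1)
    rwa [add_sub_cancel] at h2
  replace hθ := (ev_E _ θ).symm.trans hθ
  have hmap : polE (aV (fun i => algebraMap A K' (b i))) (bV (fun i => algebraMap A K' (b i))) =
      (polE (aV b) (bV b)).map (algebraMap A K') := (polE_map _ _ _).symm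
  rw [hmap] at hθ
  obtain ⟨θ₀, -, h0⟩ := int_root (lead_polE h2 hr hlead).1 hθ
  obtain ⟨sa, hsa⟩ := eval_near ha θ₀
  have hsb : ∀ i, ∃ y, (polA (bV b i)).eval θ₀ = θ₀ ^ m i + (p : A) ^ 3 * y := by
    intro i
    obtain ⟨y, hy⟩ := eval_near (hbi i) θ₀
    refine ⟨y, ?_⟩
    rw [hy, sum_single, Fin.val_last, Int.cast_one, one_mul]
  choose y hy using hsb
  rw [sum_single, Fin.val_zero, pow_zero, mul_one, Int.cast_mul, Int.cast_natCast,
    Int.cast_ofNat] at hsa
  apply hπN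
  refine disc_val (θ := θ₀) (sa := sa) (y := y) hπ h2 hm hp0 hπp ?_
  unfold polE polP at h0
  rw [eval_sub, eval_pow, eval_mul, eval_prod, hsa, Finset.prod_congr rfl fun i _ => hy i] at h0
  have e4 : (4 : A[X]).eval θ₀ = 4 := by
    have : (4 : A[X]) = C 4 := by rw [map_ofNat]
    rw [this, eval_C]
  rw [e4] at h0
  exact sub_eq_zero.1 h0

/-- the target: `b = t`, `D = t ^ n + p`, `a = 0` -/
def tgt (n : Fin u → ℕ) (p : ℕ) (i0 : Fin s) : Ix r m n → ℤ :=
  mk (fun _ => 0) (fun i' => if i' = i0 then Pi.single 1 1 else Pi.single 0 1)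
      (fun _ => Pi.single (Fin.last _) 1 + Pi.single 0 (p : ℤ))

/-- the local analysis at the primes of `D` -/
theorem twist_local {K' : Type} [Field K'] {A : Type} [CommRing A] [IsDomain A]
    [IsDiscreteValuationRing A] [Algebra A K'] [IsFractionRing A K'] {π : A} {p : ℕ}
    (hp : p.Prime) (hp2 : p ≠ 2) {l : Fin u} (hn : 1 ≤ n l)
    (hπ : Irreducible π) (hπp : π ∣ (p : A)) (hπN : ¬ π ^ (n l + 1) ∣ (p : A))
    {i0 : Fin s} (hm : 1 ≤ m i0) {b : Ix r m n → A}
    (hb : ∀ i, (p : A) ^ 2 ∣ b i - ((tgt n p i0 i : ℤ) : A)) {θ : K'}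
    (hθ : (polA (dV (fun i => algebraMap A K' (b i)) l)).eval θ = 0) :
    (∃ U : A, IsUnit U ∧ (polP (bV (fun i => algebraMap A K' (b i)))).eval θ =
      algebraMap A K' (π * U)) ∧
    ∃ U : A, IsUnit U ∧ (polE (aV (fun i => algebraMap A K' (b i)))
      (bV (fun i => algebraMap A K' (b i)))).eval θ = algebraMap A K' (π * U) := by
  have hp0 : (p : A) ≠ 0 := p_ne hπN
  have h2 := two_unit hπ hp hp2 hπp
  have h4 : IsUnit (4 : A) := by
    have : (4 : A) = 2 ^ 2 := by norm_num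
    rw [this]
    exact h2.pow 2
  have hdl : ∀ j, (p : A) ^ 2 ∣ dV b l j -
      (((Pi.single (Fin.last _) 1 + Pi.single 0 (p : ℤ) : Fin (n l + 1) → ℤ) j : ℤ) : A) :=
    fun j => hb (Sum.inr ⟨l, j⟩)
  have hl0 : Fin.last (n l) ≠ 0 := by
    intro h
    have := congrArg Fin.val h
    simp at this
    omega
  have hlead : IsUnit (dV b l (Fin.last (n l))) := by
    have h1 := hdl (Fin.last (n l))
    rw [Pi.add_apply, Pi.single_eq_same, Pi.single_eq_of_ne hl0, add_zero, Int.cast_one] at h1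
    have h2 := unit_add hπ isUnit_one ((hπp.trans (dvd_pow_self _ two_ne_zero)).trans h1)
    rwa [add_sub_cancel] at h2
  have hmap : polA (dV (fun i => algebraMap A K' (b i)) l) =
      (polA (dV b l)).map (algebraMap A K') := (polA_map _ _).symm
  rw [hmap] at hθ
  obtain ⟨θ₀, hθ0, h0⟩ := int_root (by rw [(lead_polA hlead).2]; exact hlead) hθ
  obtain ⟨sx, hs⟩ := eval_near hdl θ₀
  simp only [Pi.add_apply, Int.cast_add, add_mul, Finset.sum_add_distrib] at hs
  rw [sum_single, sum_single, h0] at hs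
  obtain ⟨e, c, uu, v, hu, hv, hec, hc⟩ := eis_val hπ hn hp0 hπp (θ := θ₀) (s := sx) (by
    rw [Fin.val_last, Fin.val_zero, pow_zero, mul_one, Int.cast_one, one_mul, Int.cast_natCast] at hs
    linear_combination -hs)
  have hc1 : c = 1 := by
    by_contra hne
    have hc2 : 2 ≤ c := by omega
    apply hπN
    rw [hu, hec]
    refine (pow_dvd_pow π ?_).mul_left _
    nlinarith
  rw [hc1, pow_one] at hv
  -- the values of the factors
  have hP2 : ∃ g, (p : A) ^ 2 = π * (π * g) := by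
    obtain ⟨g, hg⟩ := hπp
    exact ⟨g ^ 2, by rw [hg]; ring⟩
  obtain ⟨g, hg⟩ := hP2
  have hbi : ∀ i j, (p : A) ^ 2 ∣ bV b i j - (((if i = i0 then Pi.single 1 1 else Pi.single 0 1 :
      Fin (m i + 1) → ℤ) j : ℤ) : A) := fun i j => hb (Sum.inl (Sum.inr ⟨i, j⟩))
  have hval0 : ∃ U : A, IsUnit U ∧ (polA (bV b i0)).eval θ₀ = π * U := by
    have h3 : ∀ j, (p : A) ^ 2 ∣ bV b i0 j - (((Pi.single 1 1 :
      Fin (m i0 + 1) → ℤ) j : ℤ) : A) := by
      intro j
      have := hbi i0 j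
      rwa [if_pos rfl] at this
    obtain ⟨y, hy⟩ := eval_near h3 θ₀
    have h11 : ((1 : Fin (m i0 + 1)) : ℕ) = 1 := by
      rw [Fin.val_one']
      exact Nat.mod_eq_of_lt (by omega)
    rw [sum_single, h11, pow_one, Int.cast_one, one_mul, hg] at hy
    refine ⟨v + π * (g * y), unit_add hπ v.isUnit (dvd_mul_right _ _), ?_⟩
    rw [hy]
    linear_combination hv
  have hval : ∀ i, i ≠ i0 → IsUnit ((polA (bV b i)).eval θ₀) := by
    intro i hi
    have h3 : ∀ j, (p : A) ^ 2 ∣ bV b i j - (((Pi.single 0 1 :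
      Fin (m i + 1) → ℤ) j : ℤ) : A) := by
      intro j
      have := hbi i j
      rwa [if_neg hi] at this
    obtain ⟨y, hy⟩ := eval_near h3 θ₀
    rw [sum_single, Fin.val_zero, pow_zero, mul_one, Int.cast_one, hg] at hy
    rw [hy]
    exact unit_add hπ isUnit_one ⟨π * g * y, by ring⟩
  have hPv : ∃ U : A, IsUnit U ∧ (polP (bV b)).eval θ₀ = π * U := by
    obtain ⟨U, hU, hUe⟩ := hval0
    refine ⟨U * ∏ i ∈ Finset.univ.erase i0, (polA (bV b i)).eval θ₀, hU.mul ?_, ?_⟩
    · rw [IsUnit.prod_iff]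
      intro i hi
      exact hval i (Finset.mem_erase.1 hi).1
    · unfold polP
      rw [eval_prod, ← Finset.mul_prod_erase _ _ (Finset.mem_univ i0), hUe]
      ring
  obtain ⟨U, hU, hUe⟩ := hPv
  have hmapP : polP (bV (fun i => algebraMap A K' (b i))) =
      (polP (bV b)).map (algebraMap A K') := (polP_map _ _).symm
  have hmapE : polE (aV (fun i => algebraMap A K' (b i))) (bV (fun i => algebraMap A K' (b i))) =
      (polE (aV b) (bV b)).map (algebraMap A K') := (polE_map _ _ _).symm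
  refine ⟨⟨U, hU, ?_⟩, ?_⟩
  · rw [hmapP, ← hθ0, eval_map, eval₂_at_apply, hUe]
  · have ha : ∀ j, (p : A) ^ 2 ∣ aV b j - (((0 : Fin (r + 1) → ℤ) j : ℤ) : A) :=
      fun j => hb (Sum.inl (Sum.inl j))
    obtain ⟨ya, hya⟩ := eval_near ha θ₀
    simp only [Pi.zero_apply, Int.cast_zero, zero_mul, Finset.sum_const_zero, zero_add] at hya
    refine ⟨-(4 * U) + π * (g * (π * π * g * ya ^ 2)), unit_add hπ (h4.mul hU).neg (dvd_mul_right _ _), ?_⟩
    rw [hmapE, ← hθ0, eval_map, eval₂_at_apply]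
    congr 1
    unfold polE
    have e4 : (4 : A[X]).eval θ₀ = 4 := by
      have : (4 : A[X]) = C 4 := by rw [map_ofNat]
      rw [this, eval_C]
    rw [eval_sub, eval_pow, eval_mul, hya, hUe, e4, hg]
    ring

/-- squares at the roots of `D` -/
theorem dens_DP (l : Fin u) (hn : 1 ≤ n l) (i0 : Fin s) (hm : 1 ≤ m i0) :
    D0 (RootSq ω (polA (dV (XX r m n) l)) (polP (bV (XX r m n))) (n l)) := by
  refine roots ω _ _ (polA_X_ne _) _ ?_
  intro p hp hp2
  refine ⟨tgt n p i0, 2, ?_⟩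
  · intro K' _ A _ _ _ _ _ π hπ hπp hπN b hb θ w hθ hw
    replace hθ := (ev_d _ l θ).symm.trans hθ
    obtain ⟨⟨U, hU, hUe⟩, -⟩ := twist_local hp hp2 hn hπ hπp hπN hm hb hθ
    replace hw := (hw.trans (ev_P _ θ)).trans hUe
    exact no_sqrt hπ hU hw

theorem dens_DE (l : Fin u) (hn : 1 ≤ n l) (i0 : Fin s) (hm : 1 ≤ m i0) :
    D0 (RootSq ω (polA (dV (XX r m n) l)) (polE (aV (XX r m n)) (bV (XX r m n))) (n l)) := by
  refine roots ω _ _ (polA_X_ne _) _ ?_
  intro p hp hp2
  refine ⟨tgt n p i0, 2, ?_⟩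
  · intro K' _ A _ _ _ _ _ π hπ hπp hπN b hb θ w hθ hw
    replace hθ := (ev_d _ l θ).symm.trans hθ
    obtain ⟨-, ⟨U, hU, hUe⟩⟩ := twist_local hp hp2 hn hπ hπp hπN hm hb hθ
    replace hw := (hw.trans (ev_E _ θ)).trans hUe
    exact no_sqrt hπ hU hw

end dens

end Pool.Agent.R939.HI
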