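import Pool.Agent.R939.HI.Trans

/-!
# Hilbert irreducibility with densities, for factors over extensions of bounded degree
-/

set_option autoImplicit false
set_option linter.all false

namespace Pool.Agent.R939.HI

open MvPolynomial Pool.Agent.W275.UB Pool.Agent.W275.ND Pool.Agent Pool.Agent.H927R2.RD

section subst

variable {ι J : Type} [Fintype J] (τ : Type)

/-- substitution of the coordinates for the parameters -/
noncomputable def sbT (ι J : Type) [Fintype J] :
    MvPolynomial ι ℤ →+* MvPolynomial (J ⊕ τ) (MvPolynomial (ι × J) ℤ) :=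
  av fun i => ∑ j, X (Sum.inl j) * C (X (i, j))

theorem eval_sbT {R : Type} [CommRing R] (φ : MvPolynomial (ι × J) ℤ →+* R) (y : J ⊕ τ → R) :
    (eval₂Hom φ y).comp (sbT τ ι J) =
      av (cv (fun j => y (Sum.inl j)) fun q => φ (X q)) := by
  rw [sbT, hom_av]
  congr 1
  funext i
  simp [cv]

variable {O : Type} [CommRing O] (ω : Module.Basis J ℤ O)

/-- the equations of the multiplication table -/
noncomputable def gTT (ι : Type) : Set (MvPolynomial (J ⊕ τ) (MvPolynomial (ι × J) ℤ)) :=
  (Set.range fun jl : J × J => X (Sum.inl jl.1) * X (Sum.inl jl.2) -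
    ∑ t, C (C (ω.repr (ω jl.1 * ω jl.2) t)) * X (Sum.inl t)) ∪
  {(∑ t, C (C (ω.repr 1 t)) * X (Sum.inl t)) - 1}

theorem eval_gTT {R : Type} [CommRing R] (φ : MvPolynomial (ι × J) ℤ →+* R) (y : J ⊕ τ → R) :
    (∀ g ∈ gTT τ ω ι, eval₂ φ y g = 0) ↔ Tab ω fun j => y (Sum.inl j) := by
  have hc : ∀ n : ℤ, φ (C n) = (n : R) := fun n => by
    have : (C n : MvPolynomial (ι × J) ℤ) = ((n : ℤ) : MvPolynomial (ι × J) ℤ) := by
      simp
    rw [this, map_intCast]
  constructor
  · intro h
    constructor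
    · intro j l
      have h1 := h _ (Or.inl ⟨(j, l), rfl⟩)
      simp only [eval₂_sub, eval₂_mul, eval₂_X, eval₂_sum, eval₂_C, hc] at h1
      exact sub_eq_zero.1 h1
    · have h1 := h _ (Or.inr rfl)
      simp only [eval₂_sub, eval₂_mul, eval₂_X, eval₂_sum, eval₂_C, hc, eval₂_one] at h1
      exact sub_eq_zero.1 h1
  · rintro ⟨h1, h2⟩ g hg
    rcases hg with ⟨⟨j, l⟩, rfl⟩ | rfl
    · simp only [eval₂_sub, eval₂_mul, eval₂_X, eval₂_sum, eval₂_C, hc]
      exact sub_eq_zero.2 (h1 j l)
    · simp only [eval₂_sub, eval₂_mul, eval₂_X, eval₂_sum, eval₂_C, hc, eval₂_one]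
      exact sub_eq_zero.2 h2

end subst

/-- the monic polynomial of degree `i` with lower coefficients `x` -/
noncomputable def pm {R : Type} [CommRing R] {i : ℕ} (x : Fin i → R) : Polynomial R :=
  Polynomial.X ^ i + ∑ j, Polynomial.C (x j) * Polynomial.X ^ (j : ℕ)

/-- the polynomial with coefficients `x` -/
noncomputable def pl {R : Type} [CommRing R] {i : ℕ} (x : Fin i → R) : Polynomial R :=
  ∑ j, Polynomial.C (x j) * Polynomial.X ^ (j : ℕ)

theorem pl_coeff {R : Type} [CommRing R] {i : ℕ} (x : Fin i → R) (l : ℕ) :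
    (pl x).coeff l = if h : l < i then x ⟨l, h⟩ else 0 := by
  unfold pl
  rw [Polynomial.finset_sum_coeff]
  simp only [Polynomial.coeff_C_mul, Polynomial.coeff_X_pow]
  by_cases h : l < i
  · rw [dif_pos h, Finset.sum_eq_single ⟨l, h⟩]
    · simp
    · intro j _ hj
      rw [if_neg, mul_zero]
      intro h1
      exact hj (Fin.ext h1.symm)
    · intro h1
      exact absurd (Finset.mem_univ _) h1
  · rw [dif_neg h]
    refine Finset.sum_eq_zero fun j _ => ?_
    rw [if_neg, mul_zero]
    intro h1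
    exact h (h1 ▸ j.2)

theorem pm_eq {R : Type} [CommRing R] {i : ℕ} (x : Fin i → R) : pm x = Polynomial.X ^ i + pl x := rfl

theorem pl_map {R R' : Type} [CommRing R] [CommRing R'] (f : R →+* R') {i : ℕ} (x : Fin i → R) :
    (pl x).map f = pl fun j => f (x j) := by
  unfold pl
  rw [Polynomial.map_sum]
  refine Finset.sum_congr rfl fun j _ => ?_
  rw [Polynomial.map_mul, Polynomial.map_C, Polynomial.map_pow, Polynomial.map_X]

theorem pm_map {R R' : Type} [CommRing R] [CommRing R'] (f : R →+* R') {i : ℕ} (x : Fin i → R) :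
    (pm x).map f = pm fun j => f (x j) := by
  rw [pm_eq, Polynomial.map_add, Polynomial.map_pow, Polynomial.map_X, pl_map, pm_eq]

theorem pl_deg {R : Type} [CommRing R] {i : ℕ} (x : Fin i → R) : (pl x).degree < i := by
  rw [Polynomial.degree_lt_iff_coeff_zero]
  intro l hl
  rw [pl_coeff, dif_neg (by omega)]

theorem pm_monic {R : Type} [CommRing R] {i : ℕ} (x : Fin i → R) : (pm x).Monic := by
  rw [pm_eq]
  exact Polynomial.monic_X_pow_add (pl_deg x)

theorem pm_natDegree {R : Type} [CommRing R] [Nontrivial R] {i : ℕ} (x : Fin i → R) :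
    (pm x).natDegree = i := by
  have h1 : (pm x).degree = i := by
    rw [pm_eq, Polynomial.degree_add_eq_left_of_degree_lt, Polynomial.degree_X_pow]
    rw [Polynomial.degree_X_pow]
    exact pl_deg x
  exact Polynomial.natDegree_eq_of_degree_eq_some h1

theorem eq_pm {R : Type} [CommRing R] {g : Polynomial R} (hg : g.Monic) :
    g = pm fun j : Fin g.natDegree => g.coeff j := by
  ext l
  rw [pm_eq, Polynomial.coeff_add, Polynomial.coeff_X_pow, pl_coeff]
  rcases lt_trichotomy l g.natDegree with h | h | h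
  · rw [if_neg (by omega), dif_pos h, zero_add]
  · rw [if_pos h, dif_neg (by omega), add_zero, h]
    exact hg
  · rw [if_neg (by omega), dif_neg (by omega), add_zero]
    exact Polynomial.coeff_eq_zero_of_natDegree_lt h

theorem eq_pl {R : Type} [CommRing R] {g : Polynomial R} {n : ℕ} (hg : g.natDegree < n) :
    g = pl fun j : Fin n => g.coeff j := by
  ext l
  rw [pl_coeff]
  by_cases h : l < n
  · rw [dif_pos h]
  · rw [dif_neg h]
    exact Polynomial.coeff_eq_zero_of_natDegree_lt (by omega)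

/-- the equations `g h = P` -/
noncomputable def gF {ι : Type} (J : Type) [Fintype J] (i n : ℕ) (P : Polynomial (MvPolynomial ι ℤ)) :
    Set (MvPolynomial (J ⊕ (Fin i ⊕ Fin n)) (MvPolynomial (ι × J) ℤ)) :=
  Set.range fun l : ℕ => (pm (fun j : Fin i => X (Sum.inr (Sum.inl j))) *
    pl (fun j : Fin n => X (Sum.inr (Sum.inr j))) - P.map (sbT (Fin i ⊕ Fin n) ι J)).coeff l

theorem eval_gF {ι J : Type} [Fintype J] {i n : ℕ} (P : Polynomial (MvPolynomial ι ℤ)) {R : Type}
    [CommRing R] (φ : MvPolynomial (ι × J) ℤ →+* R) (y : J ⊕ (Fin i ⊕ Fin n) → R) :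
    (∀ g ∈ gF J i n P, eval₂ φ y g = 0) ↔
      pm (fun j : Fin i => y (Sum.inr (Sum.inl j))) * pl (fun j : Fin n => y (Sum.inr (Sum.inr j))) =
        P.map (av (cv (fun j => y (Sum.inl j)) fun q => φ (X q))) := by
  have key : ∀ l, eval₂ φ y ((pm (fun j : Fin i => (X (Sum.inr (Sum.inl j)) :
      MvPolynomial (J ⊕ (Fin i ⊕ Fin n)) (MvPolynomial (ι × J) ℤ))) *
      pl (fun j : Fin n => X (Sum.inr (Sum.inr j))) - P.map (sbT (Fin i ⊕ Fin n) ι J)).coeff l) =
      (pm (fun j : Fin i => y (Sum.inr (Sum.inl j))) *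
        pl (fun j : Fin n => y (Sum.inr (Sum.inr j))) -
        P.map (av (cv (fun j => y (Sum.inl j)) fun q => φ (X q)))).coeff l := by
    intro l
    rw [← coe_eval₂Hom, ← Polynomial.coeff_map, Polynomial.map_sub, Polynomial.map_mul, pm_map,
      pl_map, Polynomial.map_map, eval_sbT]
    simp
  constructor
  · intro h
    rw [← sub_eq_zero]
    ext l
    rw [← key, Polynomial.coeff_zero]
    exact h _ ⟨l, rfl⟩
  · rintro h _ ⟨l, rfl⟩
    have h1 := key l
    rw [h, sub_self, Polynomial.coeff_zero] at h1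
    exact h1

section alg

theorem isAlg_factor {E Ω : Type} [Field E] [Field Ω] [IsAlgClosed Ω] [Algebra E Ω]
    {f g h : Polynomial Ω} (hf : f ≠ 0) (hc : ∀ n, IsAlgebraic E (f.coeff n)) (hg : g.Monic)
    (e : g * h = f) : (∀ n, IsAlgebraic E (g.coeff n)) ∧ ∀ n, IsAlgebraic E (h.coeff n) := by
  let E' := algebraicClosure E Ω
  have hl : ∀ q : Polynomial Ω, q ∈ Polynomial.lifts (algebraMap E' Ω) ↔
      ∀ n, IsAlgebraic E (q.coeff n) := by
    intro q
    rw [Polynomial.lifts_iff_coeff_lifts]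
    constructor
    · intro h n
      obtain ⟨z, hz⟩ := h n
      rw [← hz]
      exact mem_algebraicClosure_iff.1 z.2
    · intro h n
      exact ⟨⟨q.coeff n, mem_algebraicClosure_iff.2 (h n)⟩, rfl⟩
  have hgl : g ∈ Polynomial.lifts (algebraMap E' Ω) := by
    have hsp : g.Splits := IsAlgClosed.splits g
    have h1 : g = (g.roots.map fun a => Polynomial.X - Polynomial.C a).prod := by
      have := hsp.eq_prod_roots_of_monic hg
      exact this
    rw [h1]
    refine Subsemiring.multiset_prod_mem _ _ ?_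
    intro q hq
    obtain ⟨a, ha, rfl⟩ := Multiset.mem_map.1 hq
    have hroot : g.eval a = 0 := (Polynomial.mem_roots'.1 ha).2
    have halg : IsAlgebraic E a := isAlg_root hf hc (by rw [← e, Polynomial.eval_mul, hroot, zero_mul])
    rw [hl]
    intro n
    rw [Polynomial.coeff_sub, Polynomial.coeff_C, Polynomial.coeff_X]
    refine IsAlgebraic.sub ?_ ?_
    · split_ifs
      · exact isAlgebraic_one
      · exact isAlgebraic_zero
    · split_ifs
      · exact halg
      · exact isAlgebraic_zero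
  refine ⟨(hl g).1 hgl, ?_⟩
  obtain ⟨f', hf'⟩ := (Polynomial.mem_lifts _).1 ((hl f).2 hc)
  obtain ⟨g', hg'⟩ := (Polynomial.mem_lifts _).1 hgl
  have hg'm : g'.Monic := by
    have : (g'.map (algebraMap E' Ω)).Monic := by rw [hg']; exact hg
    exact Polynomial.monic_of_injective (algebraMap E' Ω).injective this
  rw [← hl]
  rw [Polynomial.mem_lifts]
  refine ⟨f' /ₘ g', ?_⟩
  rw [Polynomial.map_divByMonic _ hg'm, hf', hg', ← e]
  exact Polynomial.mul_divByMonic_cancel_left _ hg

end alg

/-- **Factors over extensions of small degree.** -/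
theorem factors {O J ι : Type} [CommRing O] [IsDomain O] [Fintype J] [Fintype ι]
    (ω : Module.Basis J ℤ O) (P : Polynomial (MvPolynomial ι ℤ)) (hP : P ≠ 0) (N i : ℕ)
    (hloc : ∀ p : ℕ, p.Prime → p ≠ 2 → ∃ (a : ι → ℤ) (M : ℕ), ∀ (K' : Type) [Field K'] (A : Type)
      [CommRing A] [IsDomain A] [IsDiscreteValuationRing A] [Algebra A K'] [IsFractionRing A K']
      (π : A), Irreducible π → π ∣ (p : A) → ¬ π ^ (N + 1) ∣ (p : A) → ∀ b : ι → A,
      (∀ i, (p : A) ^ M ∣ b i - (a i : A)) → ∀ g h : Polynomial K', g.Monic → g.natDegree = i →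
      g * h ≠ P.map (av fun i => algebraMap A K' (b i))) :
    D0 {x : ι × J → ℤ | ∃ (K : Type) (_ : Field K) (_ : NumberField K) (σ : O →+* K)
      (g h : Polynomial K), Module.finrank ℚ K ≤ N * Fintype.card J ∧ g.Monic ∧ g.natDegree = i ∧
      g * h = P.map (av (cv (fun j => σ (ω j)) fun q => (x q : K)))} := by
  classical
  set n := P.natDegree + 1 with hn
  by_contra hcon
  have hcon' : ¬ (∀ ε : ℝ, 0 < ε → UD ε {x : ι × J → ℤ |
      ∃ (K : Type) (_ : Field K) (_ : NumberField K) (y : J ⊕ (Fin i ⊕ Fin n) → K),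
        Module.finrank ℚ K ≤ N * Fintype.card J ∧
        (∀ g ∈ gTT (Fin i ⊕ Fin n) ω ι ∪ gF J i n P,
          eval₂ ((Int.castRingHom K).comp (eval x)) y g = 0) ∧
        eval₂ ((Int.castRingHom K).comp (eval x)) y 1 ≠ 0}) := by
    intro h
    apply hcon
    intro ε hε
    refine (h ε hε).mono ?_
    rintro x ⟨K, _, _, σ, g, h, hK, hgm, hgd, hgh⟩
    have hx : ∀ q : ι × J, ((Int.castRingHom K).comp (eval x)) (X q) = (x q : K) := by
      intro q
      simp
    have hhd : h.natDegree < n := by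
      by_cases hh : h = 0
      · rw [hh, Polynomial.natDegree_zero]; omega
      · have h1 : (g * h).natDegree ≤ P.natDegree := by
          rw [hgh]
          exact Polynomial.natDegree_map_le
        rw [Polynomial.natDegree_mul hgm.ne_zero hh] at h1
        omega
    refine ⟨K, inferInstance, inferInstance, Sum.elim (fun j => σ (ω j))
      (Sum.elim (fun j => g.coeff j) fun j => h.coeff j), hK, ?_, ?_⟩
    · rintro f (hf | hf)
      · exact (eval_gTT _ ω _ _).2 ((tab O J K ω _).2 ⟨σ, fun j => rfl⟩) f hf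
      · refine (eval_gF P _ _).2 ?_ f hf
        simp only [hx, Sum.elim_inl, Sum.elim_inr]
        subst hgd
        rw [← eq_pm hgm, ← eq_pl hhd]
        exact hgh
    · rw [eval₂_one]
      exact one_ne_zero
  obtain ⟨L, _, _, y, hfd, hdeg, hy, -⟩ := genT (ι × J) (J ⊕ (Fin i ⊕ Fin n)) (N * Fintype.card J)
    (gTT (Fin i ⊕ Fin n) ω ι ∪ gF J i n P) 1 (by
      intro Ω _ _ _ y hy
      obtain ⟨σ, hσ⟩ := (tab O J Ω ω _).1 ((eval_gTT _ ω _ _).1 fun g hg => hy g (Or.inl hg))
      have h1 := (eval_gF P _ _).1 fun g hg => hy g (Or.inr hg)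
      set v : ι → Ω := cv (fun j => y (Sum.inl j)) fun q => gn (ι × J) Ω (X q) with hv
      have hint : ∀ x : O, IsIntegral ℤ (σ x) := by
        intro x
        haveI : Module.Finite ℤ O := Module.Finite.of_basis ω
        have h1 : IsIntegral ℤ x := Algebra.IsIntegral.isIntegral x
        have h2 := h1.map (σ.toIntAlgHom)
        exact h2
      have hz : ∀ j, IsAlgebraic (EE (ι × J)) (y (Sum.inl j)) := by
        intro j
        rw [show y (Sum.inl j) = σ (ω j) from hσ j]
        obtain ⟨p, hp, hpx⟩ := hint (ω j)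
        refine IsIntegral.isAlgebraic
          ⟨p.map (Int.castRingHom (EE (ι × J))), hp.map _, ?_⟩
        rw [Polynomial.eval₂_map]
        have h2 : (algebraMap (EE (ι × J)) Ω).comp
            (Int.castRingHom (EE (ι × J))) = algebraMap ℤ Ω := RingHom.ext_int _ _
        rw [h2]
        exact hpx
      have hvalg : ∀ i, IsAlgebraic (EE (ι × J)) (v i) := by
        intro i
        rw [hv]
        simp only [cv]
        refine Finset.sum_induction _ (IsAlgebraic (EE (ι × J))) (fun _ _ => IsAlgebraic.add)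
          isAlgebraic_zero ?_
        intro j _
        exact (hz j).mul (isAlgebraic_algebraMap _)
      have hne : ∀ c : MvPolynomial ι ℤ, c ≠ 0 → av v c ≠ 0 := by
        intro c hc
        obtain ⟨cn, hcn, hdiv⟩ := norm O J ι ω c hc
        have h3 := hdiv Ω σ fun q => gn (ι × J) Ω (X q)
        rw [gn_aeval] at h3
        have h4 := ne_zero_of_dvd_ne_zero (gn_ne_zero cn hcn) h3
        rw [av_aeval]
        have h5 : (fun j => σ (ω j)) = fun j => y (Sum.inl j) := funext fun j => (hσ j).symm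
        rwa [h5] at h4
      have hPv : P.map (av v) ≠ 0 := by
        obtain ⟨n, hn⟩ : ∃ n, P.coeff n ≠ 0 := by
          by_contra h
          push Not at h
          exact hP (Polynomial.ext h)
        intro h0
        have := congrArg (fun f => Polynomial.coeff f n) h0
        simp only [Polynomial.coeff_map, Polynomial.coeff_zero] at this
        exact hne _ hn this
      obtain ⟨hga, hha⟩ := isAlg_factor (E := EE (ι × J)) hPv (fun n => by
        rw [Polynomial.coeff_map]
        exact isAlg_av hvalg _) (pm_monic _) h1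
      intro t
      rcases t with j | j | j
      · exact hz j
      · have h5 := hga j
        rw [pm_eq, Polynomial.coeff_add, Polynomial.coeff_X_pow, if_neg (by have := j.2; omega),
          zero_add, pl_coeff, dif_pos j.2] at h5
        exact h5
      · have h5 := hha j
        rw [pl_coeff, dif_pos j.2] at h5
        exact h5) hcon'
  haveI := hfd
  obtain ⟨σ, hσ⟩ := (tab O J L ω _).1 ((eval_gTT _ ω _ _).1 fun g hg => hy g (Or.inl hg))
  have h1 := (eval_gF P _ _).1 fun g hg => hy g (Or.inr hg)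
  have hσ' : (fun j => y (Sum.inl j)) = fun j => σ (ω j) := funext hσ
  rw [hσ'] at h1
  obtain ⟨p, hp, hp2, ⟨σ₀⟩⟩ := spl2 O J ω
  obtain ⟨a, M, hno⟩ := hloc p hp.1 hp2
  have hJ : 0 < Fintype.card J := by
    rw [Fintype.card_pos_iff]
    by_contra hemp
    rw [not_nonempty_iff] at hemp
    have : Subsingleton O := ω.repr.toEquiv.subsingleton
    exact not_subsingleton O this
  obtain ⟨K', _, φ, A, _, _, _, _, _, π, b, hπ, hπp, hπN, hb, hba⟩ :=
    lmk O J ω p σ₀ ι a 0 M (N + 1) L σ
      (lt_of_le_of_lt hdeg (Nat.mul_lt_mul_of_pos_right (Nat.lt_succ_self N) hJ))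
  refine hno K' A π hπ hπp hπN b hba
    ((pm (fun j : Fin i => y (Sum.inr (Sum.inl j)))).map φ)
    ((pl (fun j : Fin n => y (Sum.inr (Sum.inr j)))).map φ) ((pm_monic _).map φ) ?_ ?_
  · rw [(pm_monic _).natDegree_map, pm_natDegree]
  · rw [← Polynomial.map_mul, h1, Polynomial.map_map, hom_av]
    simp only [hb, pow_zero, one_mul]

end Pool.Agent.R939.HI
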