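import Pool.Agent.R939.HI.Newt
import Pool.Agent.R939.HI.Trans2
import Pool.Agent.R939.HI.Inst

/-!
# Density zero: roots and factors from the coefficients of a local target
-/

set_option autoImplicit false
set_option linter.all false

namespace Pool.Agent.R939.HI

open Polynomial Pool.Agent.R939.EI Pool.Agent.W275.UB

section near

variable {ι A : Type} [CommRing A]

theorem av_near {b : ι → A} {a : ι → ℤ} {q : A} (h : ∀ i, q ∣ b i - (a i : A))
    (c : MvPolynomial ι ℤ) : q ∣ av b c - ((av a c : ℤ) : A) := by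
  set I := Ideal.span {q}
  have h1 : ((Ideal.Quotient.mk I).comp (av b)) =
      ((Ideal.Quotient.mk I).comp (Int.castRingHom A)).comp (av a) := by
    rw [hom_av, hom_av]
    congr 1
    funext i
    rw [RingHom.comp_apply, eq_intCast (Int.castRingHom A)]
    exact (Ideal.Quotient.eq).2 (Ideal.mem_span_singleton.2 (h i))
  have h2 := RingHom.congr_fun h1 c
  rw [RingHom.comp_apply, RingHom.comp_apply, RingHom.comp_apply,
    eq_intCast (Int.castRingHom A)] at h2
  exact Ideal.mem_span_singleton.1 ((Ideal.Quotient.eq).1 h2)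

theorem coeff_near {b : ι → A} {a : ι → ℤ} {q : A} (h : ∀ i, q ∣ b i - (a i : A))
    (P : (MvPolynomial ι ℤ)[X]) (j : ℕ) :
    ∃ z, (P.map (av b)).coeff j = (((P.map (av a)).coeff j : ℤ) : A) + q * z := by
  rw [coeff_map, coeff_map]
  obtain ⟨z, hz⟩ := av_near h (P.coeff j)
  exact ⟨z, by rw [← hz]; ring⟩

end near

section dvr

variable {A : Type} [CommRing A] [IsDomain A] [IsDiscreteValuationRing A]
  {K : Type} [Field K] [Algebra A K] [IsFractionRing A K]

theorem unit_int {π : A} (hπ : Irreducible π) {p : ℕ} (hπp : π ∣ (p : A)) {z : ℤ}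
    (hz : IsCoprime z (p : ℤ)) : IsUnit (z : A) := by
  obtain ⟨x, y, hxy⟩ := hz
  by_contra h
  have h1 : π ∣ (z : A) := by
    have : (z : A) ∈ IsLocalRing.maximalIdeal A := (IsLocalRing.mem_maximalIdeal _).2 h
    rw [hπ.maximalIdeal_eq, Ideal.mem_span_singleton] at this
    exact this
  apply hπ.not_isUnit
  refine isUnit_of_dvd_one ?_
  have : (1 : A) = x * z + y * p := by
    have := congrArg (fun t : ℤ => (t : A)) hxy
    push_cast at this
    exact this.symm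
  rw [this]
  exact dvd_add (h1.mul_left _) (hπp.mul_left _)

/-- the valuation of a root -/
theorem val_root {π P θ x y s : A} {N k : ℕ} (hπ : Irreducible π) (hN : 1 ≤ N) (hk : 1 ≤ k)
    (hP0 : P ≠ 0) (hπP : π ∣ P) (hx : IsUnit x) (hy : IsUnit y)
    (h : x * θ ^ N + P ^ k * y + P ^ (k + 1) * s = 0) :
    ∃ (e c : ℕ) (u v : Aˣ), P = u * π ^ e ∧ θ = v * π ^ c ∧ k * e = N * c ∧ 1 ≤ c := by
  have hU : IsUnit (y + P * s) := unit_add hπ hy (hπP.mul_right _)
  have h1 : x * θ ^ N = -(P ^ k * (y + P * s)) := by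
    rw [pow_succ] at h
    linear_combination h
  have hθ : θ ≠ 0 := by
    rintro rfl
    rw [zero_pow (by omega), mul_zero] at h1
    exact mul_ne_zero (pow_ne_zero k hP0) hU.ne_zero (neg_eq_zero.1 h1.symm)
  obtain ⟨e, u, hu⟩ := IsDiscreteValuationRing.eq_unit_mul_pow_irreducible hP0 hπ
  obtain ⟨c, v, hv⟩ := IsDiscreteValuationRing.eq_unit_mul_pow_irreducible hθ hπ
  have h2 : (x * (v : A) ^ N) * π ^ (N * c) = -(u ^ k * (y + P * s)) * π ^ (k * e) := by
    calc (x * (v : A) ^ N) * π ^ (N * c) = x * θ ^ N := by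
          rw [hv, mul_pow, ← pow_mul, Nat.mul_comm c N, mul_assoc]
      _ = -(P ^ k * (y + P * s)) := h1
      _ = -(u ^ k * (y + P * s)) * π ^ (k * e) := by
          have : P ^ k = (u * π ^ e) ^ k := by rw [← hu]
          rw [this, mul_pow, ← pow_mul, Nat.mul_comm e k]
          ring
  have h3 := exp_eq hπ (hx.mul (v.isUnit.pow N)) ((u.isUnit.pow k).mul hU).neg h2
  refine ⟨e, c, u, v, hu, hv, h3.symm, ?_⟩
  rcases Nat.eq_zero_or_pos c with hc | hc
  · exfalso
    rw [hc, Nat.mul_zero] at h3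
    have he : e = 0 := by
      rcases Nat.mul_eq_zero.1 h3.symm with h4 | h4
      · omega
      · exact h4
    rw [he, pow_zero, mul_one] at hu
    exact hπ.not_isUnit (isUnit_of_dvd_unit hπP (hu ▸ u.isUnit))
  · exact hc

end dvr

section loc

variable {ι : Type} {P : (MvPolynomial ι ℤ)[X]} {N : ℕ}
  {K' : Type} [Field K'] {A : Type} [CommRing A] [IsDomain A] [IsDiscreteValuationRing A]
  [Algebra A K'] [IsFractionRing A K'] {π : A} {p : ℕ}

theorem lead_target (hdeg : P.natDegree ≤ N) {a : ι → ℤ} (hπ : Irreducible π)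
    (hπp : π ∣ (p : A)) (hTN : IsCoprime ((P.map (av a)).coeff N) (p : ℤ)) {M : ℕ} (hM : 1 ≤ M)
    {b : ι → A} (hb : ∀ i, (p : A) ^ M ∣ b i - (a i : A)) :
    IsUnit ((P.map (av b)).coeff N) ∧ (P.map (av b)).natDegree = N ∧
      IsUnit (P.map (av b)).leadingCoeff := by
  have h1 : IsUnit ((P.map (av b)).coeff N) := by
    obtain ⟨z, hz⟩ := coeff_near hb P N
    rw [hz]
    exact unit_add hπ (unit_int hπ hπp hTN) ((hπp.trans (dvd_pow_self _ (by omega))).mul_right _)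
  have h2 : (P.map (av b)).natDegree = N :=
    le_antisymm (natDegree_map_le.trans hdeg) (le_natDegree_of_ne_zero h1.ne_zero)
  exact ⟨h1, h2, by rw [leadingCoeff, h2]; exact h1⟩

theorem map_map_av (b : ι → A) : P.map (av fun i => algebraMap A K' (b i)) =
    (P.map (av b)).map (algebraMap A K') := by
  rw [Polynomial.map_map, hom_av]

/-- the roots near a target of Newton type -/
theorem loc_root (hN : 1 ≤ N) (hdeg : P.natDegree ≤ N) {k : ℕ} (hk : 1 ≤ k) {a : ι → ℤ} {w : ℤ}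
    (hw : IsCoprime w (p : ℤ)) (hT0 : (P.map (av a)).coeff 0 = (p : ℤ) ^ k * w)
    (hTN : IsCoprime ((P.map (av a)).coeff N) (p : ℤ))
    (hTj : ∀ j, j ≠ 0 → j ≠ N → (P.map (av a)).coeff j = 0)
    (hπ : Irreducible π) (hπp : π ∣ (p : A)) (hp0 : (p : A) ≠ 0) {b : ι → A}
    (hb : ∀ i, (p : A) ^ (k + 1) ∣ b i - (a i : A)) {θ : K'}
    (hθ : P.eval₂ (av fun i => algebraMap A K' (b i)) θ = 0) :
    ∃ (e c : ℕ) (u v : Aˣ), (p : A) = u * π ^ e ∧ algebraMap A K' (v * π ^ c) = θ ∧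
      k * e = N * c ∧ 1 ≤ c := by
  obtain ⟨hu, hd, hl⟩ := lead_target hdeg hπ hπp hTN (by omega) hb
  rw [← eval_map, map_map_av] at hθ
  obtain ⟨θ₀, hθ₀, h0⟩ := int_root hl hθ
  have h1 : (C ((p : A) ^ (k + 1))) ∣ P.map (av b) -
      (C (((P.map (av a)).coeff N : ℤ) : A) * X ^ N + C ((p : A) ^ k * (w : A))) := by
    rw [C_dvd_iff_dvd_coeff]
    intro j
    obtain ⟨z, hz⟩ := coeff_near hb P j
    rw [coeff_sub, hz, coeff_add, coeff_C_mul, coeff_X_pow, coeff_C]
    by_cases hjN : j = N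
    · rw [if_pos hjN, if_neg (by omega), hjN]
      exact ⟨z, by ring⟩
    · by_cases hj0 : j = 0
      · rw [if_neg hjN, if_pos hj0, hj0, hT0]
        refine ⟨z, ?_⟩
        push_cast
        ring
      · rw [if_neg hjN, if_neg hj0, hTj j hj0 hjN]
        exact ⟨z, by push_cast; ring⟩
  obtain ⟨s, hs⟩ := h1
  have h2 := congrArg (Polynomial.eval θ₀) hs
  rw [eval_sub, h0, eval_add, eval_mul, eval_C, eval_pow, eval_X, eval_C, eval_mul, eval_C] at h2
  obtain ⟨e, c, u, v, h3, h4, h5, h6⟩ := val_root (s := s.eval θ₀) hπ hN hk hp0 hπp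
    (unit_int hπ hπp hTN) (unit_int hπ hπp hw) (θ := θ₀) (by linear_combination -h2)
  exact ⟨e, c, u, v, h3, by rw [← h4]; exact hθ₀, h5, h6⟩

/-- factors near a target with the Newton polygon of `t ^ N + p t` -/
theorem loc_fac1 (hN : 4 ≤ N) (hev : Even N) (hdeg : P.natDegree ≤ N) {a : ι → ℤ} {w : ℤ}
    (hw : IsCoprime w (p : ℤ)) (hT1 : (P.map (av a)).coeff 1 = (p : ℤ) * w)
    (hTN : IsCoprime ((P.map (av a)).coeff N) (p : ℤ))
    (hTj : ∀ j, j ≠ 1 → j ≠ N → (P.map (av a)).coeff j = 0)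
    (hπ : Irreducible π) (hπp : π ∣ (p : A)) (hπN : ¬ π ^ 3 ∣ (p : A)) {b : ι → A}
    (hb : ∀ i, (p : A) ^ 2 ∣ b i - (a i : A)) {g h : K'[X]} (hg : g.Monic)
    (hgd : g.natDegree = N / 2) : g * h ≠ P.map (av fun i => algebraMap A K' (b i)) := by
  intro e
  have hp0 : (p : A) ≠ 0 := p_ne hπN
  obtain ⟨hu, hd, hl⟩ := lead_target hdeg hπ hπp hTN (by omega) hb
  rw [map_map_av] at e
  obtain ⟨E, u, hE⟩ := IsDiscreteValuationRing.eq_unit_mul_pow_irreducible hp0 hπ
  have hE1 : 1 ≤ E := by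
    rw [hE, ← pow_one π, ← pow_mul, one_mul] at hπp
    exact (pow_dvd_unit hπ).1 hπp
  have hE2 : E ≤ 2 := by
    rw [hE, pow_dvd_unit hπ] at hπN
    omega
  set F := P.map (av b) with hF
  have ex1 : Ex π (N - 1) E (E * N) 1 (F.coeff 1) := by
    obtain ⟨z, hz⟩ := coeff_near hb P 1
    have hU : IsUnit ((w : A) + (p : A) * z) := unit_add hπ (unit_int hπ hπp hw) (hπp.mul_right _)
    obtain ⟨U, hU'⟩ := hU
    refine ⟨E, u * U, ?_, ?_⟩
    · rw [hF, hz, hT1, Units.val_mul, hU']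
      push_cast
      calc (p : A) * w + (p : A) ^ 2 * z = (p : A) * (w + p * z) := by ring
        _ = (u * π ^ E) * (w + p * z) := by rw [← hE]
        _ = _ := by ring
    · have : N - 1 + 1 = N := by omega
      calc (N - 1) * E + E * 1 = E * (N - 1 + 1) := by ring
        _ = E * N := by rw [this]
  have exN : Ex π (N - 1) E (E * N) N (F.coeff N) := by
    obtain ⟨U, hU⟩ := hu
    exact ⟨0, U, by rw [hU, pow_zero, mul_one], by ring⟩
  have hge : ∀ j, j ≠ 1 → j ≠ N → Ge π (N - 1) E (E * N + 1) j (F.coeff j) := by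
    intro j h1 h2 n hn
    obtain ⟨z, hz⟩ := coeff_near hb P j
    rw [hF, hz, hTj j h1 h2, Int.cast_zero, zero_add]
    have h3 : (p : A) ^ 2 = ((u ^ 2 : Aˣ) : A) * π ^ (2 * E) := by
      rw [hE, Units.val_pow_eq_pow_val, mul_pow, ← pow_mul, Nat.mul_comm E 2]
    rw [h3]
    refine Dvd.dvd.mul_right ((pow_dvd_unit hπ).2 ?_) _
    by_contra hlt
    push Not at hlt
    have h4 : 2 * E ≤ n := by omega
    have h5 : (N - 1) * (2 * E) ≤ (N - 1) * n := Nat.mul_le_mul_left _ h4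
    have h6 : (N - 1) * (2 * E) = E * N + E * (N - 2) := by
      obtain ⟨M, rfl⟩ := Nat.exists_eq_add_of_le hN
      have e1 : 4 + M - 1 = M + 3 := by omega
      have e2 : 4 + M - 2 = M + 2 := by omega
      rw [e1, e2]
      ring
    have h7 : 1 * 2 ≤ E * (N - 2) := Nat.mul_le_mul hE1 (by omega)
    omega
  have hall : ∀ j, Ge π (N - 1) E (E * N) j (F.coeff j) := by
    intro j
    by_cases h1 : j = 1
    · rw [h1]
      exact ex1.ge hπ (by omega)
    by_cases h2 : j = N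
    · rw [h2]
      exact exN.ge hπ (by omega)
    exact (hge j h1 h2).mono (by omega)
  have hL : Mi π (N - 1) E (fun a b => a < b) F 1 (E * N) :=
    ⟨ex1, hall, fun j hj => hge j (by omega) (by omega)⟩
  have hR : Mi π (N - 1) E (fun a b => b < a) F (1 + (N - 1)) (E * N) := by
    have e1 : 1 + (N - 1) = N := by omega
    rw [e1]
    exact ⟨exN, hall, fun j hj => hge j (by omega) (by omega)⟩
  have hcop : Nat.Coprime (N - 1) E := by
    rcases (by omega : E = 1 ∨ E = 2) with h1 | h1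
    · rw [h1]
      exact Nat.coprime_one_right _
    · rw [h1, Nat.coprime_two_right]
      exact Nat.Even.sub_odd (by omega) hev odd_one
  have hdd : g.natDegree + h.natDegree = N := by
    have h0 : g * h ≠ 0 := by
      rw [e]
      intro h0
      have h1 := (Polynomial.map_eq_zero_iff (IsFractionRing.injective A K')).1 h0
      rw [h1, coeff_zero] at hu
      exact hu.ne_zero rfl
    rw [← natDegree_mul (left_ne_zero_of_mul h0) (right_ne_zero_of_mul h0), e,
      natDegree_map_eq_of_injective (IsFractionRing.injective A K'), hd]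
  have := newton_frac hπ (by omega) hcop hl hL hR hg e
  obtain ⟨t, ht⟩ := hev
  omega

/-- factors near a target with the Newton polygon of `t ^ N - t ^ (N - 1) - p ^ 2` -/
theorem loc_fac2 (hN : 4 ≤ N) (hev : Even N) (hdeg : P.natDegree ≤ N) {a : ι → ℤ} {w : ℤ}
    (hw : IsCoprime w (p : ℤ)) (hT0 : (P.map (av a)).coeff 0 = (p : ℤ) ^ 2 * w)
    (hTN : IsCoprime ((P.map (av a)).coeff N) (p : ℤ))
    (hTM : IsCoprime ((P.map (av a)).coeff (N - 1)) (p : ℤ))
    (hTj : ∀ j, j ≠ 0 → j ≠ N - 1 → j ≠ N → (P.map (av a)).coeff j = 0)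
    (hπ : Irreducible π) (hπp : π ∣ (p : A)) (hπN : ¬ π ^ 3 ∣ (p : A)) {b : ι → A}
    (hb : ∀ i, (p : A) ^ 3 ∣ b i - (a i : A)) {g h : K'[X]} (hg : g.Monic)
    (hgd : g.natDegree = N / 2) : g * h ≠ P.map (av fun i => algebraMap A K' (b i)) := by
  intro e
  have hp0 : (p : A) ≠ 0 := p_ne hπN
  obtain ⟨hu, hd, hl⟩ := lead_target hdeg hπ hπp hTN (by omega) hb
  rw [map_map_av] at e
  obtain ⟨E, u, hE⟩ := IsDiscreteValuationRing.eq_unit_mul_pow_irreducible hp0 hπ
  have hE1 : 1 ≤ E := by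
    rw [hE, ← pow_one π, ← pow_mul, one_mul] at hπp
    exact (pow_dvd_unit hπ).1 hπp
  have hE2 : E ≤ 2 := by
    rw [hE, pow_dvd_unit hπ] at hπN
    omega
  set F := P.map (av b) with hF
  have ex0 : Ex π (N - 1) (2 * E) (2 * E * (N - 1)) 0 (F.coeff 0) := by
    obtain ⟨z, hz⟩ := coeff_near hb P 0
    have hU : IsUnit ((w : A) + (p : A) * z) := unit_add hπ (unit_int hπ hπp hw) (hπp.mul_right _)
    obtain ⟨U, hU'⟩ := hU
    refine ⟨2 * E, u ^ 2 * U, ?_, ?_⟩
    · rw [hF, hz, hT0, Units.val_mul, hU', Units.val_pow_eq_pow_val]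
      push_cast
      calc (p : A) ^ 2 * w + (p : A) ^ 3 * z = (p : A) ^ 2 * (w + p * z) := by ring
        _ = (u * π ^ E) ^ 2 * (w + p * z) := by rw [← hE]
        _ = _ := by rw [mul_pow, ← pow_mul, Nat.mul_comm E 2]; ring
    · ring
  have exM : Ex π (N - 1) (2 * E) (2 * E * (N - 1)) (N - 1) (F.coeff (N - 1)) := by
    obtain ⟨z, hz⟩ := coeff_near hb P (N - 1)
    have hU : IsUnit (F.coeff (N - 1)) := by
      rw [hF, hz]
      exact unit_add hπ (unit_int hπ hπp hTM) ((hπp.trans (dvd_pow_self _ (by omega))).mul_right _)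
    obtain ⟨U, hU'⟩ := hU
    exact ⟨0, U, by rw [hU', pow_zero, mul_one], by ring⟩
  have hge : ∀ j, j ≠ 0 → j ≠ N - 1 →
      Ge π (N - 1) (2 * E) (2 * E * (N - 1) + 1) j (F.coeff j) := by
    intro j h1 h2 n hn
    by_cases hjN : N ≤ j
    · exfalso
      have h3 : 2 * E * N ≤ 2 * E * j := Nat.mul_le_mul_left _ hjN
      have h4 : 2 * E * N = 2 * E * (N - 1) + 2 * E := by
        have : N = N - 1 + 1 := by omega
        calc 2 * E * N = 2 * E * (N - 1 + 1) := by rw [← this]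
          _ = _ := by ring
      omega
    obtain ⟨z, hz⟩ := coeff_near hb P j
    rw [hF, hz, hTj j h1 h2 (by omega), Int.cast_zero, zero_add]
    have h3 : (p : A) ^ 3 = ((u ^ 3 : Aˣ) : A) * π ^ (3 * E) := by
      rw [hE, Units.val_pow_eq_pow_val, mul_pow, ← pow_mul, Nat.mul_comm E 3]
    rw [h3]
    refine Dvd.dvd.mul_right ((pow_dvd_unit hπ).2 ?_) _
    by_contra hlt
    push Not at hlt
    have h4 : 2 * E + 1 ≤ n := by omega
    have h5 : (N - 1) * (2 * E + 1) ≤ (N - 1) * n := Nat.mul_le_mul_left _ h4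
    have h6 : (N - 1) * (2 * E + 1) = 2 * E * (N - 1) + (N - 1) := by ring
    omega
  have hall : ∀ j, Ge π (N - 1) (2 * E) (2 * E * (N - 1)) j (F.coeff j) := by
    intro j
    by_cases h1 : j = 0
    · rw [h1]
      exact ex0.ge hπ (by omega)
    by_cases h2 : j = N - 1
    · rw [h2]
      exact exM.ge hπ (by omega)
    exact (hge j h1 h2).mono (by omega)
  have hL : Mi π (N - 1) (2 * E) (fun a b => a < b) F 0 (2 * E * (N - 1)) :=
    ⟨ex0, hall, fun j hj => absurd hj (by omega)⟩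
  have hR : Mi π (N - 1) (2 * E) (fun a b => b < a) F (0 + (N - 1)) (2 * E * (N - 1)) := by
    rw [zero_add]
    exact ⟨exM, hall, fun j hj => hge j (by omega) (by omega)⟩
  have hodd : Odd (N - 1) := Nat.Even.sub_odd (by omega) hev odd_one
  have hcop : Nat.Coprime (N - 1) (2 * E) := by
    have h2 : Nat.Coprime (N - 1) 2 := Nat.coprime_two_right.2 hodd
    rcases (by omega : E = 1 ∨ E = 2) with h1 | h1
    · rw [h1]
      exact h2
    · rw [h1]
      exact h2.mul_right h2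
  have hdd : g.natDegree + h.natDegree = N := by
    have h0 : g * h ≠ 0 := by
      rw [e]
      intro h0
      have h1 := (Polynomial.map_eq_zero_iff (IsFractionRing.injective A K')).1 h0
      rw [h1, coeff_zero] at hu
      exact hu.ne_zero rfl
    rw [← natDegree_mul (left_ne_zero_of_mul h0) (right_ne_zero_of_mul h0), e,
      natDegree_map_eq_of_injective (IsFractionRing.injective A K'), hd]
  have := newton_frac hπ (by omega) hcop hl hL hR hg e
  obtain ⟨t, ht⟩ := hev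
  omega

end loc

section dens

variable {O J ι : Type} [CommRing O] [IsDomain O] [Fintype J] [Fintype ι]
  (ω : Module.Basis J ℤ O)

/-- The parameters such that `P` has a monic factor of degree `i` over an extension of degree at most
`2`. -/
def FacSet (P : (MvPolynomial ι ℤ)[X]) (i : ℕ) : Set (ι × J → ℤ) :=
  {x : ι × J → ℤ | ∃ (K : Type) (_ : Field K) (_ : NumberField K) (σ : O →+* K) (g h : K[X]),
    Module.finrank ℚ K ≤ 2 * Fintype.card J ∧ g.Monic ∧ g.natDegree = i ∧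
    g * h = P.map (av (cv (fun j => σ (ω j)) fun q => (x q : K)))}

theorem ne_of_target {P : (MvPolynomial ι ℤ)[X]} {N p : ℕ} (hp : p.Prime) {a : ι → ℤ}
    (hTN : IsCoprime ((P.map (av a)).coeff N) (p : ℤ)) : P ≠ 0 := by
  rintro rfl
  rw [Polynomial.map_zero, coeff_zero, isCoprime_zero_left, Int.isUnit_iff] at hTN
  have := hp.two_le
  omega

theorem dens_root {P : (MvPolynomial ι ℤ)[X]} {N N' k : ℕ} (hN : 1 ≤ N) (hk : 1 ≤ k)
    (hN' : k * N' < N) (hdeg : P.natDegree ≤ N)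
    (h : ∀ p : ℕ, p.Prime → p ≠ 2 → ∃ (a : ι → ℤ) (w : ℤ), IsCoprime w (p : ℤ) ∧
      (P.map (av a)).coeff 0 = (p : ℤ) ^ k * w ∧ IsCoprime ((P.map (av a)).coeff N) (p : ℤ) ∧
      ∀ j, j ≠ 0 → j ≠ N → (P.map (av a)).coeff j = 0) : D0 (RootSq ω P 0 N') := by
  have hP : P ≠ 0 := by
    obtain ⟨a, w, -, -, h1, -⟩ := h 3 Nat.prime_three (by norm_num)
    exact ne_of_target Nat.prime_three h1
  refine roots ω _ _ hP _ ?_
  intro p hp hp2
  obtain ⟨a, w, hw, hT0, hTN, hTj⟩ := h p hp hp2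
  refine ⟨a, k + 1, ?_⟩
  intro K' _ A _ _ _ _ _ π hπ hπp hπN b hb θ z hθ _
  have hp0 : (p : A) ≠ 0 := p_ne hπN
  obtain ⟨e, c, u, v, hu, -, hec, hc⟩ :=
    loc_root (K' := K') hN hdeg hk hw hT0 hTN hTj hπ hπp hp0 hb hθ
  rw [hu, pow_dvd_unit hπ] at hπN
  have h1 : k * e ≤ k * N' := Nat.mul_le_mul_left k (by omega)
  have h2 : N * 1 ≤ N * c := Nat.mul_le_mul_left N hc
  omega

theorem dens_fac1 {P : (MvPolynomial ι ℤ)[X]} {N : ℕ} (hN : 4 ≤ N) (hev : Even N)
    (hdeg : P.natDegree ≤ N)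
    (h : ∀ p : ℕ, p.Prime → p ≠ 2 → ∃ (a : ι → ℤ) (w : ℤ), IsCoprime w (p : ℤ) ∧
      (P.map (av a)).coeff 1 = (p : ℤ) * w ∧ IsCoprime ((P.map (av a)).coeff N) (p : ℤ) ∧
      ∀ j, j ≠ 1 → j ≠ N → (P.map (av a)).coeff j = 0) : D0 (FacSet ω P (N / 2)) := by
  have hP : P ≠ 0 := by
    obtain ⟨a, w, -, -, h1, -⟩ := h 3 Nat.prime_three (by norm_num)
    exact ne_of_target Nat.prime_three h1
  refine factors ω _ hP _ _ ?_
  intro p hp hp2
  obtain ⟨a, w, hw, hT1, hTN, hTj⟩ := h p hp hp2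
  refine ⟨a, 2, ?_⟩
  intro K' _ A _ _ _ _ _ π hπ hπp hπN b hb g h hg hgd
  exact loc_fac1 hN hev hdeg hw hT1 hTN hTj hπ hπp hπN hb hg hgd

theorem dens_fac2 {P : (MvPolynomial ι ℤ)[X]} {N : ℕ} (hN : 4 ≤ N) (hev : Even N)
    (hdeg : P.natDegree ≤ N)
    (h : ∀ p : ℕ, p.Prime → p ≠ 2 → ∃ (a : ι → ℤ) (w : ℤ), IsCoprime w (p : ℤ) ∧
      (P.map (av a)).coeff 0 = (p : ℤ) ^ 2 * w ∧ IsCoprime ((P.map (av a)).coeff N) (p : ℤ) ∧
      IsCoprime ((P.map (av a)).coeff (N - 1)) (p : ℤ) ∧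
      ∀ j, j ≠ 0 → j ≠ N - 1 → j ≠ N → (P.map (av a)).coeff j = 0) :
    D0 (FacSet ω P (N / 2)) := by
  have hP : P ≠ 0 := by
    obtain ⟨a, w, -, -, h1, -⟩ := h 3 Nat.prime_three (by norm_num)
    exact ne_of_target Nat.prime_three h1
  refine factors ω _ hP _ _ ?_
  intro p hp hp2
  obtain ⟨a, w, hw, hT0, hTN, hTM, hTj⟩ := h p hp hp2
  refine ⟨a, 3, ?_⟩
  intro K' _ A _ _ _ _ _ π hπ hπp hπN b hb g h hg hgd
  exact loc_fac2 hN hev hdeg hw hT0 hTN hTM hTj hπ hπp hπN hb hg hgd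

end dens

end Pool.Agent.R939.HI
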