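import Pool.Agent.R939.EI.Gen1

/-!
# Local computations: Newton polygons
-/

set_option autoImplicit false
set_option linter.all false

namespace Pool.Agent.R939.HI

open Polynomial Pool.Agent.R939.EI

section ring

variable {A : Type} [CommRing A]

theorem eval_polA {r : ℕ} (c : Fin (r + 1) → A) (θ : A) :
    (polA c).eval θ = ∑ j, c j * θ ^ (j : ℕ) := by
  unfold polA
  rw [eval_finset_sum]
  simp

theorem eval_near {r : ℕ} {c : Fin (r + 1) → A} {t : Fin (r + 1) → ℤ} {q : A}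
    (h : ∀ j, q ∣ c j - (t j : A)) (θ : A) :
    ∃ s, (polA c).eval θ = (∑ j, (t j : A) * θ ^ (j : ℕ)) + q * s := by
  choose s hs using h
  refine ⟨∑ j, s j * θ ^ (j : ℕ), ?_⟩
  rw [eval_polA, Finset.mul_sum, ← Finset.sum_add_distrib]
  refine Finset.sum_congr rfl fun j _ => ?_
  linear_combination (θ ^ (j : ℕ)) * hs j

theorem sum_single {r : ℕ} (i : Fin (r + 1)) (x : ℤ) (θ : A) :
    ∑ j, (((Pi.single i x : Fin (r + 1) → ℤ) j : ℤ) : A) * θ ^ (j : ℕ) = (x : A) * θ ^ (i : ℕ) := by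
  rw [Finset.sum_eq_single i]
  · simp
  · intro j _ hj
    rw [Pi.single_eq_of_ne hj]
    simp
  · intro h
    exact absurd (Finset.mem_univ i) h

end ring

section dvr

variable {A : Type} [CommRing A] [IsDomain A] [IsDiscreteValuationRing A]
  {K : Type} [Field K] [Algebra A K] [IsFractionRing A K]

theorem unit_add {π a x : A} (hπ : Irreducible π) (ha : IsUnit a) (hx : π ∣ x) : IsUnit (a + x) := by
  by_contra h
  have h1 : a + x ∈ IsLocalRing.maximalIdeal A := (IsLocalRing.mem_maximalIdeal _).2 h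
  have h2 : x ∈ IsLocalRing.maximalIdeal A := by
    rw [IsLocalRing.mem_maximalIdeal]
    intro hu
    exact hπ.not_isUnit (isUnit_of_dvd_unit hx hu)
  have h3 : a ∈ IsLocalRing.maximalIdeal A := by
    have := Ideal.sub_mem _ h1 h2
    rwa [add_sub_cancel_right] at this
  exact (IsLocalRing.mem_maximalIdeal _).1 h3 ha

theorem int_root {f : A[X]} (hf : IsUnit f.leadingCoeff) {θ : K}
    (h : (f.map (algebraMap A K)).eval θ = 0) : ∃ θ₀ : A, algebraMap A K θ₀ = θ ∧ f.eval θ₀ = 0 := by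
  obtain ⟨u, hu⟩ := hf
  have hmon : (C ((u⁻¹ : Aˣ) : A) * f).Monic :=
    monic_C_mul_of_mul_leadingCoeff_eq_one (by rw [← hu]; exact u.inv_mul)
  have hint : IsIntegral A θ := ⟨_, hmon, by
    rw [eval₂_mul, ← eval_map (p := f), h, mul_zero]⟩
  obtain ⟨y, hy⟩ := IsIntegrallyClosed.isIntegral_iff.1 hint
  refine ⟨y, hy, ?_⟩
  apply IsFractionRing.injective A K
  rw [map_zero, ← h, ← hy, eval_map, eval₂_at_apply]

theorem no_sqrt {π u : A} (hπ : Irreducible π) (hu : IsUnit u) {w : K}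
    (h : w ^ 2 = algebraMap A K (π * u)) : False := by
  have hint : IsIntegral A w := by
    have h1 : IsIntegral A (w ^ 2) := by rw [h]; exact isIntegral_algebraMap
    exact h1.of_pow (by norm_num)
  obtain ⟨y, rfl⟩ := IsIntegrallyClosed.isIntegral_iff.1 hint
  rw [← map_pow] at h
  have h2 : y ^ 2 = π * u := IsFractionRing.injective A K h
  have h3 : π ∣ y := hπ.prime.dvd_of_dvd_pow ⟨u, h2⟩
  obtain ⟨z, rfl⟩ := h3
  have h4 : u = π * z ^ 2 := by
    apply mul_left_cancel₀ hπ.ne_zero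
    rw [← h2]; ring
  exact hπ.not_isUnit (isUnit_of_dvd_unit ⟨_, h4⟩ hu)

theorem exp_eq {π x y : A} (hπ : Irreducible π) (hx : IsUnit x) (hy : IsUnit y) {α β : ℕ}
    (h : x * π ^ α = y * π ^ β) : α = β := by
  obtain ⟨u, rfl⟩ := hx
  obtain ⟨v, rfl⟩ := hy
  exact IsDiscreteValuationRing.unit_mul_pow_congr_pow hπ hπ u v α β h

/-- a root of a polynomial of Eisenstein type -/
theorem eis_val {π P θ s : A} {n : ℕ} (hπ : Irreducible π) (hn : 1 ≤ n) (hP0 : P ≠ 0) (hπP : π ∣ P)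
    (h : θ ^ n + P + P ^ 2 * s = 0) :
    ∃ (e c : ℕ) (u v : Aˣ), P = u * π ^ e ∧ θ = v * π ^ c ∧ e = n * c ∧ 1 ≤ c := by
  have hU : IsUnit (1 + P * s) := unit_add hπ isUnit_one (hπP.mul_right _)
  have h1 : θ ^ n = -(P * (1 + P * s)) := by linear_combination h
  have hθ : θ ≠ 0 := by
    rintro rfl
    rw [zero_pow (by omega)] at h1
    exact mul_ne_zero hP0 hU.ne_zero (neg_eq_zero.1 h1.symm)
  obtain ⟨e, u, hu⟩ := IsDiscreteValuationRing.eq_unit_mul_pow_irreducible hP0 hπ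
  obtain ⟨c, v, hv⟩ := IsDiscreteValuationRing.eq_unit_mul_pow_irreducible hθ hπ
  have h2 : (v : A) ^ n * π ^ (n * c) = -(u * (1 + P * s)) * π ^ e := by
    calc (v : A) ^ n * π ^ (n * c) = θ ^ n := by rw [hv, mul_pow, ← pow_mul, Nat.mul_comm]
      _ = -(P * (1 + P * s)) := h1
      _ = -(u * (1 + P * s)) * π ^ e := by
          have : P * (1 + P * s) = (u * π ^ e) * (1 + P * s) := by rw [← hu]
          rw [this]; ring
  have h3 := exp_eq hπ (v.isUnit.pow n) (u.isUnit.mul hU).neg h2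
  refine ⟨e, c, u, v, hu, hv, h3.symm, ?_⟩
  rcases Nat.eq_zero_or_pos c with hc | hc
  · exfalso
    rw [hc, Nat.mul_zero] at h3
    rw [← h3, pow_zero, mul_one] at hu
    exact hπ.not_isUnit (isUnit_of_dvd_unit hπP (hu ▸ u.isUnit))
  · exact hc

/-- a root of the discriminant -/
theorem disc_val {π P θ sa : A} {s : ℕ} {m : Fin s → ℕ} {y : Fin s → A} (hπ : Irreducible π)
    (h2 : IsUnit (2 : A)) (hm : Odd (∑ i, m i)) (hP0 : P ≠ 0) (hπP : π ∣ P)
    (h : (2 * P + P ^ 3 * sa) ^ 2 = 4 * ∏ i, (θ ^ m i + P ^ 3 * y i)) :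
    π ^ (∑ i, m i) ∣ P := by
  have hU : IsUnit (2 + P ^ 2 * sa) :=
    unit_add hπ h2 ((hπP.trans (dvd_pow_self P two_ne_zero)).mul_right _)
  have h4 : IsUnit (4 : A) := by
    have : (4 : A) = 2 ^ 2 := by norm_num
    rw [this]
    exact h2.pow 2
  have hPn : ¬ IsUnit P := fun hu => hπ.not_isUnit (isUnit_of_dvd_unit hπP hu)
  have h1 : P ^ 2 * (2 + P ^ 2 * sa) ^ 2 = 4 * ∏ i, (θ ^ m i + P ^ 3 * y i) := by
    rw [← h]; ring
  by_cases hA : ∃ i, P ^ 3 ∣ θ ^ m i
  · exfalso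
    obtain ⟨i, hi⟩ := hA
    have h5 : P ^ 3 ∣ 4 * ∏ i, (θ ^ m i + P ^ 3 * y i) := by
      refine Dvd.dvd.mul_left ?_ _
      refine (dvd_add hi (dvd_mul_right _ (y i))).trans ?_
      exact Finset.dvd_prod_of_mem (fun i => θ ^ m i + P ^ 3 * y i) (Finset.mem_univ i)
    rw [← h1, pow_succ, mul_dvd_mul_iff_left (pow_ne_zero 2 hP0)] at h5
    exact hPn (isUnit_of_dvd_unit h5 (hU.pow 2))
  · push Not at hA
    obtain ⟨i0⟩ : Nonempty (Fin s) := by
      by_contra hemp
      rw [not_nonempty_iff] at hemp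
      rw [Finset.univ_eq_empty, Finset.sum_empty] at hm
      exact absurd hm (by decide)
    have hθ : θ ≠ 0 ∨ m i0 = 0 := by
      by_contra hcon
      push Not at hcon
      apply hA i0
      rw [hcon.1, zero_pow hcon.2]
      exact dvd_zero _
    have hθ0 : θ ≠ 0 := by
      rintro rfl
      have h6 : ∀ i, m i = 0 := by
        intro i
        by_contra hi
        apply hA i
        rw [zero_pow hi]
        exact dvd_zero _
      rw [Finset.sum_eq_zero fun i _ => h6 i] at hm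
      exact absurd hm (by decide)
    obtain ⟨e, u, hu⟩ := IsDiscreteValuationRing.eq_unit_mul_pow_irreducible hP0 hπ
    obtain ⟨c, v, hv⟩ := IsDiscreteValuationRing.eq_unit_mul_pow_irreducible hθ0 hπ
    have he : 1 ≤ e := by
      rcases Nat.eq_zero_or_pos e with he | he
      · exfalso
        rw [he, pow_zero, mul_one] at hu
        exact hPn (hu ▸ u.isUnit)
      · exact he
    have hlt : ∀ i, c * m i < 3 * e := by
      intro i
      by_contra hge
      push Not at hge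
      apply hA i
      have h6 : θ ^ m i = v ^ m i * π ^ (c * m i) := by rw [hv, mul_pow, ← pow_mul]
      have h7 : P ^ 3 = u ^ 3 * π ^ (3 * e) := by
        rw [hu, mul_pow, ← pow_mul, Nat.mul_comm e 3]
      rw [h6, h7]
      have h8 : IsUnit ((u : A) ^ 3) := u.isUnit.pow 3
      rw [h8.mul_left_dvd]
      exact (pow_dvd_pow π hge).mul_left _
    have hfac : ∀ i, ∃ x : A, IsUnit x ∧ θ ^ m i + P ^ 3 * y i = x * π ^ (c * m i) := by
      intro i
      obtain ⟨g, hg⟩ := Nat.exists_eq_add_of_lt (hlt i)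
      refine ⟨v ^ m i + π * (π ^ g * u ^ 3 * y i), unit_add hπ (v.isUnit.pow _) (dvd_mul_right _ _), ?_⟩
      have h6 : θ ^ m i = v ^ m i * π ^ (c * m i) := by rw [hv, mul_pow, ← pow_mul]
      have h7 : P ^ 3 = u ^ 3 * (π ^ (c * m i) * π ^ g * π) := by
        rw [← pow_add, ← pow_succ, ← hg]
        rw [hu, mul_pow, ← pow_mul, Nat.mul_comm e 3]
      rw [h6, h7]
      ring
    choose x hx hxe using hfac
    have hprod : ∏ i, (θ ^ m i + P ^ 3 * y i) = (∏ i, x i) * π ^ (c * ∑ i, m i) := by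
      rw [Finset.prod_congr rfl fun i _ => hxe i, Finset.prod_mul_distrib, Finset.mul_sum,
        Finset.prod_pow_eq_pow_sum]
    have hxu : IsUnit (∏ i, x i) := by
      rw [IsUnit.prod_univ_iff]
      exact hx
    rw [hprod] at h1
    have h9 : ((u : A) ^ 2 * (2 + P ^ 2 * sa) ^ 2) * π ^ (e * 2) =
        (4 * ∏ i, x i) * π ^ (c * ∑ i, m i) := by
      calc ((u : A) ^ 2 * (2 + P ^ 2 * sa) ^ 2) * π ^ (e * 2)
          = (u * π ^ e) ^ 2 * (2 + P ^ 2 * sa) ^ 2 := by rw [pow_mul]; ring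
        _ = P ^ 2 * (2 + P ^ 2 * sa) ^ 2 := by rw [← hu]
        _ = _ := by rw [h1]; ring
    have h10 := exp_eq hπ ((u.isUnit.pow 2).mul (hU.pow 2)) (h4.mul hxu) h9
    have hev : Even (c * ∑ i, m i) := ⟨e, by rw [← h10]; ring⟩
    rw [Nat.even_mul] at hev
    obtain ⟨c', hc'⟩ := hev.resolve_right (Nat.not_even_iff_odd.2 hm)
    have hee : e = c' * ∑ i, m i := by
      rw [hc', ← two_mul, Nat.mul_assoc] at h10
      omega
    have hc1 : 1 ≤ c' := by
      rcases Nat.eq_zero_or_pos c' with h0 | h0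
      · rw [h0, Nat.zero_mul] at hee
        omega
      · exact h0
    rw [hu]
    refine Dvd.dvd.mul_left (pow_dvd_pow π ?_) _
    rw [hee]
    exact Nat.le_mul_of_pos_left _ hc1

end dvr

end Pool.Agent.R939.HI
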