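import Mathlib

/-!
# Weights of the coefficients and factors of polynomials over discrete valuation rings
-/

set_option autoImplicit false
set_option linter.all false

namespace Pool.Agent.R939.HI

open Polynomial

section wt

variable {A : Type} [CommRing A] [IsDomain A] [IsDiscreteValuationRing A] (π : A) (q c : ℕ)

/-- the weight `q v(x) + c j` is at least `w` -/
def Ge (w j : ℕ) (x : A) : Prop := ∀ n : ℕ, q * n + c * j < w → π ^ (n + 1) ∣ x

/-- the weight `q v(x) + c j` is `w` -/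
def Ex (w j : ℕ) (x : A) : Prop := ∃ (n : ℕ) (u : Aˣ), x = u * π ^ n ∧ q * n + c * j = w

variable {π q c}

theorem Ge.mono {w w' j : ℕ} {x : A} (h : Ge π q c w j x) (hw : w' ≤ w) : Ge π q c w' j x :=
  fun n hn => h n (hn.trans_le hw)

theorem Ge.add {w j : ℕ} {x y : A} (hx : Ge π q c w j x) (hy : Ge π q c w j y) :
    Ge π q c w j (x + y) := fun n hn => dvd_add (hx n hn) (hy n hn)

theorem Ge.sum {w j : ℕ} {α : Type} (s : Finset α) (f : α → A) (h : ∀ i ∈ s, Ge π q c w j (f i)) :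
    Ge π q c w j (∑ i ∈ s, f i) := fun n hn => Finset.dvd_sum fun i hi => h i hi n hn

theorem pow_dvd_unit (hπ : Irreducible π) {u : Aˣ} {a b : ℕ} : π ^ a ∣ (u : A) * π ^ b ↔ a ≤ b := by
  rw [u.isUnit.dvd_mul_left]
  constructor
  · intro h
    by_contra hlt
    push Not at hlt
    obtain ⟨d, hd⟩ := Nat.exists_eq_add_of_lt hlt
    have h1 : π ^ b * π ∣ π ^ b * 1 := by
      rw [← pow_succ, mul_one]
      exact (pow_dvd_pow π (by omega)).trans h
    rw [mul_dvd_mul_iff_left (pow_ne_zero b hπ.ne_zero)] at h1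
    exact hπ.not_isUnit (isUnit_of_dvd_one h1)
  · exact pow_dvd_pow π

theorem Ex.ge (hπ : Irreducible π) (hq : 0 < q) {w j : ℕ} {x : A} (h : Ex π q c w j x) :
    Ge π q c w j x := by
  obtain ⟨n, u, rfl, hn⟩ := h
  intro n' hn'
  rw [pow_dvd_unit hπ]
  by_contra hlt
  push Not at hlt
  have h1 : q * n ≤ q * n' := Nat.mul_le_mul_left q (by omega)
  omega

theorem Ex.not_ge (hπ : Irreducible π) {w j : ℕ} {x : A} (h : Ex π q c w j x) :
    ¬ Ge π q c (w + 1) j x := by
  obtain ⟨n, u, rfl, hn⟩ := h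
  intro h1
  have h2 := h1 n (by omega)
  rw [pow_dvd_unit hπ] at h2
  omega

theorem Ex.mul {w w' i j : ℕ} {x y : A} (hx : Ex π q c w i x) (hy : Ex π q c w' j y) :
    Ex π q c (w + w') (i + j) (x * y) := by
  obtain ⟨n, u, rfl, hn⟩ := hx
  obtain ⟨n', u', rfl, hn'⟩ := hy
  refine ⟨n + n', u * u', ?_, ?_⟩
  · rw [Units.val_mul, pow_add]
    ring
  · rw [← hn, ← hn']
    ring

theorem Ge.mul (hπ : Irreducible π) (hq : 0 < q) {w w' i j : ℕ} {x y : A}
    (hx : Ge π q c w i x) (hy : Ge π q c w' j y) : Ge π q c (w + w') (i + j) (x * y) := by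
  by_cases hx0 : x = 0
  · intro n _
    rw [hx0, zero_mul]
    exact dvd_zero _
  by_cases hy0 : y = 0
  · intro n _
    rw [hy0, mul_zero]
    exact dvd_zero _
  obtain ⟨a, u, hu⟩ := IsDiscreteValuationRing.eq_unit_mul_pow_irreducible hx0 hπ
  obtain ⟨b, v, hv⟩ := IsDiscreteValuationRing.eq_unit_mul_pow_irreducible hy0 hπ
  have h1 : w ≤ q * a + c * i := by
    by_contra hlt
    push Not at hlt
    have := hx a hlt
    rw [hu, pow_dvd_unit hπ] at this
    omega
  have h2 : w' ≤ q * b + c * j := by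
    by_contra hlt
    push Not at hlt
    have := hy b hlt
    rw [hv, pow_dvd_unit hπ] at this
    omega
  have h3 : Ex π q c (q * (a + b) + c * (i + j)) (i + j) (x * y) :=
    ⟨a + b, u * v, by rw [hu, hv, Units.val_mul, pow_add]; ring, rfl⟩
  refine (h3.ge hπ hq).mono ?_
  have : q * (a + b) + c * (i + j) = (q * a + c * i) + (q * b + c * j) := by ring
  rw [this]
  exact Nat.add_le_add h1 h2

theorem Ex.add (hπ : Irreducible π) {w j : ℕ} {x y : A} (hx : Ex π q c w j x)
    (hy : Ge π q c (w + 1) j y) : Ex π q c w j (x + y) := by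
  obtain ⟨n, u, rfl, hn⟩ := hx
  obtain ⟨z, hz⟩ := hy n (by omega)
  have hU : IsUnit ((u : A) + π * z) := by
    by_contra h
    have h1 : (u : A) + π * z ∈ IsLocalRing.maximalIdeal A := (IsLocalRing.mem_maximalIdeal _).2 h
    have h2 : π * z ∈ IsLocalRing.maximalIdeal A := by
      rw [IsLocalRing.mem_maximalIdeal]
      intro hu
      exact hπ.not_isUnit (isUnit_of_mul_isUnit_left hu)
    have h3 : (u : A) ∈ IsLocalRing.maximalIdeal A := by
      have := Ideal.sub_mem _ h1 h2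
      rwa [add_sub_cancel_right] at this
    exact (IsLocalRing.mem_maximalIdeal _).1 h3 u.isUnit
  obtain ⟨U, hU'⟩ := hU
  refine ⟨n, U, ?_, hn⟩
  rw [hU', hz, pow_succ]
  ring

/-- the order `<` or `>` -/
structure Rho (ρ : ℕ → ℕ → Prop) : Prop where
  add : ∀ i j l l' : ℕ, (ρ (i + j) (l + l') ∨ (i + j = l + l' ∧ i ≠ l)) → ρ i l ∨ ρ j l'
  tri : ∀ l l' : ℕ, l ≠ l' → ρ l l' ∨ ρ l' l
  ext : ∀ s : Finset ℕ, s.Nonempty → ∃ l ∈ s, ∀ j ∈ s, ¬ ρ j l

theorem rho_lt : Rho (fun a b => a < b) where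
  add := by intro i j l l' h; omega
  tri := by intro l l' h; omega
  ext := by
    intro s hs
    exact ⟨s.min' hs, s.min'_mem hs, fun j hj =>
      not_lt.2 (s.min'_le j hj)⟩

theorem rho_gt : Rho (fun a b => b < a) where
  add := by intro i j l l' h; omega
  tri := by intro l l' h; omega
  ext := by
    intro s hs
    exact ⟨s.max' hs, s.max'_mem hs, fun j hj =>
      not_lt.2 (s.le_max' j hj)⟩

variable (π q c)

/-- the extremal index of minimal weight -/
def Mi (ρ : ℕ → ℕ → Prop) (F : A[X]) (l w : ℕ) : Prop :=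
  Ex π q c w l (F.coeff l) ∧ (∀ j, Ge π q c w j (F.coeff j)) ∧
    ∀ j, ρ j l → Ge π q c (w + 1) j (F.coeff j)

variable {π q c}

theorem Mi.mul {ρ : ℕ → ℕ → Prop} (hρ : Rho ρ) (hπ : Irreducible π) (hq : 0 < q) {g h : A[X]}
    {l l' w w' : ℕ} (hg : Mi π q c ρ g l w) (hh : Mi π q c ρ h l' w') :
    Mi π q c ρ (g * h) (l + l') (w + w') := by
  obtain ⟨g1, g2, g3⟩ := hg
  obtain ⟨h1, h2, h3⟩ := hh
  have hst : ∀ i j, ρ i l ∨ ρ j l' → Ge π q c (w + w' + 1) (i + j) (g.coeff i * h.coeff j) := by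
    rintro i j (h | h)
    · exact ((g3 i h).mul hπ hq (h2 j)).mono (by omega)
    · exact ((g2 i).mul hπ hq (h3 j h)).mono (by omega)
  refine ⟨?_, ?_, ?_⟩
  · rw [coeff_mul, ← Finset.add_sum_erase _ _ (Finset.HasAntidiagonal.mem_antidiagonal.2 (rfl : (l, l').1 + (l, l').2 = l + l'))]
    refine (g1.mul h1).add hπ (Ge.sum _ _ ?_)
    rintro ⟨i, j⟩ hij
    rw [Finset.mem_erase, Finset.HasAntidiagonal.mem_antidiagonal] at hij
    obtain ⟨hne, hij⟩ := hij
    dsimp only at hij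
    have : i ≠ l := by
      rintro rfl
      apply hne
      rw [Prod.mk.injEq]
      exact ⟨rfl, by omega⟩
    have h4 := hst i j (hρ.add i j l l' (Or.inr ⟨hij, this⟩))
    rw [hij] at h4
    exact h4
  · intro s
    rw [coeff_mul]
    refine Ge.sum _ _ ?_
    rintro ⟨i, j⟩ hij
    rw [Finset.HasAntidiagonal.mem_antidiagonal] at hij
    dsimp only at hij
    rw [← hij]
    exact (g2 i).mul hπ hq (h2 j)
  · intro s hs
    rw [coeff_mul]
    refine Ge.sum _ _ ?_
    rintro ⟨i, j⟩ hij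
    rw [Finset.HasAntidiagonal.mem_antidiagonal] at hij
    dsimp only at hij
    rw [← hij] at hs ⊢
    exact hst i j (hρ.add i j l l' (Or.inl hs))

theorem Mi.unique {ρ : ℕ → ℕ → Prop} (hρ : Rho ρ) (hπ : Irreducible π) {F : A[X]} {l l' w w' : ℕ}
    (h : Mi π q c ρ F l w) (h' : Mi π q c ρ F l' w') : l = l' ∧ w = w' := by
  have hw : ∀ {l l' w w' : ℕ}, Mi π q c ρ F l w → Mi π q c ρ F l' w' → w' ≤ w := by
    intro l l' w w' h h'
    by_contra hlt
    push Not at hlt
    exact h.1.not_ge hπ ((h'.2.1 l).mono (by omega))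
  have e : w = w' := le_antisymm (hw h' h) (hw h h')
  subst e
  refine ⟨?_, rfl⟩
  by_contra hne
  rcases hρ.tri l l' hne with h1 | h1
  · exact h.1.not_ge hπ (h'.2.2 l h1)
  · exact h'.1.not_ge hπ (h.2.2 l' h1)

theorem Mi.exists {ρ : ℕ → ℕ → Prop} (hρ : Rho ρ) (hπ : Irreducible π) (hq : 0 < q) {F : A[X]}
    (hF : F ≠ 0) : ∃ l w, Mi π q c ρ F l w := by
  classical
  have hn : ∀ j ∈ F.support, ∃ w, Ex π q c w j (F.coeff j) := by
    intro j hj
    obtain ⟨n, u, hu⟩ := IsDiscreteValuationRing.eq_unit_mul_pow_irreducible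
      (mem_support_iff.1 hj) hπ
    exact ⟨_, n, u, hu, rfl⟩
  choose! f hf using hn
  obtain ⟨j0, hj0, hmin⟩ := F.support.exists_min_image f (nonempty_support_iff.2 hF)
  obtain ⟨l, hl, hl'⟩ := hρ.ext (F.support.filter fun j => f j = f j0)
    ⟨j0, Finset.mem_filter.2 ⟨hj0, rfl⟩⟩
  rw [Finset.mem_filter] at hl
  refine ⟨l, f j0, by rw [← hl.2]; exact hf l hl.1, ?_, ?_⟩
  · intro j
    by_cases hj : j ∈ F.support
    · exact ((hf j hj).ge hπ hq).mono (hmin j hj)
    · rw [notMem_support_iff.1 hj]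
      intro n _
      exact dvd_zero _
  · intro j hjl
    by_cases hj : j ∈ F.support
    · refine ((hf j hj).ge hπ hq).mono ?_
      have h1 := hmin j hj
      have h2 : f j ≠ f j0 := fun h => hl' j (Finset.mem_filter.2 ⟨hj, h⟩) hjl
      omega
    · rw [notMem_support_iff.1 hj]
      intro n _
      exact dvd_zero _

/-- **Degrees of factors.** -/
theorem newton (hπ : Irreducible π) (hq : 0 < q) (hcop : Nat.Coprime q c) {g h : A[X]}
    {l w : ℕ} (hL : Mi π q c (fun a b => a < b) (g * h) l w)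
    (hR : Mi π q c (fun a b => b < a) (g * h) (l + q) w) : q ≤ g.natDegree ∨ q ≤ h.natDegree := by
  have hgh : g * h ≠ 0 := by
    intro h0
    obtain ⟨n, u, hu, -⟩ := hL.1
    rw [h0, coeff_zero] at hu
    exact (mul_ne_zero u.ne_zero (pow_ne_zero n hπ.ne_zero)) hu.symm
  have hg : g ≠ 0 := left_ne_zero_of_mul hgh
  have hh : h ≠ 0 := right_ne_zero_of_mul hgh
  obtain ⟨lg, wg, Lg⟩ := Mi.exists (q := q) (c := c) rho_lt hπ hq hg
  obtain ⟨lh, wh, Lh⟩ := Mi.exists (q := q) (c := c) rho_lt hπ hq hh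
  obtain ⟨rg, wg', Rg⟩ := Mi.exists (q := q) (c := c) rho_gt hπ hq hg
  obtain ⟨rh, wh', Rh⟩ := Mi.exists (q := q) (c := c) rho_gt hπ hq hh
  have e1 := (Lg.mul rho_lt hπ hq Lh).unique rho_lt hπ hL
  have e2 := (Rg.mul rho_gt hπ hq Rh).unique rho_gt hπ hR
  have hw : wg = wg' := by
    apply le_antisymm
    · by_contra hlt
      push Not at hlt
      exact Rg.1.not_ge hπ ((Lg.2.1 rg).mono (by omega))
    · by_contra hlt
      push Not at hlt
      exact Lg.1.not_ge hπ ((Rg.2.1 lg).mono (by omega))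
  subst hw
  have hlg : lg ≤ rg := by
    by_contra hlt
    push Not at hlt
    exact Lg.1.not_ge hπ (Rg.2.2 lg hlt)
  have hlh : lh ≤ rh := by
    by_contra hlt
    push Not at hlt
    have hw' : wh = wh' := by
      have := e1.2
      have := e2.2
      omega
    subst hw'
    exact Lh.1.not_ge hπ (Rh.2.2 lh hlt)
  have hdvd : q ∣ rg - lg := by
    obtain ⟨n, u, -, hn⟩ := Lg.1
    obtain ⟨n', u', -, hn'⟩ := Rg.1
    have h1 : (q : ℤ) ∣ c * ((rg : ℤ) - lg) := by
      refine ⟨(n : ℤ) - n', ?_⟩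
      have h2 : (q : ℤ) * n + c * lg = q * n' + c * rg := by exact_mod_cast hn.trans hn'.symm
      linear_combination -h2
    have h3 : IsCoprime (q : ℤ) c := Nat.isCoprime_iff_coprime.2 hcop
    have h4 := h3.dvd_of_dvd_mul_left h1
    have h5 : ((rg - lg : ℕ) : ℤ) = (rg : ℤ) - lg := by
      push_cast [hlg]
      ring
    rw [← h5] at h4
    exact_mod_cast h4
  have hrg : rg ≤ g.natDegree := by
    by_contra hlt
    push Not at hlt
    obtain ⟨n, u, hu, -⟩ := Rg.1
    rw [coeff_eq_zero_of_natDegree_lt hlt] at hu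
    exact (mul_ne_zero u.ne_zero (pow_ne_zero n hπ.ne_zero)) hu.symm
  have hrh : rh ≤ h.natDegree := by
    by_contra hlt
    push Not at hlt
    obtain ⟨n, u, hu, -⟩ := Rh.1
    rw [coeff_eq_zero_of_natDegree_lt hlt] at hu
    exact (mul_ne_zero u.ne_zero (pow_ne_zero n hπ.ne_zero)) hu.symm
  have h1 := e1.1
  have h2 := e2.1
  rcases Nat.eq_zero_or_pos (rg - lg) with h0 | h0
  · right
    omega
  · left
    have := Nat.le_of_dvd h0 hdvd
    omega

end wt

section frac

variable {A : Type} [CommRing A] [IsDomain A] [IsDiscreteValuationRing A]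
  {K : Type} [Field K] [Algebra A K] [IsFractionRing A K]

/-- Gauss -/
theorem gauss {F : A[X]} (hF : IsUnit F.leadingCoeff) {g h : K[X]} (hg : g.Monic)
    (e : g * h = F.map (algebraMap A K)) : ∃ g' h' : A[X], g'.map (algebraMap A K) = g ∧
      h'.map (algebraMap A K) = h ∧ g' * h' = F := by
  obtain ⟨u, hu⟩ := hF
  have hmon : (C ((u⁻¹ : Aˣ) : A) * F).Monic :=
    monic_C_mul_of_mul_leadingCoeff_eq_one (by rw [← hu]; exact u.inv_mul)
  have hdv : g ∣ (C ((u⁻¹ : Aˣ) : A) * F).map (algebraMap A K) := by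
    rw [Polynomial.map_mul, ← e]
    exact (dvd_mul_right g h).mul_left _
  obtain ⟨g', hg'⟩ := IsIntegrallyClosed.eq_map_mul_C_of_dvd K hmon hdv
  rw [hg.leadingCoeff, C_1, mul_one] at hg'
  have hinj : Function.Injective (algebraMap A K) := IsFractionRing.injective A K
  have hg'm : g'.Monic := by
    refine monic_of_injective hinj ?_
    rw [hg']
    exact hg
  have h1 : g' * (F /ₘ g') = F := by
    have h2 : g' ∣ F := by
      rw [← Polynomial.map_dvd_map (algebraMap A K) hinj hg'm, hg', ← e]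
      exact dvd_mul_right _ _
    obtain ⟨z, rfl⟩ := h2
    rw [Polynomial.mul_divByMonic_cancel_left _ hg'm]
  refine ⟨g', F /ₘ g', hg', ?_, h1⟩
  apply mul_left_cancel₀ hg.ne_zero
  rw [e, ← hg', ← Polynomial.map_mul, h1]

/-- **Degrees of factors over the fraction field.** -/
theorem newton_frac {π : A} (hπ : Irreducible π) {q c : ℕ} (hq : 0 < q) (hcop : Nat.Coprime q c)
    {F : A[X]} (hF : IsUnit F.leadingCoeff) {l w : ℕ}
    (hL : Mi π q c (fun a b => a < b) F l w)
    (hR : Mi π q c (fun a b => b < a) F (l + q) w) {g h : K[X]} (hg : g.Monic)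
    (e : g * h = F.map (algebraMap A K)) : q ≤ g.natDegree ∨ q ≤ h.natDegree := by
  obtain ⟨g', h', rfl, rfl, rfl⟩ := gauss hF hg e
  have hinj : Function.Injective (algebraMap A K) := IsFractionRing.injective A K
  rw [natDegree_map_eq_of_injective hinj, natDegree_map_eq_of_injective hinj]
  exact newton hπ hq hcop hL hR

end frac

end Pool.Agent.R939.HI
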