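import Pool.Agent.R939.HI.RootsQ
import Pool.Agent.R939.HI.Trans2
import Pool.Agent.R939.EI.Tw1

/-!
# `p`-adic embeddings for which a given polynomial has a root of odd order
-/

set_option autoImplicit false
set_option linter.all false

namespace Pool.Agent.R939.HI

open Polynomial NumberField Pool.Agent Pool.Agent.H927R2.RD Pool.Agent.TH115.GD

/-- embeddings which are integral at given algebraic numbers -/
theorem emb_int (s : Finset ℂ) (hs : ∀ x ∈ s, IsAlgebraic ℚ x) :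
    ∃ (p : ℕ) (_ : Fact p.Prime), p ≠ 2 ∧ ∃ e : Subfield.closure (s : Set ℂ) →+* ℚ_[p],
      ∀ (x : ℂ) (hx : x ∈ Subfield.closure (s : Set ℂ)), x ∈ s →
        ∃ w : ℤ_[p], (w : ℚ_[p]) = e ⟨x, hx⟩ := by
  classical
  have h1 : ∀ x ∈ s, ∃ y : ℤ, y ≠ 0 ∧ IsIntegral ℤ (y • x) := by
    intro x hx
    have h2 : IsAlgebraic ℤ x := (IsFractionRing.isAlgebraic_iff ℤ ℚ ℂ).2 (hs x hx)
    obtain ⟨y, hy, h3⟩ := h2.exists_integral_multiple
    exact ⟨y, hy, h3⟩
  choose! c hc0 hc using h1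
  obtain ⟨K, hK, hK', S, h⟩ := exists_padic_embedding s
  obtain ⟨p, hpS', hp⟩ := W930.ND.exists_degOne K
    (insert 2 (S ∪ (∏ x ∈ s, c x).natAbs.primeFactors))
  rw [Finset.mem_insert, Finset.mem_union, not_or, not_or] at hpS'
  obtain ⟨hp2, hpS, hpc⟩ := hpS'
  haveI : Fact p.Prime := ⟨hp.1⟩
  have hprod : ∏ x ∈ s, c x ≠ 0 := Finset.prod_ne_zero_iff.2 hc0
  have hpd : ∀ x ∈ s, ¬ (p : ℤ) ∣ c x := by
    intro x hx hdv
    apply hpc
    rw [Nat.mem_primeFactors]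
    refine ⟨hp.1, ?_, Int.natAbs_ne_zero.2 hprod⟩
    have h2 : (p : ℤ) ∣ ∏ x ∈ s, c x := hdv.trans (Finset.dvd_prod_of_mem c hx)
    exact Int.natCast_dvd.1 h2
  obtain ⟨e⟩ := h p hpS hp
  refine ⟨p, inferInstance, hp2, e, ?_⟩
  intro x hx hxs
  have h3 : IsIntegral ℤ (c x • (⟨x, hx⟩ : Subfield.closure (s : Set ℂ))) := by
    rw [← isIntegral_algebraMap_iff (A := Subfield.closure (s : Set ℂ)) (B := ℂ)
      (algebraMap (Subfield.closure (s : Set ℂ)) ℂ).injective]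
    have h4 : algebraMap (Subfield.closure (s : Set ℂ)) ℂ
        (c x • (⟨x, hx⟩ : Subfield.closure (s : Set ℂ))) = c x • x := by
      rw [map_zsmul]
      rfl
    rw [h4]
    exact hc x hxs
  have h4 : IsIntegral ℤ (e (c x • (⟨x, hx⟩ : Subfield.closure (s : Set ℂ)))) :=
    h3.map e.toIntAlgHom
  have h5 : IsIntegral ℤ_[p] (e (c x • (⟨x, hx⟩ : Subfield.closure (s : Set ℂ)))) := h4.tower_top
  obtain ⟨w0, hw0⟩ := IsIntegrallyClosed.isIntegral_iff.1 h5
  rw [map_zsmul, zsmul_eq_mul] at hw0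
  have hu : IsUnit ((c x : ℤ) : ℤ_[p]) := by
    rw [PadicInt.isUnit_iff]
    have h6 : ¬ ‖((c x : ℤ) : ℤ_[p])‖ < 1 := by
      rw [PadicInt.norm_int_lt_one_iff_dvd]
      exact hpd x hxs
    exact le_antisymm (PadicInt.norm_le_one _) (not_lt.1 h6)
  obtain ⟨u, hu'⟩ := hu
  refine ⟨(u⁻¹ : ℤ_[p]ˣ) * w0, ?_⟩
  have h7 : (w0 : ℚ_[p]) = ((u : ℤ_[p]) : ℚ_[p]) * e ⟨x, hx⟩ := by
    rw [hu']
    push_cast
    exact hw0
  rw [PadicInt.coe_mul, h7, ← mul_assoc, ← PadicInt.coe_mul, Units.inv_mul, PadicInt.coe_one,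
    one_mul]

/-- an irreducible divisor of odd multiplicity -/
theorem exists_odd {k : Type} [Field k] {f : k[X]} (hf : f ≠ 0)
    (hns : ∀ (c : k) (g : k[X]), f ≠ C c * g ^ 2) :
    ∃ (π δ : k[X]) (m : ℕ), Irreducible π ∧ ¬ π ∣ δ ∧ f = π ^ (2 * m + 1) * δ := by
  obtain ⟨r, S, T, hr, hS, hS', hT, e⟩ := sq_dec _ f rfl hf
  have hu : ¬ IsUnit S := by
    intro hu
    have h1 : S = 1 := hS.eq_one_of_isUnit hu
    exact hns r T (by rw [e, h1, mul_one])
  obtain ⟨π, hπ, S', rfl⟩ := WfDvdMonoid.exists_irreducible_factor hu hS.ne_zero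
  have h2 : ¬ π ∣ S' := by
    rintro ⟨S'', rfl⟩
    exact hπ.not_isUnit (hS' π ⟨S'', by ring⟩)
  obtain ⟨m, T', hT', rfl⟩ := WfDvdMonoid.max_power_factor hT hπ
  refine ⟨π, C r * S' * T' ^ 2, m, hπ, ?_, ?_⟩
  · intro h3
    rcases hπ.prime.dvd_or_dvd h3 with h4 | h4
    · rw [(isUnit_C.2 (isUnit_iff_ne_zero.2 hr)).dvd_mul_left] at h4
      exact h2 h4
    · exact hT' (hπ.prime.dvd_of_dvd_pow h4)
  · rw [e]
    ring

/-- **A place at which `f` has a root of odd order.** -/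
theorem padic_root {k : Type} [Field k] [NumberField k] {J : Type} [Fintype J]
    (ω : Module.Basis J ℤ (𝓞 k)) {f : k[X]} (hf : f ≠ 0)
    (hns : ∀ (c : k) (g : k[X]), f ≠ C c * g ^ 2) :
    ∃ (Q : (𝓞 k)[X]) (c : k) (_ : c ≠ 0) (_ : Q.map (algebraMap (𝓞 k) k) = C (c ^ 2) * f)
      (p : ℕ) (_ : Fact p.Prime) (_ : p ≠ 2) (σ₀ : 𝓞 k →+* ℤ_[p]) (ρ : ℤ_[p]) (m : ℕ)
      (G : ℤ_[p][X]), Q.map σ₀ = (X - C ρ) ^ (2 * m + 1) * G ∧ IsUnit (G.eval ρ) := by
  classical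
  -- denominators
  obtain ⟨d, hd, hd'⟩ := IsLocalization.integerNormalization_spec (nonZeroDivisors (𝓞 k)) f
  set q := IsLocalization.integerNormalization (nonZeroDivisors (𝓞 k)) f with hq
  have hdk : algebraMap (𝓞 k) k d ≠ 0 := by
    rw [Ne, FaithfulSMul.algebraMap_eq_zero_iff]
    exact nonZeroDivisors.ne_zero hd
  have hqf : q.map (algebraMap (𝓞 k) k) = C (algebraMap (𝓞 k) k d) * f := by
    rw [hd']
    ext i
    rw [coeff_smul, coeff_C_mul, Algebra.smul_def]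
  set c : k := algebraMap (𝓞 k) k d with hc
  set Q : (𝓞 k)[X] := C d * q with hQ
  have hQf : Q.map (algebraMap (𝓞 k) k) = C (c ^ 2) * f := by
    rw [hQ, Polynomial.map_mul, hqf, map_C, C_pow]
    ring
  clear_value Q c
  refine ⟨Q, c, hdk, hQf, ?_⟩
  -- an irreducible divisor of odd multiplicity
  obtain ⟨π, δ, m, hπ, hπδ, hfe⟩ := exists_odd hf hns
  let ι₀ : k →ₐ[ℚ] ℂ := IsAlgClosed.lift
  set πc : ℂ[X] := π.map (ι₀ : k →+* ℂ) with hπc
  have hπc0 : πc ≠ 0 := (Polynomial.map_ne_zero_iff (ι₀ : k →+* ℂ).injective).2 hπ.ne_zero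
  obtain ⟨z, hz⟩ := IsAlgClosed.exists_root πc (by
    rw [hπc, degree_map]
    exact (degree_pos_of_irreducible hπ).ne')
  obtain ⟨π₁, hπ₁⟩ := dvd_iff_isRoot.2 hz
  have hsqf : Squarefree πc := (hπ.separable.map).squarefree
  have hπ₁z : π₁.eval z ≠ 0 := by
    intro h0
    obtain ⟨π₂, hπ₂⟩ := dvd_iff_isRoot.2 h0
    exact not_isUnit_X_sub_C z (hsqf (X - C z) ⟨π₂, by rw [hπ₁, hπ₂]; ring⟩)
  have hδz : (δ.map (ι₀ : k →+* ℂ)).eval z ≠ 0 := by
    obtain ⟨u, v, huv⟩ := (hπ.coprime_iff_not_dvd.2 hπδ)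
    intro h0
    have h1 := congrArg (fun g : k[X] => (g.map (ι₀ : k →+* ℂ)).eval z) huv
    simp only [Polynomial.map_add, Polynomial.map_mul, eval_add, eval_mul, Polynomial.map_one,
      eval_one] at h1
    rw [h0, mul_zero, add_zero, show (π.map (ι₀ : k →+* ℂ)).eval z = 0 from hz, mul_zero] at h1
    exact one_ne_zero h1.symm
  set G₀ : ℂ[X] := C (ι₀ c ^ 2) * π₁ ^ (2 * m + 1) * δ.map (ι₀ : k →+* ℂ) with hG₀
  have hcι : ι₀ c ≠ 0 := (_root_.map_ne_zero ι₀).2 hdk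
  have hG₀z : G₀.eval z ≠ 0 := by
    rw [hG₀, eval_mul, eval_mul, eval_C, eval_pow]
    exact mul_ne_zero (mul_ne_zero (pow_ne_zero _ hcι) (pow_ne_zero _ hπ₁z)) hδz
  have hQc : Q.map ((ι₀ : k →+* ℂ).comp (algebraMap (𝓞 k) k)) = (X - C z) ^ (2 * m + 1) * G₀ := by
    rw [← Polynomial.map_map, hQf, Polynomial.map_mul, map_C, hfe, Polynomial.map_mul,
      Polynomial.map_pow, ← hπc, hπ₁, hG₀]
    simp only [map_pow, RingHom.coe_coe]
    rw [mul_pow]
    ring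
  clear_value G₀
  -- algebraicity
  have ha0 : ∀ x : k, IsAlgebraic ℚ (ι₀ x) := fun x =>
    ((Algebra.IsIntegral.isIntegral x : IsIntegral ℚ x).map ι₀).isAlgebraic
  have haz : IsAlgebraic ℚ z := by
    refine isAlg_root hπc0 ?_ hz
    intro n
    rw [hπc, coeff_map]
    exact ha0 _
  have hQc0 : Q.map ((ι₀ : k →+* ℂ).comp (algebraMap (𝓞 k) k)) ≠ 0 := by
    rw [hQc]
    refine mul_ne_zero (pow_ne_zero _ (X_sub_C_ne_zero z)) ?_
    intro h0
    rw [h0, eval_zero] at hG₀z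
    exact hG₀z rfl
  have haG : ∀ n, IsAlgebraic ℚ (G₀.coeff n) := by
    refine (isAlg_factor hQc0 ?_ ((monic_X_sub_C z).pow (2 * m + 1)) hQc.symm).2
    intro n
    rw [coeff_map]
    exact ha0 _
  have haGz : IsAlgebraic ℚ (G₀.eval z) := isAlg_eval haG haz
  set s : Finset ℂ := (Finset.univ.image fun j => ι₀ (algebraMap (𝓞 k) k (ω j))) ∪
    ({z, (G₀.eval z)⁻¹} ∪ (Finset.range (G₀.natDegree + 1)).image fun n => G₀.coeff n) with hs
  obtain ⟨p, hp, hp2, e, he⟩ := emb_int s (by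
    intro x hx
    rw [hs, Finset.mem_union, Finset.mem_union, Finset.mem_insert, Finset.mem_singleton] at hx
    rcases hx with hx | (rfl | rfl) | hx
    · obtain ⟨j, -, rfl⟩ := Finset.mem_image.1 hx
      exact ha0 _
    · exact haz
    · exact haGz.inv
    · obtain ⟨n, -, rfl⟩ := Finset.mem_image.1 hx
      exact haG n)
  refine ⟨p, hp, hp2, ?_⟩
  have hcl : ∀ x ∈ s, x ∈ Subfield.closure (s : Set ℂ) := fun x hx =>
    Subfield.subset_closure (Finset.mem_coe.2 hx)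
  have hmem : ∀ x : 𝓞 k, (ι₀ : k →+* ℂ).comp (algebraMap (𝓞 k) k) x ∈
      Subfield.closure (s : Set ℂ) := by
    intro x
    rw [← ω.sum_repr x, map_sum]
    refine sum_mem fun j _ => ?_
    rw [map_zsmul]
    refine zsmul_mem (hcl _ ?_) _
    rw [hs, Finset.mem_union]
    exact Or.inl (Finset.mem_image.2 ⟨j, Finset.mem_univ _, rfl⟩)
  let τ : 𝓞 k →+* Subfield.closure (s : Set ℂ) :=
    ((ι₀ : k →+* ℂ).comp (algebraMap (𝓞 k) k)).codRestrict _ hmem
  let g : 𝓞 k →+* ℚ_[p] := e.comp τ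
  have hg : ∀ x : 𝓞 k, g x ∈ PadicInt.subring p := by
    intro x
    have h1 : IsIntegral ℤ (g x) := (RingOfIntegers.isIntegral x).map g.toIntAlgHom
    have h2 : IsIntegral ℤ_[p] (g x) := h1.tower_top
    obtain ⟨y, hy⟩ := IsIntegrallyClosed.isIntegral_iff.1 h2
    rw [← hy]
    exact y.2
  let σ₀ : 𝓞 k →+* ℤ_[p] := g.codRestrict (PadicInt.subring p) hg
  have hσ₀ : ∀ x, algebraMap ℤ_[p] ℚ_[p] (σ₀ x) = e (τ x) := fun x => rfl
  have hzs : z ∈ s := by
    rw [hs, Finset.mem_union, Finset.mem_union, Finset.mem_insert]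
    exact Or.inr (Or.inl (Or.inl rfl))
  have his : (G₀.eval z)⁻¹ ∈ s := by
    rw [hs, Finset.mem_union, Finset.mem_union, Finset.mem_insert, Finset.mem_singleton]
    exact Or.inr (Or.inl (Or.inr rfl))
  have hGF : ∀ n, G₀.coeff n ∈ Subfield.closure (s : Set ℂ) := by
    intro n
    by_cases hn : n ≤ G₀.natDegree
    · refine hcl _ ?_
      rw [hs, Finset.mem_union, Finset.mem_union]
      exact Or.inr (Or.inr (Finset.mem_image.2 ⟨n, Finset.mem_range.2 (by omega), rfl⟩))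
    · rw [coeff_eq_zero_of_natDegree_lt (by omega)]
      exact zero_mem _
  have hwn : ∀ n, ∃ w : ℤ_[p], (w : ℚ_[p]) = e ⟨G₀.coeff n, hGF n⟩ := by
    intro n
    by_cases hn : n ≤ G₀.natDegree
    · refine he _ (hGF n) ?_
      rw [hs, Finset.mem_union, Finset.mem_union]
      exact Or.inr (Or.inr (Finset.mem_image.2 ⟨n, Finset.mem_range.2 (by omega), rfl⟩))
    · refine ⟨0, ?_⟩
      have h1 : (⟨G₀.coeff n, hGF n⟩ : Subfield.closure (s : Set ℂ)) = 0 := by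
        apply Subtype.ext
        exact coeff_eq_zero_of_natDegree_lt (by omega)
      rw [h1, map_zero]
      rfl
  choose wc hwc using hwn
  obtain ⟨ρ, hρ⟩ := he z (hcl z hzs) hzs
  obtain ⟨wi, hwi⟩ := he _ (hcl _ his) his
  set zF : Subfield.closure (s : Set ℂ) := ⟨z, hcl z hzs⟩ with hzF
  obtain ⟨GF, hGFm⟩ : ∃ GF : (Subfield.closure (s : Set ℂ))[X],
      GF.map (algebraMap (Subfield.closure (s : Set ℂ)) ℂ) = G₀ := by
    have hl : G₀ ∈ Polynomial.lifts (algebraMap (Subfield.closure (s : Set ℂ)) ℂ) := by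
      rw [Polynomial.lifts_iff_coeff_lifts]
      intro n
      exact ⟨⟨G₀.coeff n, hGF n⟩, rfl⟩
    exact (Polynomial.mem_lifts _).1 hl
  have hGFc : ∀ n, GF.coeff n = ⟨G₀.coeff n, hGF n⟩ := by
    intro n
    apply Subtype.ext
    have h1 := congrArg (fun g : ℂ[X] => g.coeff n) hGFm
    simp only [coeff_map] at h1
    exact h1
  set G : ℤ_[p][X] := ∑ n ∈ Finset.range (G₀.natDegree + 1), C (wc n) * X ^ n with hG
  have hGc : ∀ n, G.coeff n = if n < G₀.natDegree + 1 then wc n else 0 := by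
    intro n
    rw [hG, finset_sum_coeff]
    simp only [coeff_C_mul, coeff_X_pow, mul_ite, mul_one, mul_zero]
    rw [Finset.sum_ite_eq]
    simp only [Finset.mem_range]
  have hGm : G.map (algebraMap ℤ_[p] ℚ_[p]) = GF.map e := by
    ext n
    rw [coeff_map, coeff_map, hGc, hGFc]
    by_cases hn : n < G₀.natDegree + 1
    · rw [if_pos hn]
      exact hwc n
    · rw [if_neg hn, map_zero]
      have h1 : (⟨G₀.coeff n, hGF n⟩ : Subfield.closure (s : Set ℂ)) = 0 := by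
        apply Subtype.ext
        exact coeff_eq_zero_of_natDegree_lt (by omega)
      rw [h1, map_zero]
  have hQF : Q.map τ = (X - C zF) ^ (2 * m + 1) * GF := by
    apply Polynomial.map_injective (algebraMap (Subfield.closure (s : Set ℂ)) ℂ)
      (algebraMap (Subfield.closure (s : Set ℂ)) ℂ).injective
    rw [Polynomial.map_map, Polynomial.map_mul, Polynomial.map_pow, Polynomial.map_sub, map_X,
      map_C, hGFm]
    exact hQc
  refine ⟨σ₀, ρ, m, G, ?_, ?_⟩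
  · apply Polynomial.map_injective (algebraMap ℤ_[p] ℚ_[p]) (IsFractionRing.injective _ _)
    rw [Polynomial.map_map, Polynomial.map_mul, Polynomial.map_pow, Polynomial.map_sub, map_X,
      map_C, hGm]
    have h1 : (algebraMap ℤ_[p] ℚ_[p]).comp σ₀ = e.comp τ := by
      ext x
      exact hσ₀ x
    rw [h1, ← Polynomial.map_map, hQF, Polynomial.map_mul, Polynomial.map_pow,
      Polynomial.map_sub, map_X, map_C]
    have h2 : algebraMap ℤ_[p] ℚ_[p] ρ = e zF := hρ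
    rw [h2]
  · refine IsUnit.of_mul_eq_one wi ?_
    apply IsFractionRing.injective ℤ_[p] ℚ_[p]
    rw [map_mul, map_one, ← eval₂_at_apply, ← eval_map, hGm]
    have h2 : algebraMap ℤ_[p] ℚ_[p] ρ = e zF := hρ
    have h3 : algebraMap ℤ_[p] ℚ_[p] wi = e ⟨(G₀.eval z)⁻¹, hcl _ his⟩ := hwi
    rw [h2, h3, eval_map, eval₂_at_apply, ← map_mul]
    have h4 : GF.eval zF * ⟨(G₀.eval z)⁻¹, hcl _ his⟩ = 1 := by
      apply (algebraMap (Subfield.closure (s : Set ℂ)) ℂ).injective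
      rw [map_mul, map_one, ← eval₂_at_apply, ← eval_map, hGFm]
      exact mul_inv_cancel₀ hG₀z
    rw [h4, map_one]

end Pool.Agent.R939.HI
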