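import Pool.Agent.R939.HI.Lmk2
import Pool.Agent.R939.HI.Trans

/-!
# Hilbert irreducibility with densities: squares of the values of a fixed polynomial
-/

set_option autoImplicit false
set_option linter.all false

namespace Pool.Agent.R939.HI

open MvPolynomial Pool.Agent.W275.UB Pool.Agent.W275.ND Pool.Agent Pool.Agent.H927R2.RD

section subst

variable {ι J : Type} [Fintype J] {O : Type} [CommRing O] (ω : Module.Basis J ℤ O)

/-- the equation `w² = Q(θ)` for a fixed polynomial `Q` over `O` -/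
noncomputable def gQO (ι : Type) (Q : Polynomial O) :
    MvPolynomial (J ⊕ Fin 2) (MvPolynomial (ι × J) ℤ) :=
  X (Sum.inr 1) ^ 2 - Q.sum fun n c => (∑ j, C (C (ω.repr c j)) * X (Sum.inl j)) *
    X (Sum.inr 0) ^ n

theorem eval_gQO {R : Type} [CommRing R] (φ : MvPolynomial (ι × J) ℤ →+* R) (y : J ⊕ Fin 2 → R)
    (σ : O →+* R) (hσ : ∀ j, y (Sum.inl j) = σ (ω j)) (Q : Polynomial O) :
    eval₂ φ y (gQO ω ι Q) = y (Sum.inr 1) ^ 2 - Q.eval₂ σ (y (Sum.inr 0)) := by
  have hc : ∀ n : ℤ, φ (C n) = (n : R) := fun n => by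
    have : (C n : MvPolynomial (ι × J) ℤ) = ((n : ℤ) : MvPolynomial (ι × J) ℤ) := by
      simp
    rw [this, map_intCast]
  rw [gQO, eval₂_sub, eval₂_pow, eval₂_X, Polynomial.sum_def, eval₂_sum, Polynomial.eval₂_eq_sum,
    Polynomial.sum_def]
  congr 1
  refine Finset.sum_congr rfl fun n _ => ?_
  rw [eval₂_mul, eval₂_pow, eval₂_X, eval₂_sum]
  congr 1
  conv_rhs => rw [← ω.sum_repr (Q.coeff n), map_sum]
  refine Finset.sum_congr rfl fun j _ => ?_
  rw [eval₂_mul, eval₂_C, hc, eval₂_X, hσ, zsmul_eq_mul, map_mul, map_intCast]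

end subst

/-- **Roots of small degree at which a fixed polynomial `Q` is a square.** -/
theorem rootsQ {O J ι : Type} [CommRing O] [IsDomain O] [Fintype J] [Fintype ι]
    (ω : Module.Basis J ℤ O) (P : Polynomial (MvPolynomial ι ℤ)) (Q : Polynomial O) (hP : P ≠ 0)
    (N : ℕ) (p : ℕ) [Fact p.Prime] (σ₀ : O →+* ℤ_[p]) (a : ι → ℤ_[p]) (M : ℕ)
    (hno : ∀ (K' : Type) [Field K'] (A : Type)
      [CommRing A] [IsDomain A] [IsDiscreteValuationRing A] [Algebra A K'] [IsFractionRing A K']
      (π : A) (τ : ℤ_[p] →+* A), Irreducible π → π ∣ (p : A) → ¬ π ^ (N + 1) ∣ (p : A) →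
      ∀ b : ι → A, (∀ i, (p : A) ^ M ∣ b i - τ (a i)) → ∀ θ w : K',
      P.eval₂ (av fun i => algebraMap A K' (b i)) θ = 0 →
      w ^ 2 ≠ Q.eval₂ ((algebraMap A K').comp (τ.comp σ₀)) θ) :
    D0 {x : ι × J → ℤ | ∃ (K : Type) (_ : Field K) (_ : NumberField K) (σ : O →+* K) (θ w : K),
      Module.finrank ℚ K ≤ N * Fintype.card J ∧
      P.eval₂ (av (cv (fun j => σ (ω j)) fun q => (x q : K))) θ = 0 ∧
      w ^ 2 = Q.eval₂ σ θ} := by
  classical
  by_contra hcon
  have hcon' : ¬ (∀ ε : ℝ, 0 < ε → UD ε {x : ι × J → ℤ |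
      ∃ (K : Type) (_ : Field K) (_ : NumberField K) (y : J ⊕ Fin 2 → K),
        Module.finrank ℚ K ≤ N * Fintype.card J ∧
        (∀ g ∈ gT ω ι ∪ {gP J P, gQO ω ι Q}, eval₂ ((Int.castRingHom K).comp (eval x)) y g = 0) ∧
        eval₂ ((Int.castRingHom K).comp (eval x)) y 1 ≠ 0}) := by
    intro h
    apply hcon
    intro ε hε
    refine (h ε hε).mono ?_
    rintro x ⟨K, _, _, σ, θ, w, hK, hθ, hw⟩
    refine ⟨K, inferInstance, inferInstance, Sum.elim (fun j => σ (ω j)) ![θ, w], hK, ?_, ?_⟩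
    · have hx : ∀ q : ι × J, ((Int.castRingHom K).comp (eval x)) (X q) = (x q : K) := by
        intro q
        simp
      rintro g (hg | rfl | rfl)
      · exact (eval_gT ω _ _).2 ((tab O J K ω _).2 ⟨σ, fun j => rfl⟩) g hg
      · rw [eval_gP]
        simp only [hx]
        simpa using hθ
      · rw [eval_gQO ω _ _ σ (fun j => rfl)]
        simpa using sub_eq_zero.2 hw
    · rw [eval₂_one]
      exact one_ne_zero
  obtain ⟨L, _, _, y, hfd, hdeg, hy, -⟩ := genT (ι × J) (J ⊕ Fin 2) (N * Fintype.card J)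
    (gT ω ι ∪ {gP J P, gQO ω ι Q}) 1 (by
      intro Ω _ _ _ y hy
      obtain ⟨σ, hσ⟩ := (tab O J Ω ω _).1 ((eval_gT ω _ _).1 fun g hg => hy g (Or.inl hg))
      have h1 := hy _ (Or.inr (Or.inl rfl))
      have h2 := hy _ (Or.inr (Or.inr rfl))
      rw [eval_gP] at h1
      rw [eval_gQO ω _ _ σ hσ] at h2
      set v : ι → Ω := cv (fun j => y (Sum.inl j)) fun q => gn (ι × J) Ω (X q) with hv
      have hint : ∀ x : O, IsIntegral ℤ (σ x) := by
        intro x
        haveI : Module.Finite ℤ O := Module.Finite.of_basis ω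
        have h1 : IsIntegral ℤ x := Algebra.IsIntegral.isIntegral x
        have h2 := h1.map (σ.toIntAlgHom)
        exact h2
      have hσa : ∀ x : O, IsAlgebraic (EE (ι × J)) (σ x) := by
        intro x
        obtain ⟨p, hp, hpx⟩ := hint x
        refine IsIntegral.isAlgebraic
          ⟨p.map (Int.castRingHom (EE (ι × J))), hp.map _, ?_⟩
        rw [Polynomial.eval₂_map]
        have h2 : (algebraMap (EE (ι × J)) Ω).comp
            (Int.castRingHom (EE (ι × J))) = algebraMap ℤ Ω := RingHom.ext_int _ _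
        rw [h2]
        exact hpx
      have hz : ∀ j, IsAlgebraic (EE (ι × J)) (y (Sum.inl j)) := by
        intro j
        rw [show y (Sum.inl j) = σ (ω j) from hσ j]
        exact hσa _
      have hvalg : ∀ i, IsAlgebraic (EE (ι × J)) (v i) := by
        intro i
        rw [hv]
        simp only [cv]
        refine Finset.sum_induction _ (IsAlgebraic (EE (ι × J))) (fun _ _ => IsAlgebraic.add)
          isAlgebraic_zero ?_
        intro j _
        exact (hz j).mul (isAlgebraic_algebraMap _)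
      have hne : ∀ c : MvPolynomial ι ℤ, c ≠ 0 → av v c ≠ 0 := by
        intro c hc
        obtain ⟨cn, hcn, hdiv⟩ := norm O J ι ω c hc
        have h3 := hdiv Ω σ fun q => gn (ι × J) Ω (X q)
        rw [gn_aeval] at h3
        have h4 := ne_zero_of_dvd_ne_zero (gn_ne_zero cn hcn) h3
        rw [av_aeval]
        have h5 : (fun j => σ (ω j)) = fun j => y (Sum.inl j) := funext fun j => (hσ j).symm
        rwa [h5] at h4
      have hPv : P.map (av v) ≠ 0 := by
        obtain ⟨n, hn⟩ : ∃ n, P.coeff n ≠ 0 := by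
          by_contra h
          push Not at h
          exact hP (Polynomial.ext h)
        intro h0
        have := congrArg (fun f => Polynomial.coeff f n) h0
        simp only [Polynomial.coeff_map, Polynomial.coeff_zero] at this
        exact hne _ hn this
      have hθ : IsAlgebraic (EE (ι × J)) (y (Sum.inr 0)) := by
        refine isAlg_root hPv ?_ (by rw [Polynomial.eval_map]; exact h1)
        intro n
        rw [Polynomial.coeff_map]
        exact isAlg_av hvalg _
      have hw : IsAlgebraic (EE (ι × J)) (y (Sum.inr 1)) := by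
        have h3 : IsAlgebraic (EE (ι × J)) (y (Sum.inr 1) ^ 2) := by
          rw [sub_eq_zero.1 h2, ← Polynomial.eval_map]
          refine isAlg_eval ?_ hθ
          intro n
          rw [Polynomial.coeff_map]
          exact hσa _
        exact h3.of_pow (by norm_num)
      intro t
      rcases t with j | t
      · exact hz j
      · fin_cases t
        · exact hθ
        · exact hw) hcon'
  haveI := hfd
  obtain ⟨σ, hσ⟩ := (tab O J L ω _).1 ((eval_gT ω _ _).1 fun g hg => hy g (Or.inl hg))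
  have h1 := hy _ (Or.inr (Or.inl rfl))
  have h2 := hy _ (Or.inr (Or.inr rfl))
  rw [eval_gP] at h1
  rw [eval_gQO ω _ _ σ hσ] at h2
  have hσ' : (fun j => y (Sum.inl j)) = fun j => σ (ω j) := funext hσ
  rw [hσ'] at h1
  have hJ : 0 < Fintype.card J := by
    rw [Fintype.card_pos_iff]
    by_contra hemp
    rw [not_nonempty_iff] at hemp
    have : Subsingleton O := ω.repr.toEquiv.subsingleton
    exact not_subsingleton O this
  obtain ⟨K', _, φ, A, _, _, _, _, _, π, τ, b, hπ, hπp, hπN, hb, hτ, hba⟩ :=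
    lmk2 O J ω p σ₀ ι a M (N + 1) L σ
      (lt_of_le_of_lt hdeg (Nat.mul_lt_mul_of_pos_right (Nat.lt_succ_self N) hJ))
  refine hno K' A π τ hπ hπp hπN b hba (φ (y (Sum.inr 0))) (φ (y (Sum.inr 1))) ?_ ?_
  · have h3 := congrArg φ h1
    rw [Polynomial.hom_eval₂, map_zero, hom_av] at h3
    simp only [hb]
    exact h3
  · have h3 := congrArg φ (sub_eq_zero.1 h2)
    rw [Polynomial.hom_eval₂, map_pow] at h3
    have h4 : φ.comp σ = (algebraMap A K').comp (τ.comp σ₀) := by
      ext o
      exact hτ o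
    rw [h4] at h3
    exact h3

end Pool.Agent.R939.HI
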