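import Pool.Agent.R939.HI.Loc2

/-!
# The local targets
-/

set_option autoImplicit false
set_option linter.all false

namespace Pool.Agent.R939.HI

open Polynomial Pool.Agent.R939.EI Pool.Agent.W275.UB

theorem polA_single {R : Type} [CommRing R] {n : ℕ} (i : Fin (n + 1)) (x : R) :
    polA (Pi.single i x) = C x * X ^ (i : ℕ) := by
  unfold polA
  rw [Finset.sum_eq_single i]
  · rw [Pi.single_eq_same]
  · intro j _ hj
    rw [Pi.single_eq_of_ne hj, C_0, zero_mul]
  · intro h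
    exact absurd (Finset.mem_univ i) h

section maps

variable {r s u : ℕ} {m : Fin s → ℕ} {n : Fin u → ℕ} {R : Type} [CommRing R]

theorem map_b (v : Ix r m n → R) (i : Fin s) :
    (polA (bV (XX r m n) i)).map (av v) = polA (bV v i) := by
  rw [polA_map]
  simp only [bV, av_X]
  rfl

theorem map_d (v : Ix r m n → R) (l : Fin u) :
    (polA (dV (XX r m n) l)).map (av v) = polA (dV v l) := by
  rw [polA_map]
  simp only [dV, av_X]
  rfl

theorem map_P (v : Ix r m n → R) : (polP (bV (XX r m n))).map (av v) = polP (bV v) := by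
  rw [polP_map]
  simp only [bV, av_X]
  rfl

theorem map_E (v : Ix r m n → R) :
    (polE (aV (XX r m n)) (bV (XX r m n))).map (av v) = polE (aV v) (bV v) := by
  rw [polE_map]
  simp only [aV, bV, av_X]
  rfl

theorem aV_mk (ta : Fin (r + 1) → R) (tb : (i : Fin s) → Fin (m i + 1) → R)
    (td : (l : Fin u) → Fin (n l + 1) → R) : aV (mk ta tb td : Ix r m n → R) = ta := by
  funext j
  rfl

theorem bV_mk (ta : Fin (r + 1) → R) (tb : (i : Fin s) → Fin (m i + 1) → R)
    (td : (l : Fin u) → Fin (n l + 1) → R) : bV (mk ta tb td : Ix r m n → R) = tb := by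
  funext i j
  rfl

theorem mapE_mk (ta : Fin (r + 1) → R) (tb : (i : Fin s) → Fin (m i + 1) → R)
    (td : (l : Fin u) → Fin (n l + 1) → R) :
    (polE (aV (XX r m n)) (bV (XX r m n))).map (av (mk ta tb td : Ix r m n → R)) = polE ta tb := by
  rw [map_E, aV_mk, bV_mk]

theorem mapb_mk (ta : Fin (r + 1) → R) (tb : (i : Fin s) → Fin (m i + 1) → R)
    (td : (l : Fin u) → Fin (n l + 1) → R) (i : Fin s) :
    (polA (bV (XX r m n) i)).map (av (mk ta tb td : Ix r m n → R)) = polA (tb i) := by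
  rw [map_b, bV_mk]

theorem polE_deg {N : ℕ} (hr : 2 * r ≤ N) (hm : ∑ i, m i ≤ N) (a : Fin (r + 1) → R)
    (β : (i : Fin s) → Fin (m i + 1) → R) : (polE a β).natDegree ≤ N := by
  unfold polE
  refine (natDegree_sub_le _ _).trans (max_le ?_ ?_)
  · refine natDegree_pow_le.trans ?_
    exact (Nat.mul_le_mul_left 2 (polA_natDegree a)).trans hr
  · have e4 : (4 : R[X]) = C 4 := by rw [map_ofNat]
    rw [e4]
    exact (natDegree_C_mul_le _ _).trans ((polP_natDegree β).trans hm)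

end maps

theorem cop4 {p : ℕ} (hp : p.Prime) (hp2 : p ≠ 2) : IsCoprime (4 : ℤ) (p : ℤ) := by
  have h2 : IsCoprime ((2 : ℕ) : ℤ) (p : ℤ) :=
    Nat.isCoprime_iff_coprime.2 ((Nat.coprime_primes Nat.prime_two hp).2 (Ne.symm hp2))
  have : (4 : ℤ) = ((2 : ℕ) : ℤ) * ((2 : ℕ) : ℤ) := by norm_num
  rw [this]
  exact h2.mul_left h2

section dens

variable {r s u : ℕ} {m : Fin s → ℕ} {n : Fin u → ℕ} {O J : Type} [CommRing O] [IsDomain O]
  [Fintype J] (ω : Module.Basis J ℤ O)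

theorem polP_one (i0 : Fin s) (tb : (i : Fin s) → Fin (m i + 1) → ℤ) (f : ℤ[X])
    (h0 : polA (tb i0) = f) (h1 : ∀ i, i ≠ i0 → polA (tb i) = 1) : polP tb = f := by
  unfold polP
  rw [← Finset.mul_prod_erase _ _ (Finset.mem_univ i0), h0,
    Finset.prod_eq_one fun i hi => h1 i (Finset.mem_erase.1 hi).1, mul_one]

/-- a target with a special factor -/
def tb1 (m : Fin s → ℕ) (i0 : Fin s) (x : Fin (m i0 + 1) → ℤ)
    (y : (i : Fin s) → Fin (m i + 1) → ℤ) : (i : Fin s) → Fin (m i + 1) → ℤ :=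
  Function.update y i0 x

theorem tb1_same (i0 : Fin s) (x : Fin (m i0 + 1) → ℤ) (y : (i : Fin s) → Fin (m i + 1) → ℤ) :
    tb1 m i0 x y i0 = x := Function.update_self _ _ _

theorem tb1_ne (i0 : Fin s) (x : Fin (m i0 + 1) → ℤ) (y : (i : Fin s) → Fin (m i + 1) → ℤ)
    {i : Fin s} (h : i ≠ i0) : tb1 m i0 x y i = y i := Function.update_of_ne h _ _

theorem val1 {q : ℕ} (h : 1 ≤ q) : ((1 : Fin (q + 1)) : ℕ) = 1 := by
  rw [Fin.val_one']
  exact Nat.mod_eq_of_lt (by omega)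

theorem C22 : (C 2 : ℤ[X]) ^ 2 = C 4 := by
  rw [← C_pow]
  norm_num

theorem C44 : (4 : ℤ[X]) = C 4 := by rw [map_ofNat]

/-- the discriminant is irreducible: the case where `a²` dominates -/
theorem dens_E1 (hr : 1 ≤ r) (hm : ∑ i, m i ≤ 2 * r) (i0 : Fin s) :
    D0 (RootSq ω (polE (aV (XX r m n)) (bV (XX r m n))) 0 (2 * r - 1)) := by
  refine dens_root (N := 2 * r) (k := 1) ω (by omega) le_rfl (by omega)
    (polE_deg le_rfl hm _ _) ?_
  intro p hp hp2
  refine ⟨mk (Pi.single (Fin.last r) 2)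
    (tb1 m i0 (Pi.single 0 (p : ℤ)) fun i => Pi.single 0 1) (fun _ _ => 0), -4,
    (cop4 hp hp2).neg_left, ?_⟩
  have e : polE (Pi.single (Fin.last r) (2 : ℤ))
      (tb1 m i0 (Pi.single 0 (p : ℤ)) fun i => Pi.single 0 1) =
      C 4 * X ^ (2 * r) - C (4 * (p : ℤ)) := by
    unfold polE
    rw [polP_one i0 _ (C (p : ℤ)) (by rw [tb1_same, polA_single, Fin.val_zero, pow_zero, mul_one])
      (by intro i hi; rw [tb1_ne _ _ _ hi, polA_single, Fin.val_zero, pow_zero, mul_one, C_1]),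
      polA_single, Fin.val_last, C_mul, C44, mul_pow, C22, ← pow_mul, Nat.mul_comm r 2]
  rw [mapE_mk, e]
  refine ⟨?_, ?_, ?_⟩
  · rw [coeff_sub, coeff_C_mul, coeff_X_pow, if_neg (by omega), coeff_C_zero]
    ring
  · rw [coeff_sub, coeff_C_mul, coeff_X_pow, if_pos rfl, coeff_C, if_neg (by omega), sub_zero,
      mul_one]
    exact cop4 hp hp2
  · intro j h0 hN
    rw [coeff_sub, coeff_C_mul, coeff_X_pow, if_neg hN, coeff_C, if_neg h0]
    ring

/-- the discriminant is not a norm: the case where `a²` dominates -/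
theorem dens_E1' (hr : 2 ≤ r) (hm : ∑ i, m i ≤ 2 * r) (i0 : Fin s) (hi0 : 1 ≤ m i0) :
    D0 (FacSet ω (polE (aV (XX r m n)) (bV (XX r m n))) r) := by
  have hNr : r = 2 * r / 2 := by omega
  rw [hNr]
  refine dens_fac1 (N := 2 * r) ω (by omega) (even_two_mul r) (polE_deg (by omega) (by omega) _ _) ?_
  intro p hp hp2
  have e : polE (Pi.single (Fin.last (2 * r / 2)) (2 : ℤ))
      (tb1 m i0 (Pi.single 1 (p : ℤ)) fun i => Pi.single 0 1) =
      C 4 * X ^ (2 * r) - C (4 * (p : ℤ)) * X ^ 1 := by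
    unfold polE
    rw [polP_one i0 _ (C (p : ℤ) * X ^ 1) (by rw [tb1_same, polA_single, val1 hi0])
      (by intro i hi; rw [tb1_ne _ _ _ hi, polA_single, Fin.val_zero, pow_zero, mul_one, C_1]),
      polA_single, Fin.val_last, C_mul, C44, mul_pow, C22, ← pow_mul, ← hNr, Nat.mul_comm r 2,
      mul_assoc]
  refine ⟨mk (Pi.single (Fin.last (2 * r / 2)) 2)
    (tb1 m i0 (Pi.single 1 (p : ℤ)) fun i => Pi.single 0 1) (fun _ _ => 0), -4,
    (cop4 hp hp2).neg_left, ?_⟩
  rw [mapE_mk, e]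
  refine ⟨?_, ?_, ?_⟩
  · rw [coeff_sub, coeff_C_mul, coeff_X_pow, if_neg (by omega), coeff_C_mul, coeff_X_pow,
      if_pos rfl]
    ring
  · rw [coeff_sub, coeff_C_mul, coeff_X_pow, if_pos rfl, coeff_C_mul, coeff_X_pow,
      if_neg (by omega), mul_zero, sub_zero, mul_one]
    exact cop4 hp hp2
  · intro j h0 hN
    rw [coeff_sub, coeff_C_mul, coeff_X_pow, if_neg hN, coeff_C_mul, coeff_X_pow, if_neg h0]
    ring

end dens

end Pool.Agent.R939.HI
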