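import Pool.Agent.R939.HI.Tgt

/-!
# The local targets, continued
-/

set_option autoImplicit false
set_option linter.all false

namespace Pool.Agent.R939.HI

open Polynomial Pool.Agent.R939.EI Pool.Agent.W275.UB

section dens

variable {r s u : ℕ} {m : Fin s → ℕ} {n : Fin u → ℕ} {O J : Type} [CommRing O] [IsDomain O]
  [Fintype J] (ω : Module.Basis J ℤ O)

/-- the discriminant is irreducible: the case where `b` dominates -/
theorem dens_E2 (hm4 : 4 ≤ ∑ i, m i) (hr : 2 * r ≤ ∑ i, m i) :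
    D0 (RootSq ω (polE (aV (XX r m n)) (bV (XX r m n))) 0 ((∑ i, m i) / 2 - 1)) := by
  refine dens_root (N := ∑ i, m i) (k := 2) ω (by omega) (by omega) (by omega)
    (polE_deg hr le_rfl _ _) ?_
  intro p hp hp2
  have e : polE (Pi.single 0 (2 * (p : ℤ)) : Fin (r + 1) → ℤ)
      (fun i : Fin s => (Pi.single (Fin.last (m i)) 1 : Fin (m i + 1) → ℤ)) =
      C ((p : ℤ) ^ 2 * 4) - C 4 * X ^ (∑ i, m i) := by
    unfold polE polP
    have h2 : ∀ i : Fin s, polA (Pi.single (Fin.last (m i)) (1 : ℤ)) = X ^ m i := by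
      intro i
      rw [polA_single, Fin.val_last, C_1, one_mul]
    rw [polA_single, Fin.val_zero, pow_zero, mul_one, Finset.prod_congr rfl fun i _ => h2 i,
      Finset.prod_pow_eq_pow_sum, ← C_pow, C44]
    congr 2
    ring
  refine ⟨mk (Pi.single 0 (2 * (p : ℤ))) (fun i => Pi.single (Fin.last (m i)) 1)
    (fun _ _ => 0), 4, cop4 hp hp2, ?_⟩
  rw [mapE_mk, e]
  refine ⟨?_, ?_, ?_⟩
  · rw [coeff_sub, coeff_C_zero, coeff_C_mul, coeff_X_pow, if_neg (by omega), mul_zero, sub_zero]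
  · rw [coeff_sub, coeff_C_mul, coeff_X_pow, if_pos rfl, coeff_C, if_neg (by omega), mul_one,
      zero_sub]
    exact (cop4 hp hp2).neg_left
  · intro j h0 hN
    rw [coeff_sub, coeff_C_mul, coeff_X_pow, if_neg hN, coeff_C, if_neg h0]
    ring

/-- the discriminant is not a norm: the case where `b` dominates -/
theorem dens_E2' (hm4 : 4 ≤ ∑ i, m i) (hev : Even (∑ i, m i)) (hr : 2 * r ≤ ∑ i, m i)
    (i0 : Fin s) (hi0 : 1 ≤ m i0) :
    D0 (FacSet ω (polE (aV (XX r m n)) (bV (XX r m n))) ((∑ i, m i) / 2)) := by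
  refine dens_fac2 (N := ∑ i, m i) ω hm4 hev (polE_deg hr le_rfl _ _) ?_
  intro p hp hp2
  have hlt : m i0 - 1 < m i0 + 1 := by omega
  have e : polE (Pi.single 0 (2 * (p : ℤ)) : Fin (r + 1) → ℤ)
      (tb1 m i0 (Pi.single (Fin.last (m i0)) 1 + Pi.single ⟨m i0 - 1, hlt⟩ (-1))
        (fun i : Fin s => (Pi.single (Fin.last (m i)) 1 : Fin (m i + 1) → ℤ))) =
      C ((p : ℤ) ^ 2 * 4) - C 4 * X ^ (∑ i, m i) + C 4 * X ^ ((∑ i, m i) - 1) := by
    unfold polE polP
    have h2 : ∀ i, i ≠ i0 → polA (tb1 m i0 (Pi.single (Fin.last (m i0)) 1 +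
        Pi.single ⟨m i0 - 1, hlt⟩ (-1))
        (fun i : Fin s => (Pi.single (Fin.last (m i)) 1 : Fin (m i + 1) → ℤ)) i) = X ^ m i := by
      intro i hi
      rw [tb1_ne _ _ _ hi, polA_single, Fin.val_last, C_1, one_mul]
    have h3 : polA (Pi.single (Fin.last (m i0)) 1 + Pi.single ⟨m i0 - 1, hlt⟩ (-1) :
        Fin (m i0 + 1) → ℤ) = X ^ m i0 - X ^ (m i0 - 1) := by
      rw [polA_add, polA_single, polA_single, Fin.val_last, C_1, one_mul]
      simp only [C_neg, C_1]
      ring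
    have hsum : m i0 + ∑ i ∈ Finset.univ.erase i0, m i = ∑ i, m i :=
      Finset.add_sum_erase _ _ (Finset.mem_univ i0)
    rw [polA_single, Fin.val_zero, pow_zero, mul_one,
      ← Finset.mul_prod_erase _ _ (Finset.mem_univ i0), tb1_same, h3,
      Finset.prod_congr rfl fun i hi => h2 i (Finset.mem_erase.1 hi).1,
      Finset.prod_pow_eq_pow_sum, ← C_pow, C44]
    have h4 : (X ^ m i0 - X ^ (m i0 - 1) : ℤ[X]) * X ^ (∑ i ∈ Finset.univ.erase i0, m i) =
        X ^ (∑ i, m i) - X ^ ((∑ i, m i) - 1) := by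
      rw [sub_mul, ← pow_add, ← pow_add, hsum]
      congr 2
      omega
    rw [h4]
    have h5 : (2 * (p : ℤ)) ^ 2 = (p : ℤ) ^ 2 * 4 := by ring
    rw [h5]
    ring
  refine ⟨mk (Pi.single 0 (2 * (p : ℤ)))
      (tb1 m i0 (Pi.single (Fin.last (m i0)) 1 + Pi.single ⟨m i0 - 1, hlt⟩ (-1))
        (fun i : Fin s => (Pi.single (Fin.last (m i)) 1 : Fin (m i + 1) → ℤ)))
    (fun _ _ => 0), 4, cop4 hp hp2, ?_⟩
  rw [mapE_mk, e]
  refine ⟨?_, ?_, ?_, ?_⟩
  · rw [coeff_add, coeff_sub, coeff_C_zero, coeff_C_mul, coeff_X_pow, if_neg (by omega),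
      coeff_C_mul, coeff_X_pow, if_neg (by omega)]
    ring
  · rw [coeff_add, coeff_sub, coeff_C_mul, coeff_X_pow, if_pos rfl, coeff_C, if_neg (by omega),
      coeff_C_mul, coeff_X_pow, if_neg (by omega), mul_one, zero_sub, mul_zero, add_zero]
    exact (cop4 hp hp2).neg_left
  · rw [coeff_add, coeff_sub, coeff_C_mul, coeff_X_pow, if_neg (by omega), coeff_C,
      if_neg (by omega), coeff_C_mul, coeff_X_pow, if_pos rfl, mul_one, mul_zero, sub_zero,
      zero_add]
    exact cop4 hp hp2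
  · intro j h0 hM hN
    rw [coeff_add, coeff_sub, coeff_C_mul, coeff_X_pow, if_neg hN, coeff_C, if_neg h0,
      coeff_C_mul, coeff_X_pow, if_neg hM]
    ring

/-- the factors of `b` of even degree are not norms -/
theorem dens_b' (i : Fin s) (hi : 4 ≤ m i) (hev : Even (m i)) :
    D0 (FacSet ω (polA (bV (XX r m n) i)) (m i / 2)) := by
  refine dens_fac1 (N := m i) ω hi hev (polA_natDegree _) ?_
  intro p hp hp2
  refine ⟨mk (fun _ => 0) (fun i => Pi.single (Fin.last (m i)) 1 + Pi.single 1 (p : ℤ))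
    (fun _ _ => 0), 1, isCoprime_one_left, ?_⟩
  rw [mapb_mk, polA_add, polA_single, polA_single, Fin.val_last, val1 (by omega : 1 ≤ m i), C_1,
    one_mul]
  refine ⟨?_, ?_, ?_⟩
  · rw [coeff_add, coeff_X_pow, if_neg (by omega), coeff_C_mul, coeff_X_pow, if_pos rfl, zero_add]
  · rw [coeff_add, coeff_X_pow, if_pos rfl, coeff_C_mul, coeff_X_pow, if_neg (by omega), mul_zero,
      add_zero]
    exact isCoprime_one_left
  · intro j h1 hN
    rw [coeff_add, coeff_X_pow, if_neg hN, coeff_C_mul, coeff_X_pow, if_neg h1]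
    ring

/-- the factors of `b` are prime to each other -/
theorem dens_cop (i0 j0 : Fin s) (hij : j0 ≠ i0) (hi0 : 1 ≤ m i0) (hj0 : 1 ≤ m j0) :
    D0 (RootSq ω (polA (bV (XX r m n) i0)) (polA (bV (XX r m n) j0)) (m i0)) := by
  have hP0 : polA (bV (XX r m n) i0) ≠ 0 := polA_X_ne _
  refine roots ω _ _ hP0 _ ?_
  intro p hp hp2
  set v : Ix r m n → ℤ := mk (fun _ => 0)
    (tb1 m i0 (Pi.single (Fin.last (m i0)) 1 + Pi.single 0 (p : ℤ))
      (fun i => Pi.single 1 1)) (fun _ _ => 0) with hv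
  have e1 : (polA (bV (XX r m n) i0)).map (av v) = X ^ m i0 + C (p : ℤ) := by
    rw [hv, mapb_mk, tb1_same, polA_add, polA_single, polA_single, Fin.val_last, Fin.val_zero, C_1,
      one_mul, pow_zero, mul_one]
  have e2 : (polA (bV (XX r m n) j0)).map (av v) = X := by
    rw [hv, mapb_mk, tb1_ne _ _ _ hij, polA_single, val1 hj0, C_1, one_mul, pow_one]
  clear_value v
  refine ⟨v, 2, ?_⟩
  intro K' _ A _ _ _ _ _ π hπ hπp hπN b hb θ w hθ hw
  have hp0 : (p : A) ≠ 0 := p_ne hπN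
  obtain ⟨e, c, u, z, hu, hz, hec, hc⟩ := loc_root (K' := K')
    (P := polA (bV (XX r m n) i0)) (k := 1) (w := 1) hi0
    (polA_natDegree _) le_rfl isCoprime_one_left
    (by rw [e1, coeff_add, coeff_X_pow, if_neg (by omega), coeff_C_zero]; ring)
    (by
      rw [e1, coeff_add, coeff_X_pow, if_pos rfl, coeff_C, if_neg (by omega), add_zero]
      exact isCoprime_one_left)
    (by
      intro j h0 hN
      rw [e1, coeff_add, coeff_X_pow, if_neg hN, coeff_C, if_neg h0, add_zero]) hπ hπp hp0 hb hθ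
  have hc1 : c = 1 := by
    rw [hu, pow_dvd_unit hπ] at hπN
    by_contra hne
    have h1 : m i0 * 2 ≤ m i0 * c := Nat.mul_le_mul_left _ (by omega)
    omega
  rw [hc1, pow_one] at hz
  rw [← hz, ← eval_map, map_map_av, eval_map, eval₂_at_apply] at hw
  have h1 : (C ((p : A) ^ 2)) ∣ (polA (bV (XX r m n) j0)).map (av b) - X := by
    rw [C_dvd_iff_dvd_coeff]
    intro j
    obtain ⟨y, hy⟩ := coeff_near hb (polA (bV (XX r m n) j0)) j
    refine ⟨y, ?_⟩
    rw [coeff_sub, hy, e2, coeff_X, coeff_X]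
    split_ifs <;> push_cast <;> ring
  obtain ⟨y, hy⟩ := h1
  obtain ⟨g, hg⟩ := hπp
  have h2 : ((polA (bV (XX r m n) j0)).map (av b)).eval (z * π) =
      π * (z + π * (g ^ 2 * y.eval (z * π))) := by
    have h3 := congrArg (Polynomial.eval (z * π)) hy
    rw [eval_sub, eval_X, eval_mul, eval_C, hg] at h3
    linear_combination h3
  rw [h2] at hw
  exact no_sqrt hπ (unit_add hπ z.isUnit (dvd_mul_right _ _)) hw

end dens

end Pool.Agent.R939.HI
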